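import Pool.Agent.H90.DC.Defs

/-!
# Project DA (MP_64e98b_an, De Gregorio): class (A), at most two sign changes, any mean; definitions, interface

Class (A): `w0` smooth, `2π`-periodic, `w0 ≤ 0` on `[e,c]`, `w0 ≥ 0` on `[c,e+2π]`, and (normalisation by
`w ↦ -w(-x)`) `∫ w0 ≥ 0`.  N arc `(e,c)`, P arc `(c,e+2π)`.

Static side: `f x = w (t, X t c + x)`, base `c` at `0`, N arc `(-l,0)`, P arc `(0,2π-l)`, `l = X t c - X t e`,
`e` at `-l` (and at `2π-l`).  Functionals (dynamic side), `y = cot(ξ/2)`, `y₊ = max y 0`: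
* `E + M/2`, `E = ∫ w_x²/|w|`, `M = ∫ |w|` (full circle), derivative `EA f l`;
* `T = ∫_P |w| (y(x-c) - q)₊²/4 + ∫_N |w| y(c-x)₊²/4`, `q = q(l)`, derivative `TA (q l) (dq l) f l`;
* `Y_N = ∫_N |w| y(x-e)₊²/4`, `Y_N' = -BNA f l`;  `Y_P = ∫_P |w| y(e+2π-x)₊²/4`, `Y_P' = -BPA f l`;
* `M' = -BMA f l`.
STATIC INEQUALITY (`StatA`): `κ EA ≤ TA + K BNA + K' BPA + K'' BMA + C (∫ f) (∫ |f|)`, `κ > 1`.
-/

set_option autoImplicit false
open Real Set MeasureTheory Filter Topology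

namespace Pool.Agent.H90.DA
open Pool.Agent.H45.FL Pool.Agent.H51.DG Pool.Agent.H45.DY Pool.Agent.H90.DC

/-- class (A) of initial data (normalised: mean `≥ 0`) -/
structure GoodA (w0 : ℝ → ℝ) (e c : ℝ) : Prop where
  smooth : ContDiff ℝ ((⊤ : ℕ∞) : WithTop ℕ∞) w0
  per : Function.Periodic w0 (2 * π)
  hec : e < c
  hce : c < e + 2 * π
  neg : ∀ x ∈ Icc e c, w0 x ≤ 0
  pos : ∀ x ∈ Icc c (e + 2 * π), 0 ≤ w0 x
  mean : 0 ≤ ∫ x in (0:ℝ)..(2 * π), w0 x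

/-- static sign structure -/
structure TwoA (f : ℝ → ℝ) (l : ℝ) : Prop where
  per : Function.Periodic f (2 * π)
  l0 : 0 < l
  l1 : l < 2 * π
  neg : ∀ x ∈ Icc (-l) 0, f x ≤ 0
  pos : ∀ x ∈ Icc 0 (2 * π - l), 0 ≤ f x
  mean : 0 ≤ ∫ x in (0:ℝ)..(2 * π), f x

/-- the weight `(cot(ξ/2) - q)₊²/4` -/
noncomputable def Pq (q ξ : ℝ) : ℝ := max (ct ξ - q) 0 ^ 2 / 4

/-- derivative of `Pq q` -/
noncomputable def dPq (q ξ : ℝ) : ℝ := -(max (ct ξ - q) 0 * (1 + ct ξ ^ 2) / 4)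

/-- conditions on the function `q` -/
structure QF (q dq : ℝ → ℝ) : Prop where
  nn : ∀ l, 0 < l → l < 2 * π → 0 ≤ q l
  der : ∀ l, 0 < l → l < 2 * π → HasDerivAt q (dq l) l
  cont : ContinuousOn dq (Ioo 0 (2 * π))

/-- the choice of the notes 1977 and 1990: `k (1/sin(l/2) - 1)₊` for `l < π` -/
noncomputable def qk (k l : ℝ) : ℝ := if l < π then k * (1 / Real.sin (l / 2) - 1) else 0

noncomputable def dqk (k l : ℝ) : ℝ :=
  if l < π then -(k * Real.cos (l / 2) / (2 * Real.sin (l / 2) ^ 2)) else 0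

/-- time derivative of `T` (`q = q(l)`, `dq = q'(l)`; the base point moves with the velocity) -/
noncomputable def TA (q dq : ℝ) (f : ℝ → ℝ) (l : ℝ) : ℝ :=
  ((∫ x in (0:ℝ)..(2 * π - l), f x * (2 * HT f x * Pq q x + UU f x * dPq q x)) +
    ∫ x in (-l)..0, -f x * (2 * HT f x * Pq 0 (-x) - UU f x * dPq 0 (-x))) +
  1 / 2 * dq * UU f (-l) * ∫ x in (0:ℝ)..(2 * π - l), f x * max (ct x - q) 0

/-- time derivative of the energy `∫ f'²/|f| + |f|/2` -/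
noncomputable def EA (f : ℝ → ℝ) (l : ℝ) : ℝ :=
  ((2 * ∫ x in (0:ℝ)..(2 * π - l), deriv f x * HT (deriv f) x) -
    2 * ∫ x in (-l)..0, deriv f x * HT (deriv f) x) +
    ((∫ x in (0:ℝ)..(2 * π - l), f x * HT f x) - ∫ x in (-l)..0, f x * HT f x)

/-- minus the time derivative of `∫_N |f| cot²₊/4`, base `e` -/
noncomputable def BNA (f : ℝ → ℝ) (l : ℝ) : ℝ :=
  ∫ x in (-l)..0, f x * (2 * HT f x * Pq 0 (x + l) + (UU f x - UU f (-l)) * dPq 0 (x + l))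

/-- minus the time derivative of `∫_P |f| cot²₊/4`, base `e` -/
noncomputable def BPA (f : ℝ → ℝ) (l : ℝ) : ℝ :=
  ∫ x in (0:ℝ)..(2 * π - l),
    -f x * (2 * HT f x * Pq 0 (2 * π - l - x) - (UU f x - UU f (-l)) * dPq 0 (2 * π - l - x))

/-- minus the time derivative of the total mass -/
noncomputable def BMA (f : ℝ → ℝ) (l : ℝ) : ℝ :=
  -2 * ((∫ x in (0:ℝ)..(2 * π - l), f x * HT f x) - ∫ x in (-l)..0, f x * HT f x)

/-- the static inequality -/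
def StatA : Prop :=
  ∃ (q dq : ℝ → ℝ) (κ K K' K'' C : ℝ), QF q dq ∧ 1 < κ ∧ 0 ≤ K ∧ 0 ≤ K' ∧ 0 ≤ K'' ∧ 0 ≤ C ∧
    ∀ (f : ℝ → ℝ) (l : ℝ), TwoA f l → ContDiff ℝ 2 f →
      κ * EA f l ≤ TA (q l) (dq l) f l + K * BNA f l + K' * BPA f l + K'' * BMA f l +
        C * (∫ x in (0:ℝ)..(2 * π), f x) * Ma f

end Pool.Agent.H90.DA
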