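import Pool.Agent.H90.DA.RIder
import Pool.Agent.H45.DY.EEid
import Pool.Agent.H45.DY.FFid
import Pool.Agent.H45.DY.MMid
import Pool.Agent.H45.DY.Mean
import Pool.Agent.H90.DC.HInt

/-!
# DA job A2: dynamics of class (A), derivative identities (adapted from DE/DynE.lean)
-/

set_option autoImplicit false
open Real Set MeasureTheory Filter Topology

namespace Pool.Agent.H90.DA
open Pool.Agent.H45.FL Pool.Agent.H51.DG Pool.Agent.H45.DY Pool.Agent.H90.DC

/-- the function with base point `c` -/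
noncomputable def fc (w : ℝ × ℝ → ℝ) (X : ℝ → ℝ → ℝ) (c t x : ℝ) : ℝ := w (t, X t c + x)

variable {w u : ℝ × ℝ → ℝ} {X : ℝ → ℝ → ℝ} {e c T : ℝ} {q dq : ℝ → ℝ}

theorem mean_fc (h : Dyn w u X e c T) (t : ℝ) (ht : t ∈ Icc 0 T) :
    ∫ x in (0:ℝ)..(2 * π), fc w X c t x = ∫ x in (0:ℝ)..(2 * π), w (0, x) := by
  have h1 := SC_shift (f := fun x => w (t, x)) (fun x => h.cs.per t x) (X t c)
  refine Eq.trans ?_ (h1.trans (mean_const h t ht))
  refine intervalIntegral.integral_congr fun x _ => ?_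
  show w (t, X t c + x) = w (t, x + X t c)
  rw [add_comm]

theorem twoA (h : Dyn w u X e c T) (t : ℝ) (ht : t ∈ Icc 0 T)
    (hm : 0 ≤ ∫ x in (0:ℝ)..(2 * π), w (0, x)) : TwoA (fc w X c t) (el X e c t) := by
  refine ⟨fun x => ?_, h.el_pos t, h.el_lt t, fun x hx => ?_, fun x hx => ?_, ?_⟩
  · show w (t, X t c + (x + 2 * π)) = w (t, X t c + x)
    rw [← add_assoc, h.cs.per]
  · refine h.sgn_R t _ ⟨?_, ?_⟩
    · have := hx.1
      unfold el at this
      linarith
    · linarith [hx.2]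
  · refine h.sgn_L t _ ⟨?_, ?_⟩
    · linarith [hx.1]
    · have := hx.2
      unfold el at this
      linarith
  · rw [mean_fc h t ht]
    exact hm

theorem sm_fc (h : Dyn w u X e c T) (t : ℝ) : ContDiff ℝ 2 (fc w X c t) := by
  have h1 : ContDiff ℝ ((⊤ : ℕ∞) : WithTop ℕ∞) (fc w X c t) :=
    h.cs.sm.comp (contDiff_const.prodMk (contDiff_const.add contDiff_id))
  exact_mod_cast contDiff_infty.1 h1 2

lemma DynA_HT (h : Dyn w u X e c T) (t : ℝ) (ht : t ∈ Icc 0 T) (x : ℝ) :
    HT (fc w X c t) x = px u (t, X t c + x) := by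
  rw [h.hu t ht]
  exact HTd_shift (fun y => w (t, y)) (X t c) x

lemma DynA_UU (h : Dyn w u X e c T) (t : ℝ) (ht : t ∈ Icc 0 T) (x : ℝ) :
    UU (fc w X c t) x = u (t, X t c + x) - u (t, X t c) := by
  unfold UU
  rw [intervalIntegral.integral_congr (fun y _ => DynA_HT h t ht y), HTd_ftc h]

lemma DynA_UUe (h : Dyn w u X e c T) (t : ℝ) (ht : t ∈ Icc 0 T) :
    UU (fc w X c t) (-el X e c t) = u (t, X t e) - u (t, X t c) := by
  rw [DynA_UU h t ht]
  unfold el
  rw [show X t c + -(X t c - X t e) = X t e by ring]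

lemma DynA_deriv (_h : Dyn w u X e c T) (t x : ℝ) :
    deriv (fc w X c t) x = px w (t, X t c + x) :=
  deriv_comp_const_add (f := fun y => w (t, y)) (X t c) x

lemma DynA_HTder (h : Dyn w u X e c T) (t : ℝ) (ht : t ∈ Icc 0 T) (x : ℝ) :
    HT (deriv (fc w X c t)) x = px (px u) (t, X t c + x) := by
  rw [pxx h t ht, ← HTd_shift (fun y => px w (t, y)) (X t c) x]
  have h1 : deriv (fc w X c t) = fun y => px w (t, X t c + y) := funext fun y => DynA_deriv h t y
  rw [h1]

/-- change of variables, base `c` -/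
lemma DynA_ch (h : Dyn w u X e c T) (t : ℝ) (ht : 0 ≤ t) {a b : ℝ} (hab : a ≤ b) (G : ℝ → ℝ) :
    ∫ x in (X t a - X t c)..(X t b - X t c), G x =
      ∫ α in Ioo a b, G (X t α - X t c) * Real.exp (lam u X t α) := by
  have hm := (Flow.mono h.cs.vel h.fl t).monotone hab
  have h1 := charc_gen h.cs h.fl t ht a b (-X t c) G
  simp only [← sub_eq_add_neg] at h1
  rw [← h1, intervalIntegral.integral_of_le (by linarith), integral_Ioc_eq_integral_Ioo]

lemma DynA_chN (h : Dyn w u X e c T) (t : ℝ) (ht : 0 ≤ t) (G : ℝ → ℝ) :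
    ∫ x in (-el X e c t)..0, G x =
      ∫ α in Ioo e c, G (X t α - X t c) * Real.exp (lam u X t α) := by
  have h1 := DynA_ch h t ht h.hec.le G
  rw [← h1, sub_self]
  unfold el
  rw [neg_sub]

lemma DynA_chP (h : Dyn w u X e c T) (t : ℝ) (ht : 0 ≤ t) (G : ℝ → ℝ) :
    ∫ x in (0:ℝ)..(2 * π - el X e c t), G x =
      ∫ α in Ioo c (e + 2 * π), G (X t α - X t c) * Real.exp (lam u X t α) := by
  have h1 := DynA_ch h t ht h.hce.le G
  rw [← h1, sub_self, Flow.per h.cs.vel h.fl]
  unfold el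
  rw [show 2 * π - (X t c - X t e) = X t e + 2 * π - X t c by ring]

lemma DynA_exp (a : ℝ) : Real.exp (2 * a) = Real.exp a * Real.exp a := by
  rw [two_mul, Real.exp_add]

lemma DynA_f (h : Dyn w u X e c T) (t α : ℝ) :
    fc w X c t (X t α - X t c) = w (0, α) * Real.exp (lam u X t α) := by
  unfold fc
  rw [add_sub_cancel, w_along h.cs h.fl]

lemma DynA_sN (h : Dyn w u X e c T) : ∀ α ∈ Ioo e c, |w (0, α)| = -w (0, α) := fun α hα =>
  abs_of_nonpos (h.neg α ⟨hα.1.le, hα.2.le⟩)

lemma DynA_sP (h : Dyn w u X e c T) : ∀ α ∈ Ioo c (e + 2 * π), |w (0, α)| = w (0, α) :=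
  fun α hα => abs_of_nonneg (h.pos α ⟨hα.1.le, hα.2.le⟩)

theorem Ma_fc (h : Dyn w u X e c T) (t : ℝ) (ht : t ∈ Icc 0 T) :
    Ma (fc w X c t) = MI w u X e c t + MI w u X c (e + 2 * π) t := by
  have hp : Function.Periodic (fun x => |fc w X c t x|) (2 * π) := by
    intro x
    show |w (t, X t c + (x + 2 * π))| = |w (t, X t c + x)|
    rw [← add_assoc, h.cs.per]
  have hcont : Continuous fun x => |fc w X c t x| := (sm_fc h t).continuous.abs
  have h1 := hp.intervalIntegral_add_eq (-el X e c t) 0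
  rw [zero_add] at h1
  have h2 : Ma (fc w X c t) = (∫ x in (-el X e c t)..0, |fc w X c t x|) +
      ∫ x in (0:ℝ)..(2 * π - el X e c t), |fc w X c t x| := by
    rw [intervalIntegral.integral_add_adjacent_intervals (hcont.intervalIntegrable _ _)
      (hcont.intervalIntegrable _ _)]
    unfold Ma
    rw [← h1]
    congr 1
    ring
  have h3 : ∀ α, |fc w X c t (X t α - X t c)| * Real.exp (lam u X t α) =
      |w (0, α)| * Real.exp (2 * lam u X t α) := by
    intro α
    rw [DynA_f h, abs_mul, abs_of_pos (Real.exp_pos _), DynA_exp]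
    ring
  rw [h2, DynA_chN h t ht.1, DynA_chP h t ht.1]
  simp only [h3]
  rfl

lemma DynA_ED (h : Dyn w u X e c T) (t : ℝ) (ht : t ∈ Icc 0 T) (α : ℝ) :
    2 * (px w (0, α) + w (0, α) * lma u X t α) *
      (px (px u) (t, X t α) * Real.exp (lam u X t α)) =
    2 * (deriv (fc w X c t) (X t α - X t c) * HT (deriv (fc w X c t)) (X t α - X t c) *
      Real.exp (lam u X t α)) := by
  rw [DynA_deriv h, DynA_HTder h t ht, add_sub_cancel, wx_along h.cs h.fl t α ht.1]
  ring

lemma DynA_MD (h : Dyn w u X e c T) (t : ℝ) (ht : t ∈ Icc 0 T) (α : ℝ) :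
    w (0, α) * Real.exp (2 * lam u X t α) * px u (t, X t α) =
    fc w X c t (X t α - X t c) * HT (fc w X c t) (X t α - X t c) *
      Real.exp (lam u X t α) := by
  rw [DynA_f h, DynA_HT h t ht, add_sub_cancel, DynA_exp]
  ring

lemma DynA_EDN (h : Dyn w u X e c T) (t : ℝ) (ht : t ∈ Icc 0 T) :
    ED w u X e c t = 2 * ∫ x in (-el X e c t)..0,
      deriv (fc w X c t) x * HT (deriv (fc w X c t)) x := by
  rw [DynA_chN h t ht.1, ← integral_const_mul]
  exact integral_congr_ae (Filter.Eventually.of_forall fun α => DynA_ED h t ht α)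

lemma DynA_EDP (h : Dyn w u X e c T) (t : ℝ) (ht : t ∈ Icc 0 T) :
    ED w u X c (e + 2 * π) t = 2 * ∫ x in (0:ℝ)..(2 * π - el X e c t),
      deriv (fc w X c t) x * HT (deriv (fc w X c t)) x := by
  rw [DynA_chP h t ht.1, ← integral_const_mul]
  exact integral_congr_ae (Filter.Eventually.of_forall fun α => DynA_ED h t ht α)

lemma DynA_MDN (h : Dyn w u X e c T) (t : ℝ) (ht : t ∈ Icc 0 T) :
    MD w u X e c t = -2 * ∫ x in (-el X e c t)..0, fc w X c t x * HT (fc w X c t) x := by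
  rw [DynA_chN h t ht.1, ← integral_const_mul]
  refine setIntegral_congr_fun measurableSet_Ioo fun α hα => ?_
  show 2 * (|w (0, α)| * Real.exp (2 * lam u X t α) * px u (t, X t α)) =
    -2 * (fc w X c t (X t α - X t c) * HT (fc w X c t) (X t α - X t c) *
      Real.exp (lam u X t α))
  rw [← DynA_MD h t ht, DynA_sN h α hα]
  ring

lemma DynA_MDP (h : Dyn w u X e c T) (t : ℝ) (ht : t ∈ Icc 0 T) :
    MD w u X c (e + 2 * π) t =
      2 * ∫ x in (0:ℝ)..(2 * π - el X e c t), fc w X c t x * HT (fc w X c t) x := by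
  rw [DynA_chP h t ht.1, ← integral_const_mul]
  refine setIntegral_congr_fun measurableSet_Ioo fun α hα => ?_
  show 2 * (|w (0, α)| * Real.exp (2 * lam u X t α) * px u (t, X t α)) =
    2 * (fc w X c t (X t α - X t c) * HT (fc w X c t) (X t α - X t c) *
      Real.exp (lam u X t α))
  rw [← DynA_MD h t ht, DynA_sP h α hα]

theorem EA_eq (h : Dyn w u X e c T) (t : ℝ) (ht : t ∈ Icc 0 T) :
    ED w u X c (e + 2 * π) t - ED w u X e c t +
      1 / 2 * (MD w u X e c t + MD w u X c (e + 2 * π) t) = EA (fc w X c t) (el X e c t) := by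
  rw [DynA_EDN h t ht, DynA_EDP h t ht, DynA_MDN h t ht, DynA_MDP h t ht]
  unfold EA
  ring

theorem BMA_eq (h : Dyn w u X e c T) (t : ℝ) (ht : t ∈ Icc 0 T) :
    MD w u X e c t + MD w u X c (e + 2 * π) t = -BMA (fc w X c t) (el X e c t) := by
  rw [DynA_MDN h t ht, DynA_MDP h t ht]
  unfold BMA
  ring

/-- integrability of the `MD` integrand -/
lemma DynA_MDint (h : Dyn w u X e c T) (t a b : ℝ) : IntegrableOn
    (fun α => 2 * (|w (0, α)| * Real.exp (2 * lam u X t α) * px u (t, X t α))) (Ioo a b) :=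
  MMid_int (continuous_const.mul ((MMid_cont h t).mul (MMid_contU h t))) a b

lemma DynA_ph {ξ : ℝ} (h0 : 0 < ξ) (h1 : ξ < 2 * π) :
    ph ξ = Pq 0 ξ + 1 / 4 ∧ dph ξ = dPq 0 ξ := by
  have hs : 0 < Real.sin (ξ / 2) := Real.sin_pos_of_pos_of_lt_pi (by linarith) (by linarith)
  have h4 := Real.sin_sq_add_cos_sq (ξ / 2)
  unfold ph dph Pq dPq
  rcases le_or_gt ξ π with hξ | hξ
  · have hc : 0 ≤ ct ξ := div_nonneg (Real.cos_nonneg_of_neg_pi_div_two_le_of_le
      (by linarith [Real.pi_pos]) (by linarith)) hs.le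
    rw [if_pos hξ, if_pos hξ, sub_zero, max_eq_left hc]
    unfold ct
    constructor
    · field_simp
      linarith
    · field_simp
      linear_combination Real.cos (ξ / 2) * h4
  · have hc : ct ξ ≤ 0 := by
      refine div_nonpos_of_nonpos_of_nonneg ?_ hs.le
      exact Real.cos_nonpos_of_pi_div_two_le_of_le (by linarith) (by linarith [Real.pi_pos])
    rw [if_neg (not_le.2 hξ), if_neg (not_le.2 hξ), sub_zero, max_eq_right hc]
    norm_num

/-- `JD - MD/4` over the N arc -/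
lemma DynA_JN (h : Dyn w u X e c T) (t : ℝ) (ht : t ∈ Icc 0 T) (z : ℝ) (ha : Arc w z e c)
    (F : ℝ → ℝ)
    (hF : ∀ α ∈ Ioo e c, |w (0, α)| * gd u X z t α -
      1 / 4 * (2 * (|w (0, α)| * Real.exp (2 * lam u X t α) * px u (t, X t α))) =
        F (X t α - X t c) * Real.exp (lam u X t α)) :
    JD w u X z e c t - 1 / 4 * MD w u X e c t = ∫ x in (-el X e c t)..0, F x := by
  rw [DynA_chN h t ht.1]
  unfold JD MD
  rw [← integral_const_mul, ← integral_sub (JD_integrable h.cs h.fl ha t)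
    ((DynA_MDint h t e c).const_mul (1 / 4))]
  exact setIntegral_congr_fun measurableSet_Ioo fun α hα => hF α hα

/-- `JD - MD/4` over the P arc -/
lemma DynA_JP (h : Dyn w u X e c T) (t : ℝ) (ht : t ∈ Icc 0 T) (z : ℝ)
    (ha : Arc w z c (e + 2 * π)) (F : ℝ → ℝ)
    (hF : ∀ α ∈ Ioo c (e + 2 * π), |w (0, α)| * gd u X z t α -
      1 / 4 * (2 * (|w (0, α)| * Real.exp (2 * lam u X t α) * px u (t, X t α))) =
        F (X t α - X t c) * Real.exp (lam u X t α)) :
    JD w u X z c (e + 2 * π) t - 1 / 4 * MD w u X c (e + 2 * π) t =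
      ∫ x in (0:ℝ)..(2 * π - el X e c t), F x := by
  rw [DynA_chP h t ht.1]
  unfold JD MD
  rw [← integral_const_mul, ← integral_sub (JD_integrable h.cs h.fl ha t)
    ((DynA_MDint h t c (e + 2 * π)).const_mul (1 / 4))]
  exact setIntegral_congr_fun measurableSet_Ioo fun α hα => hF α hα

theorem BNA_eq (h : Dyn w u X e c T) (t : ℝ) (ht : t ∈ Icc 0 T) :
    JD w u X e e c t - 1 / 4 * MD w u X e c t = -BNA (fc w X c t) (el X e c t) := by
  have hm := Flow.mono h.cs.vel h.fl t
  unfold BNA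
  rw [← intervalIntegral.integral_neg]
  refine DynA_JN h t ht e h.arc_e_R _ (fun α hα => ?_)
  have hx0 : 0 < X t α - X t e := sub_pos.2 (hm hα.1)
  have hx1 : X t α - X t e < 2 * π := by
    have h2 := hm hα.2
    have h3 := h.el_lt t
    unfold el at h3
    linarith
  have e1 : X t α - X t c + el X e c t = X t α - X t e := by
    unfold el
    ring
  have hp := DynA_ph hx0 hx1
  rw [e1, DynA_f h, DynA_HT h t ht, DynA_UU h t ht, DynA_UUe h t ht, add_sub_cancel]
  unfold gd
  rw [abs_of_pos hx0, if_pos hα.1, DynA_sN h α hα, hp.1, hp.2, DynA_exp]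
  ring

theorem BPA_eq (h : Dyn w u X e c T) (t : ℝ) (ht : t ∈ Icc 0 T) :
    JD w u X (e + 2 * π) c (e + 2 * π) t - 1 / 4 * MD w u X c (e + 2 * π) t =
      -BPA (fc w X c t) (el X e c t) := by
  have hm := Flow.mono h.cs.vel h.fl t
  unfold BPA
  rw [← intervalIntegral.integral_neg]
  refine DynA_JP h t ht (e + 2 * π) h.arc_e_L _ (fun α hα => ?_)
  have hper := Flow.per h.cs.vel h.fl t e
  have hx0 : 0 < X t e + 2 * π - X t α := by
    have h2 := hm hα.2
    rw [hper] at h2
    linarith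
  have hx1 : X t e + 2 * π - X t α < 2 * π := by
    have h2 := hm hα.1
    have h3 := h.el_pos t
    unfold el at h3
    linarith
  have e1 : 2 * π - el X e c t - (X t α - X t c) = X t e + 2 * π - X t α := by
    unfold el
    ring
  have e2 : |X t α - X t (e + 2 * π)| = X t e + 2 * π - X t α := by
    rw [abs_sub_comm, hper, abs_of_pos hx0]
  have e3 : u (t, X t (e + 2 * π)) = u (t, X t e) := by
    rw [hper, h.cs.vel.per]
  have hp := DynA_ph hx0 hx1
  rw [e1, DynA_f h, DynA_HT h t ht, DynA_UU h t ht, DynA_UUe h t ht, add_sub_cancel]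
  unfold gd
  rw [e2, if_neg (not_lt.2 hα.2.le), DynA_sP h α hα, e3, hp.1, hp.2, DynA_exp]
  ring

lemma DynA_TN (h : Dyn w u X e c T) (t : ℝ) (ht : t ∈ Icc 0 T) :
    JD w u X c e c t - 1 / 4 * MD w u X e c t =
      ∫ x in (-el X e c t)..0, -fc w X c t x *
        (2 * HT (fc w X c t) x * Pq 0 (-x) - UU (fc w X c t) x * dPq 0 (-x)) := by
  have hm := Flow.mono h.cs.vel h.fl t
  refine DynA_JN h t ht c h.arc_c_R _ (fun α hα => ?_)
  have hx0 : 0 < -(X t α - X t c) := by linarith [hm hα.2]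
  have hx1 : -(X t α - X t c) < 2 * π := by
    have h2 := hm hα.1
    have h3 := h.el_lt t
    unfold el at h3
    linarith
  have e2 : |X t α - X t c| = -(X t α - X t c) := abs_of_neg (by linarith)
  have hp := DynA_ph hx0 hx1
  rw [DynA_f h, DynA_HT h t ht, DynA_UU h t ht, add_sub_cancel]
  unfold gd
  rw [e2, if_neg (not_lt.2 hα.2.le), DynA_sN h α hα, hp.1, hp.2, DynA_exp]
  ring

lemma DynA_F2 (h : Dyn w u X e c T) (t r : ℝ) (hr : 0 ≤ r) :
    IntegrableOn (fun x => fc w X c t x * max (ct x - r) 0) (Ioo 0 (2 * π - el X e c t)) := by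
  obtain ⟨K, hK⟩ := h.lip_Wc t
  have hK0 : 0 ≤ K := by
    have h1 := hK 1 0
    rw [sub_zero, abs_one, mul_one] at h1
    exact (abs_nonneg _).trans h1
  have hco : ContinuousOn (fun x => fc w X c t x * max (ct x - r) 0)
      (Ioo 0 (2 * π - el X e c t)) := by
    refine (sm_fc h t).continuous.continuousOn.mul ?_
    refine ContinuousOn.sup (ContinuousOn.sub (fun x hx => ?_) continuousOn_const) continuousOn_const
    exact (HInt_ct_hd hx.1 (by linarith [hx.2, h.el_pos t])).continuousAt.continuousWithinAt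
  have hfin : IntegrableOn (fun _ : ℝ => 2 * K) (Ioo 0 (2 * π - el X e c t)) :=
    integrableOn_const (by simp)
  refine Integrable.mono' hfin (hco.aestronglyMeasurable measurableSet_Ioo) ?_
  refine (ae_restrict_iff' measurableSet_Ioo).2 (Filter.Eventually.of_forall fun x hx => ?_)
  have hx0 := hx.1
  have h1 : |fc w X c t x| ≤ K * x := by
    have h2 := hK x 0
    unfold Wc at h2
    rw [add_zero, h.wzero_c, neg_zero, sub_zero, abs_neg, sub_zero, abs_of_pos hx0] at h2
    exact h2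
  have h3 : max (ct x - r) 0 ≤ 2 / x := by
    refine max_le ?_ (by positivity)
    rcases lt_or_ge x π with h4 | h4
    · linarith [HInt_ct_le hx0 h4]
    · have hs : 0 < Real.sin (x / 2) := Real.sin_pos_of_pos_of_lt_pi (by linarith)
        (by linarith [hx.2, h.el_pos t])
      have hc : ct x ≤ 0 := by
        refine div_nonpos_of_nonpos_of_nonneg ?_ hs.le
        exact Real.cos_nonpos_of_pi_div_two_le_of_le (by linarith)
          (by linarith [hx.2, h.el_pos t, Real.pi_pos])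
      have : 0 < 2 / x := by positivity
      linarith
  rw [Real.norm_eq_abs, abs_mul, abs_of_nonneg (le_max_right (ct x - r) 0)]
  have h5 := mul_le_mul h1 h3 (le_max_right _ _) (by positivity)
  refine h5.trans (le_of_eq ?_)
  field_simp

theorem TA_eq (h : Dyn w u X e c T) (hq : QF q dq) (t : ℝ) (ht : t ∈ Icc 0 T) :
    (JD w u X c e c t - 1 / 4 * MD w u X e c t) +
      (JD w u X c c (e + 2 * π) t - 1 / 4 * MD w u X c (e + 2 * π) t - RD w u X q dq e c t) =
      TA (q (el X e c t)) (dq (el X e c t)) (fc w X c t) (el X e c t) := by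
  have hm := Flow.mono h.cs.vel h.fl t
  have hr := hq.nn _ (h.el_pos t) (h.el_lt t)
  obtain ⟨r, hrd⟩ : ∃ r, r = q (el X e c t) := ⟨_, rfl⟩
  obtain ⟨d, hdd⟩ : ∃ d, d = 1 / 2 * dq (el X e c t) * UU (fc w X c t) (-el X e c t) := ⟨_, rfl⟩
  rw [← hrd] at hr
  have hF2 := DynA_F2 h t r hr
  obtain ⟨F1, hF1⟩ : ∃ F1 : ℝ → ℝ, F1 = fun x => fc w X c t x *
    (2 * HT (fc w X c t) x * Pq r x + UU (fc w X c t) x * dPq r x) := ⟨_, rfl⟩
  obtain ⟨F2, hF2d⟩ : ∃ F2 : ℝ → ℝ, F2 = fun x => fc w X c t x * max (ct x - r) 0 := ⟨_, rfl⟩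
  rw [← hF2d] at hF2
  have hpt : ∀ α ∈ Ioo c (e + 2 * π), |w (0, α)| * gd u X c t α -
      1 / 4 * (2 * (|w (0, α)| * Real.exp (2 * lam u X t α) * px u (t, X t α))) -
      |w (0, α)| * rd u X q dq e c t α =
      (fun x => F1 x + d * F2 x) (X t α - X t c) * Real.exp (lam u X t α) := by
    intro α hα
    have hx0 : 0 < X t α - X t c := by linarith [hm hα.1]
    have hx1 : X t α - X t c < 2 * π := by
      have h2 := hm hα.2
      have h3 := h.el_pos t
      rw [Flow.per h.cs.vel h.fl] at h2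
      unfold el at h3
      linarith
    have hp := DynA_ph hx0 hx1
    rw [hF1, hF2d, hdd]
    simp only
    rw [DynA_f h, DynA_HT h t ht, DynA_UU h t ht, DynA_UUe h t ht, add_sub_cancel]
    unfold gd rd Rq
    rw [abs_of_pos hx0, if_pos hα.1, DynA_sP h α hα, hp.1, hp.2, DynA_exp, ← hrd]
    ring
  have hi1 := JD_integrable h.cs h.fl h.arc_c_L t
  have hi2 := (DynA_MDint h t c (e + 2 * π)).const_mul (1 / 4)
  have hi3 := RD_integrable h hq t
  have hL : IntegrableOn (fun α => (fun x => F1 x + d * F2 x) (X t α - X t c) *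
      Real.exp (lam u X t α)) (Ioo c (e + 2 * π)) :=
    ((hi1.sub hi2).sub hi3).congr_fun hpt measurableSet_Ioo
  have hG : IntegrableOn (fun x => F1 x + d * F2 x) (Ioo 0 (2 * π - el X e c t)) := by
    have h1 := (charc_gen_int h.cs h.fl t ht.1 c (e + 2 * π) (-X t c)
      (fun x => F1 x + d * F2 x)).2
    simp only [← sub_eq_add_neg] at h1
    have e1 : X t (e + 2 * π) - X t c = 2 * π - el X e c t := by
      rw [Flow.per h.cs.vel h.fl]
      unfold el
      ring
    rw [sub_self, e1] at h1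
    exact h1 hL
  have hF1i : IntegrableOn F1 (Ioo 0 (2 * π - el X e c t)) := by
    have h1 := hG.sub (hF2.const_mul d)
    refine h1.congr_fun (fun x _ => ?_) measurableSet_Ioo
    simp
  have hP : JD w u X c c (e + 2 * π) t - 1 / 4 * MD w u X c (e + 2 * π) t -
      RD w u X q dq e c t = (∫ x in (0:ℝ)..(2 * π - el X e c t), F1 x) +
        d * ∫ x in (0:ℝ)..(2 * π - el X e c t), F2 x := by
    have hle : (0:ℝ) ≤ 2 * π - el X e c t := by linarith [h.el_lt t]
    rw [← intervalIntegral.integral_const_mul, ← intervalIntegral.integral_add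
      ((intervalIntegrable_iff_integrableOn_Ioo_of_le hle).2 hF1i)
      (((intervalIntegrable_iff_integrableOn_Ioo_of_le hle).2 hF2).const_mul d),
      DynA_chP h t ht.1]
    have e1 : JD w u X c c (e + 2 * π) t - 1 / 4 * MD w u X c (e + 2 * π) t -
        RD w u X q dq e c t = ∫ α in Ioo c (e + 2 * π), (|w (0, α)| * gd u X c t α -
      1 / 4 * (2 * (|w (0, α)| * Real.exp (2 * lam u X t α) * px u (t, X t α))) -
      |w (0, α)| * rd u X q dq e c t α) := by
      have k1 := integral_sub (hi1.sub hi2) hi3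
      have k2 := integral_sub hi1 hi2
      simp only [Pi.sub_apply] at k1
      rw [k1, k2, integral_const_mul]
      rfl
    rw [e1]
    exact setIntegral_congr_fun measurableSet_Ioo hpt
  rw [DynA_TN h t ht, hP, hF1, hF2d, hdd, hrd]
  unfold TA
  ring

end Pool.Agent.H90.DA
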