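import Pool.Agent.H90.DA.Defs
import Pool.Agent.H90.DC.HInt
import Pool.Agent.H90.DE.HarE

/-!
# DA job A3: the Hardy inequality on arcs of length up to `2π`, base `c` (from `DC.hardy_int` by scaling)

* `hardy2` (abstract): apply `hardy_int` to `w̃ β = w0 (2β)`, length `p/2 < π`, `L̃ β = L (2β)`, `L̃' β = 2 L' (2β)`,
  `X̃ β = Xf (2β) / 2` (`X̃' = exp (L (2β))`, `X̃ (p/2) = Xf p / 2 < π`).  With `α = 2β`:
  `∫ w0 (e^{2L} ph(Xf/2) - ph(α/2)) / 2 ≤ 2 ∫ (w0 L'² + 2 w0' L') + C (1+Λ)` over `(0,p)`.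
  For `0 < x < 2π`: `Pq 0 x ≤ ph (x/2) / 4` and `ph (x/2) / 4 - Pq 0 x ∈ [0, 1/4]` (`s = cot(x/4) > 0`,
  `cot(x/2) = (s² - 1)/(2s)`, `ph (x/2) = (1+s²)/4`; `x < π`: the difference is `(3 - 1/s²)/16`, `s ≥ 1`; `x ≥ π`: `Pq 0 x = 0`
  and `(1+s²)/16`, `s ≤ 1`).  So `e^{2L} Pq 0 Xf - Pq 0 α ≤ (e^{2L} ph(Xf/2) - ph(α/2))/4 + 1/4`.
  Integrability: the difference of the two integrands is bounded and measurable.
* `ph x = Pq 0 x + 1/4` for `0 < x < 2π` (`x ≥ π`: `ph = 1/4`, `ct x ≤ 0`).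
* `hardyNA`, `hardyPA`: substitutions as in DE/HarE.lean (`HarE_N`, `HarE_P`), base `c`: N: `α = c - ξ`, `0 < ξ < c - e`;
  P: `α = c + ξ`, `0 < ξ < e + 2π - c`; arcs `h.arc_c_R`, `h.arc_c_L` (`Arc w c e c`, `Arc w c c (e+2π)`, H45/DY/Sgn.lean),
  `X t c - X t e < 2π` (`el_lt`), `X t (e+2π) - X t c = 2π - el < 2π` (`Flow.per`, `el_pos`).
  `JI w u X c e c t - 1/4 * MI w u X e c t + 1/4 ∫_{(e,c)} |w0| = ∫ v (e^{2L} Pq 0 Xf - Pq 0 ξ)`.
-/

set_option autoImplicit false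
open Real Set MeasureTheory Filter Topology

namespace Pool.Agent.H90.DA
open Pool.Agent.H45.FL Pool.Agent.H51.DG Pool.Agent.H45.DY Pool.Agent.H90.DC

lemma HarA_half {x : ℝ} (h0 : 0 < x) (h1 : x < 2 * π) :
    0 ≤ ph (x / 2) - 4 * Pq 0 x ∧ ph (x / 2) - 4 * Pq 0 x ≤ 1 := by
  have hs : 0 < Real.sin (x / 4) := Real.sin_pos_of_pos_of_lt_pi (by linarith) (by linarith [Real.pi_pos])
  have hc : 0 < Real.cos (x / 4) := Real.cos_pos_of_mem_Ioo ⟨by linarith [Real.pi_pos], by linarith⟩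
  have e1 : Real.sin (x / 2) = 2 * Real.sin (x / 4) * Real.cos (x / 4) := by
    rw [← Real.sin_two_mul]; congr 1; ring
  have e2 : Real.cos (x / 2) = 1 - 2 * Real.sin (x / 4) ^ 2 := by
    have h2 := Real.cos_two_mul' (x / 4)
    have h3 := Real.sin_sq_add_cos_sq (x / 4)
    rw [show 2 * (x / 4) = x / 2 by ring] at h2
    rw [h2]; linarith
  have e3 : Real.cos (x / 4) ^ 2 = 1 - Real.sin (x / 4) ^ 2 := by
    have h3 := Real.sin_sq_add_cos_sq (x / 4)
    linarith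
  have e4 : ph (x / 2) = 1 / (4 * Real.sin (x / 4) ^ 2) := by
    unfold ph
    rw [if_pos (by linarith), show x / 2 / 2 = x / 4 by ring]
  have e5 : Pq 0 x = max (Real.cos (x / 2) / Real.sin (x / 2)) 0 ^ 2 / 4 := by
    unfold Pq ct
    rw [sub_zero]
  have hs2 : 0 < Real.sin (x / 4) ^ 2 := by positivity
  have hc2 : 0 < Real.cos (x / 4) ^ 2 := by positivity
  have hS : 0 < Real.sin (x / 2) := by rw [e1]; positivity
  rw [e4, e5]
  rcases le_total 0 (Real.cos (x / 2)) with h | h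
  · rw [max_eq_left (div_nonneg h hS.le), div_pow]
    have e6 : 1 / (4 * Real.sin (x / 4) ^ 2) -
        4 * (Real.cos (x / 2) ^ 2 / Real.sin (x / 2) ^ 2 / 4) =
        (3 - 4 * Real.sin (x / 4) ^ 2) / (4 * Real.cos (x / 4) ^ 2) := by
      rw [e1, e2]
      field_simp
      rw [e3]
      ring
    rw [e6]
    constructor
    · apply div_nonneg _ (by positivity)
      rw [e2] at h
      linarith
    · rw [div_le_one (by positivity)]
      linarith
  · rw [max_eq_right (div_nonpos_of_nonpos_of_nonneg h hS.le)]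
    have h5 : 1 / (4 * Real.sin (x / 4) ^ 2) ≤ 1 := by
      rw [div_le_one (by positivity)]
      rw [e2] at h
      linarith
    have h6 : 0 < 1 / (4 * Real.sin (x / 4) ^ 2) := by positivity
    norm_num
    constructor
    · positivity
    · simpa using h5

lemma HarA_quarter {x : ℝ} (h0 : 0 < x) (h1 : x < 2 * π) : ph x = Pq 0 x + 1 / 4 := by
  have hs : 0 < Real.sin (x / 2) :=
    Real.sin_pos_of_pos_of_lt_pi (by linarith) (by linarith)
  unfold ph Pq ct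
  rw [sub_zero]
  split_ifs with h
  · have hc : 0 ≤ Real.cos (x / 2) :=
      Real.cos_nonneg_of_mem_Icc ⟨by linarith [Real.pi_pos], by linarith⟩
    rw [max_eq_left (div_nonneg hc hs.le), div_pow]
    have h3 := Real.sin_sq_add_cos_sq (x / 2)
    field_simp
    linarith
  · push Not at h
    have hc : Real.cos (x / 2) ≤ 0 :=
      Real.cos_nonpos_of_pi_div_two_le_of_le (by linarith) (by linarith)
    rw [max_eq_right (div_nonpos_of_nonpos_of_nonneg hc hs.le)]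
    norm_num

lemma HarA_ph_meas : Measurable ph := by
  unfold ph
  refine Measurable.ite measurableSet_Iic ?_ measurable_const
  exact measurable_const.div ((Real.measurable_sin.comp (measurable_id.div_const 2)).pow_const 2
    |>.const_mul 4)

lemma HarA_Pq_meas : Measurable (Pq 0) := by
  unfold Pq ct
  exact (((((Real.measurable_cos.comp (measurable_id.div_const 2)).div
    (Real.measurable_sin.comp (measurable_id.div_const 2))).sub_const 0).max
      measurable_const).pow_const 2).div_const 4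

lemma HarA_scale (f : ℝ → ℝ) {p : ℝ} (hp : 0 ≤ p) :
    ∫ β in Ioo (0:ℝ) (p / 2), f (2 * β) = 1 / 2 * ∫ α in Ioo (0:ℝ) p, f α := by
  rw [← integral_Ioc_eq_integral_Ioo, ← integral_Ioc_eq_integral_Ioo,
    ← intervalIntegral.integral_of_le (by linarith), ← intervalIntegral.integral_of_le hp,
    intervalIntegral.integral_comp_mul_left f two_ne_zero, mul_zero,
    show 2 * (p / 2) = p by ring, smul_eq_mul]
  ring

lemma HarA_scale_int {f : ℝ → ℝ} {p : ℝ} (hp : 0 ≤ p) (hf : IntegrableOn f (Ioo 0 p)) :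
    IntegrableOn (fun β => f (2 * β)) (Ioo 0 (p / 2)) := by
  have h1 : IntervalIntegrable f volume 0 p :=
    (intervalIntegrable_iff_integrableOn_Ioo_of_le hp).2 hf
  have h2 := h1.comp_mul_left (c := 2)
  rw [zero_div] at h2
  exact (intervalIntegrable_iff_integrableOn_Ioo_of_le (by linarith)).1 h2

theorem hardy2 {w0 : ℝ → ℝ} {p : ℝ} (hp : 0 < p) (hp1 : p < 2 * π) (hs : ContDiff ℝ 2 w0)
    (h0 : w0 0 = 0) (hpz : w0 p = 0) (hpos : ∀ x ∈ Icc (0:ℝ) p, 0 ≤ w0 x) :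
    ∃ C : ℝ, 0 ≤ C ∧ ∀ (L L' Xf : ℝ → ℝ) (Λ : ℝ), (∀ α, HasDerivAt L (L' α) α) →
      Continuous L' → (∀ α, HasDerivAt Xf (Real.exp (L α)) α) → Xf 0 = 0 → Xf p < 2 * π →
      (∀ α ∈ Icc (0:ℝ) p, |L α| ≤ Λ) →
      IntegrableOn (fun α => w0 α * (Real.exp (2 * L α) * Pq 0 (Xf α) - Pq 0 α)) (Ioo 0 p) →
      ∫ α in Ioo (0:ℝ) p, w0 α * (Real.exp (2 * L α) * Pq 0 (Xf α) - Pq 0 α) ≤
        (∫ α in Ioo (0:ℝ) p, (w0 α * L' α ^ 2 + 2 * deriv w0 α * L' α)) + C * (1 + Λ) := by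
  have hw1 : Differentiable ℝ w0 := hs.differentiable (by norm_num)
  have hwc : Continuous w0 := hs.continuous
  obtain ⟨C, hC, H⟩ := hardy_int (w0 := fun β => w0 (2 * β)) (p := p / 2)
    (by linarith) (by linarith) (hs.comp (contDiff_const.mul contDiff_id))
    (by simp [h0]) (by rw [show 2 * (p / 2) = p by ring]; exact hpz)
    (fun x hx => hpos (2 * x) ⟨by linarith [hx.1], by linarith [hx.2]⟩)
  have hI0 : 0 ≤ ∫ α in Ioo (0:ℝ) p, w0 α :=
    setIntegral_nonneg measurableSet_Ioo fun x hx => hpos x ⟨hx.1.le, hx.2.le⟩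
  refine ⟨C / 2 + 1 / 4 * ∫ α in Ioo (0:ℝ) p, w0 α, by positivity, ?_⟩
  intro L L' Xf Λ hL hL' hX hX0 hXp hΛ hint
  have hΛ0 : 0 ≤ Λ := (abs_nonneg _).trans (hΛ 0 ⟨le_rfl, hp.le⟩)
  have hmono : StrictMono Xf := strictMono_of_deriv_pos fun x => by
    rw [(hX x).deriv]; exact Real.exp_pos _
  have hXr : ∀ α ∈ Ioo (0:ℝ) p, 0 < Xf α ∧ Xf α < 2 * π := by
    intro α hα
    constructor
    · rw [← hX0]; exact hmono hα.1
    · exact (hmono hα.2).trans hXp
  have hLc : Continuous L := continuous_iff_continuousAt.2 fun x => (hL x).continuousAt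
  have hXc : Continuous Xf := continuous_iff_continuousAt.2 fun x => (hX x).continuousAt
  obtain ⟨D, hD⟩ : ∃ D : ℝ → ℝ, D = fun α => w0 α * (Real.exp (2 * L α) *
    (ph (Xf α / 2) - 4 * Pq 0 (Xf α)) - (ph (α / 2) - 4 * Pq 0 α)) := ⟨_, rfl⟩
  have hDm : Measurable D := by
    rw [hD]
    refine hwc.measurable.mul (((Real.measurable_exp.comp (hLc.measurable.const_mul 2)).mul
      ((HarA_ph_meas.comp (hXc.measurable.div_const 2)).sub
        ((HarA_Pq_meas.comp hXc.measurable).const_mul 4))).sub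
      ((HarA_ph_meas.comp (measurable_id.div_const 2)).sub (HarA_Pq_meas.const_mul 4)))
  obtain ⟨M, hM⟩ : ∃ M : ℝ, ∀ x ∈ Icc (0:ℝ) p, ‖w0 x‖ ≤ M :=
    isCompact_Icc.exists_bound_of_continuousOn hwc.continuousOn
  have hM0 : 0 ≤ M := (norm_nonneg _).trans (hM 0 ⟨le_rfl, hp.le⟩)
  have hDi : IntegrableOn D (Ioo 0 p) := by
    refine Measure.integrableOn_of_bounded (M := M * (Real.exp (2 * Λ) + 1)) (by simp)
      hDm.aestronglyMeasurable ?_
    refine (ae_restrict_iff' measurableSet_Ioo).2 (Filter.Eventually.of_forall fun α hα => ?_)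
    rw [hD]
    simp only
    rw [norm_mul]
    refine mul_le_mul (hM α ⟨hα.1.le, hα.2.le⟩) ?_ (norm_nonneg _) hM0
    obtain ⟨a1, a2⟩ := HarA_half (hXr α hα).1 (hXr α hα).2
    obtain ⟨b1, b2⟩ := HarA_half hα.1 (hα.2.trans hp1)
    have h3 : Real.exp (2 * L α) ≤ Real.exp (2 * Λ) :=
      Real.exp_le_exp.2 (by linarith [(abs_le.1 (hΛ α ⟨hα.1.le, hα.2.le⟩)).2])
    have h4 : Real.exp (2 * L α) * (ph (Xf α / 2) - 4 * Pq 0 (Xf α)) ≤ Real.exp (2 * Λ) * 1 :=
      mul_le_mul h3 a2 a1 (Real.exp_pos _).le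
    have h5 : 0 ≤ Real.exp (2 * L α) * (ph (Xf α / 2) - 4 * Pq 0 (Xf α)) :=
      mul_nonneg (Real.exp_pos _).le a1
    rw [Real.norm_eq_abs, abs_le]
    constructor <;> linarith [Real.exp_pos (2 * Λ)]
  have hG : IntegrableOn (fun α => w0 α * (Real.exp (2 * L α) * ph (Xf α / 2) - ph (α / 2)))
      (Ioo 0 p) := by
    have h1 : IntegrableOn (fun α => 4 * (w0 α * (Real.exp (2 * L α) * Pq 0 (Xf α) - Pq 0 α)) +
        D α) (Ioo 0 p) := (hint.const_mul 4).add hDi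
    refine h1.congr_fun (fun α _ => ?_) measurableSet_Ioo
    simp only [hD]
    ring
  have hd2 : ∀ β, HasDerivAt (fun y : ℝ => 2 * y) 2 β := fun β => by
    simpa using (hasDerivAt_id β).const_mul 2
  have K := H (fun β => L (2 * β)) (fun β => 2 * L' (2 * β)) (fun β => Xf (2 * β) / 2) Λ
    (fun β => by
      have h3 := (hL (2 * β)).comp β (hd2 β)
      rw [mul_comm] at h3
      exact h3)
    (continuous_const.mul (hL'.comp (continuous_const.mul continuous_id)))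
    (fun β => by
      have h3 := ((hX (2 * β)).comp β (hd2 β)).div_const 2
      rw [mul_div_assoc, div_self two_ne_zero, mul_one] at h3
      exact h3)
    (by simp [hX0])
    (by
      rw [show 2 * (p / 2) = p by ring]
      linarith)
    (fun β hβ => hΛ (2 * β) ⟨by linarith [hβ.1], by linarith [hβ.2]⟩)
    (by
      refine (HarA_scale_int hp.le hG).congr_fun (fun β _ => ?_) measurableSet_Ioo
      simp only [mul_div_cancel_left₀ β (two_ne_zero (α := ℝ))])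
  have e1 : ∫ β in Ioo (0:ℝ) (p / 2), w0 (2 * β) * (Real.exp (2 * L (2 * β)) *
      ph (Xf (2 * β) / 2) - ph β) = 1 / 2 * ∫ α in Ioo (0:ℝ) p,
        w0 α * (Real.exp (2 * L α) * ph (Xf α / 2) - ph (α / 2)) := by
    rw [← HarA_scale _ hp.le]
    refine setIntegral_congr_fun measurableSet_Ioo fun β _ => ?_
    simp only [mul_div_cancel_left₀ β (two_ne_zero (α := ℝ))]
  have e2 : ∫ β in Ioo (0:ℝ) (p / 2), (w0 (2 * β) * (2 * L' (2 * β)) ^ 2 +
      2 * deriv (fun β => w0 (2 * β)) β * (2 * L' (2 * β))) = 2 * ∫ α in Ioo (0:ℝ) p,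
        (w0 α * L' α ^ 2 + 2 * deriv w0 α * L' α) := by
    have h3 := HarA_scale (fun α => 4 * (w0 α * L' α ^ 2 + 2 * deriv w0 α * L' α)) hp.le
    have h5 : ∫ α in Ioo (0:ℝ) p, 4 * (w0 α * L' α ^ 2 + 2 * deriv w0 α * L' α) =
      4 * ∫ α in Ioo (0:ℝ) p, (w0 α * L' α ^ 2 + 2 * deriv w0 α * L' α) :=
      integral_const_mul _ _
    have h6 : ∫ β in Ioo (0:ℝ) (p / 2), (w0 (2 * β) * (2 * L' (2 * β)) ^ 2 +
        2 * deriv (fun β => w0 (2 * β)) β * (2 * L' (2 * β))) =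
        ∫ β in Ioo (0:ℝ) (p / 2), 4 * (w0 (2 * β) * L' (2 * β) ^ 2 +
          2 * deriv w0 (2 * β) * L' (2 * β)) := by
      refine setIntegral_congr_fun measurableSet_Ioo fun β _ => ?_
      have h4 : deriv (fun β => w0 (2 * β)) β = deriv w0 (2 * β) * 2 :=
        ((hw1 (2 * β)).hasDerivAt.comp β (hd2 β)).deriv
      simp only [h4]
      ring
    rw [h6, h3, h5]
    ring
  rw [e1, e2] at K
  have e3 : ∫ α in Ioo (0:ℝ) p, w0 α * (Real.exp (2 * L α) * Pq 0 (Xf α) - Pq 0 α) =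
      1 / 4 * (∫ α in Ioo (0:ℝ) p, w0 α * (Real.exp (2 * L α) * ph (Xf α / 2) - ph (α / 2))) -
      1 / 4 * ∫ α in Ioo (0:ℝ) p, D α := by
    rw [← integral_const_mul, ← integral_const_mul, ← integral_sub (hG.const_mul _)
      (hDi.const_mul _)]
    refine setIntegral_congr_fun measurableSet_Ioo fun α _ => ?_
    simp only [hD]
    ring
  have hwi : IntegrableOn w0 (Ioo 0 p) :=
    (hwc.continuousOn.integrableOn_compact isCompact_Icc).mono_set Ioo_subset_Icc_self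
  have e4 : -(∫ α in Ioo (0:ℝ) p, w0 α) ≤ ∫ α in Ioo (0:ℝ) p, D α := by
    rw [← integral_neg]
    refine setIntegral_mono_on hwi.neg hDi measurableSet_Ioo fun α hα => ?_
    obtain ⟨a1, a2⟩ := HarA_half (hXr α hα).1 (hXr α hα).2
    obtain ⟨b1, b2⟩ := HarA_half hα.1 (hα.2.trans hp1)
    have h5 : 0 ≤ Real.exp (2 * L α) * (ph (Xf α / 2) - 4 * Pq 0 (Xf α)) :=
      mul_nonneg (Real.exp_pos _).le a1
    have h6 := hpos α ⟨hα.1.le, hα.2.le⟩
    simp only [hD]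
    nlinarith
  rw [e3]
  nlinarith [mul_nonneg hI0 hΛ0]


lemma HarA_F {w u : ℝ × ℝ → ℝ} {X : ℝ → ℝ → ℝ} {e c T : ℝ} {w0 : ℝ → ℝ}
    (h : Dyn w u X e c T) (hw : ∀ x, w (0, x) = w0 x) (hd : Differentiable ℝ w0) (t : ℝ)
    {p q : ℝ} (ha : Arc w c p q) :
    IntegrableOn (fun α => |w (0, α)| * (gI u X c t α - gI u X c 0 α) -
      1 / 4 * (|w (0, α)| * Real.exp (2 * lam u X t α)) + 1 / 4 * |w (0, α)|) (Ioo p q) ∧
    ∫ α in Ioo p q, (|w (0, α)| * (gI u X c t α - gI u X c 0 α) -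
      1 / 4 * (|w (0, α)| * Real.exp (2 * lam u X t α)) + 1 / 4 * |w (0, α)|) =
      JI w u X c p q t - 1 / 4 * MI w u X p q t + 1 / 4 * ∫ α in Ioo p q, |w (0, α)| := by
  have hwc : Continuous fun α : ℝ => |w (0, α)| := by
    have h1 : (fun α : ℝ => |w (0, α)|) = fun α => |w0 α| := funext fun α => by rw [hw]
    rw [h1]
    exact hd.continuous.abs
  have hlc : Continuous fun α : ℝ => lam u X t α :=
    (lam_cont h.cs.vel h.fl).comp (continuous_const.prodMk continuous_id)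
  have hm : Continuous fun α : ℝ => |w (0, α)| * Real.exp (2 * lam u X t α) :=
    hwc.mul (Real.continuous_exp.comp (continuous_const.mul hlc))
  have i1 := JI_integrable h.cs h.fl ha t
  have i2 : IntegrableOn (fun α : ℝ => |w (0, α)| * Real.exp (2 * lam u X t α)) (Ioo p q) :=
    (hm.continuousOn.integrableOn_compact isCompact_Icc).mono_set Ioo_subset_Icc_self
  have i3 : IntegrableOn (fun α : ℝ => |w (0, α)|) (Ioo p q) :=
    (hwc.continuousOn.integrableOn_compact isCompact_Icc).mono_set Ioo_subset_Icc_self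
  have i12 : IntegrableOn (fun α => |w (0, α)| * (gI u X c t α - gI u X c 0 α) -
      1 / 4 * (|w (0, α)| * Real.exp (2 * lam u X t α))) (Ioo p q) := i1.sub (i2.const_mul _)
  refine ⟨i12.add (i3.const_mul _), ?_⟩
  unfold JI MI
  rw [integral_add i12 (i3.const_mul _), integral_sub i1 (i2.const_mul _), integral_const_mul,
    integral_const_mul]

lemma HarA_N {w u : ℝ × ℝ → ℝ} {X : ℝ → ℝ → ℝ} {e c T : ℝ} {w0 : ℝ → ℝ}
    (h : Dyn w u X e c T) (hw : ∀ x, w (0, x) = w0 x) (hd : Differentiable ℝ w0) (t : ℝ) :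
    IntegrableOn (fun ξ => -w0 (c - ξ) * (Real.exp (2 * lam u X t (c - ξ)) *
      Pq 0 (X t c - X t (c - ξ)) - Pq 0 ξ)) (Ioo 0 (c - e)) ∧
    ∫ ξ in Ioo 0 (c - e), -w0 (c - ξ) * (Real.exp (2 * lam u X t (c - ξ)) *
      Pq 0 (X t c - X t (c - ξ)) - Pq 0 ξ) =
      JI w u X c e c t - 1 / 4 * MI w u X e c t + 1 / 4 * ∫ α in Ioo e c, |w (0, α)| ∧
    ∫ ξ in Ioo 0 (c - e), (-w0 (c - ξ) * (-lma u X t (c - ξ)) ^ 2 +
      2 * deriv (fun y => -w0 (c - y)) ξ * (-lma u X t (c - ξ))) = -EI w u X e c t := by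
  have hpt : ∀ ξ ∈ Ioo 0 (c - e), (fun α => |w (0, α)| * (gI u X c t α - gI u X c 0 α) -
      1 / 4 * (|w (0, α)| * Real.exp (2 * lam u X t α)) + 1 / 4 * |w (0, α)|) (c - ξ) =
      -w0 (c - ξ) * (Real.exp (2 * lam u X t (c - ξ)) *
        Pq 0 (X t c - X t (c - ξ)) - Pq 0 ξ) := by
    intro ξ hξ
    have h1 := h.neg (c - ξ) ⟨by linarith [hξ.2], by linarith [hξ.1]⟩
    have h2 := Flow.mono h.cs.vel h.fl t (show c - ξ < c by linarith [hξ.1])
    have h3 := h.el_lt t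
    unfold el at h3
    have h4 := (Flow.mono h.cs.vel h.fl t).monotone (show e ≤ c - ξ by linarith [hξ.2])
    have h5 : c - ξ - c = -ξ := by ring
    simp only
    rw [abs_of_nonpos h1, hw, DE.HarE_gI0 h.fl]
    unfold gI
    rw [abs_sub_comm (X t (c - ξ)), abs_of_pos (sub_pos.2 h2), h5, abs_neg, abs_of_pos hξ.1,
      HarA_quarter (sub_pos.2 h2) (by linarith), HarA_quarter hξ.1 (by linarith [hξ.2, h.hce])]
    ring
  have hpt2 : ∀ ξ ∈ Ioo 0 (c - e),
      -(fun α => w (0, α) * lma u X t α ^ 2 + 2 * px w (0, α) * lma u X t α) (c - ξ) =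
      -w0 (c - ξ) * (-lma u X t (c - ξ)) ^ 2 +
      2 * deriv (fun y => -w0 (c - y)) ξ * (-lma u X t (c - ξ)) := by
    intro ξ _
    simp only
    rw [hw, DE.HarE_px hw, DE.HarE_dN hd]
    ring
  have hmp := MeasureTheory.Measure.measurePreserving_sub_left (volume : Measure ℝ) c
  have hme : MeasurableEmbedding (fun ξ : ℝ => c - ξ) :=
    (MeasurableEquiv.subLeft c).measurableEmbedding
  have hpre : (fun ξ : ℝ => c - ξ) ⁻¹' Ioo e c = Ioo 0 (c - e) := by
    rw [Set.preimage_const_sub_Ioo, sub_self]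
  obtain ⟨hi, he⟩ := HarA_F h hw hd t h.arc_c_R
  rw [← hmp.integrableOn_comp_preimage hme, hpre] at hi
  refine ⟨(integrableOn_congr_fun hpt measurableSet_Ioo).1 hi, ?_, ?_⟩
  · rw [← he]
    have h7 := hmp.setIntegral_preimage_emb hme
      (fun α => |w (0, α)| * (gI u X c t α - gI u X c 0 α) -
        1 / 4 * (|w (0, α)| * Real.exp (2 * lam u X t α)) + 1 / 4 * |w (0, α)|) (Ioo e c)
    rw [hpre] at h7
    rw [← h7]
    exact (setIntegral_congr_fun measurableSet_Ioo hpt).symm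
  · unfold EI
    have h7 := hmp.setIntegral_preimage_emb hme
      (fun α => w (0, α) * lma u X t α ^ 2 + 2 * px w (0, α) * lma u X t α) (Ioo e c)
    rw [hpre] at h7
    rw [← h7, ← integral_neg]
    exact (setIntegral_congr_fun measurableSet_Ioo hpt2).symm

lemma HarA_P {w u : ℝ × ℝ → ℝ} {X : ℝ → ℝ → ℝ} {e c T : ℝ} {w0 : ℝ → ℝ}
    (h : Dyn w u X e c T) (hw : ∀ x, w (0, x) = w0 x) (hd : Differentiable ℝ w0) (t : ℝ) :
    IntegrableOn (fun ξ => w0 (c + ξ) * (Real.exp (2 * lam u X t (c + ξ)) *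
      Pq 0 (X t (c + ξ) - X t c) - Pq 0 ξ)) (Ioo 0 (e + 2 * π - c)) ∧
    ∫ ξ in Ioo 0 (e + 2 * π - c), w0 (c + ξ) * (Real.exp (2 * lam u X t (c + ξ)) *
      Pq 0 (X t (c + ξ) - X t c) - Pq 0 ξ) =
      JI w u X c c (e + 2 * π) t - 1 / 4 * MI w u X c (e + 2 * π) t +
        1 / 4 * ∫ α in Ioo c (e + 2 * π), |w (0, α)| ∧
    ∫ ξ in Ioo 0 (e + 2 * π - c), (w0 (c + ξ) * lma u X t (c + ξ) ^ 2 +
      2 * deriv (fun y => w0 (c + y)) ξ * lma u X t (c + ξ)) = EI w u X c (e + 2 * π) t := by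
  have hpt : ∀ ξ ∈ Ioo 0 (e + 2 * π - c),
      (fun α => |w (0, α)| * (gI u X c t α - gI u X c 0 α) -
      1 / 4 * (|w (0, α)| * Real.exp (2 * lam u X t α)) + 1 / 4 * |w (0, α)|) (c + ξ) =
      w0 (c + ξ) * (Real.exp (2 * lam u X t (c + ξ)) *
        Pq 0 (X t (c + ξ) - X t c) - Pq 0 ξ) := by
    intro ξ hξ
    have h1 := h.pos (c + ξ) ⟨by linarith [hξ.1], by linarith [hξ.2]⟩
    have h2 := Flow.mono h.cs.vel h.fl t (show c < c + ξ by linarith [hξ.1])
    have h3 := h.el_pos t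
    unfold el at h3
    have h4 := (Flow.mono h.cs.vel h.fl t).monotone (show c + ξ ≤ e + 2 * π by linarith [hξ.2])
    rw [Flow.per h.cs.vel h.fl] at h4
    simp only
    rw [abs_of_nonneg h1, hw, DE.HarE_gI0 h.fl]
    unfold gI
    rw [abs_of_pos (sub_pos.2 h2), add_sub_cancel_left, abs_of_pos hξ.1,
      HarA_quarter (sub_pos.2 h2) (by linarith), HarA_quarter hξ.1 (by linarith [hξ.2, h.hec])]
    ring
  have hpt2 : ∀ ξ ∈ Ioo 0 (e + 2 * π - c),
      (fun α => w (0, α) * lma u X t α ^ 2 + 2 * px w (0, α) * lma u X t α) (c + ξ) =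
      w0 (c + ξ) * lma u X t (c + ξ) ^ 2 +
      2 * deriv (fun y => w0 (c + y)) ξ * lma u X t (c + ξ) := by
    intro ξ _
    have h3 : deriv (fun y => w0 (c + y)) ξ = deriv w0 (c + ξ) :=
      ((hd (c + ξ)).hasDerivAt.comp_const_add c ξ).deriv
    simp only
    rw [hw, DE.HarE_px hw, h3]
  have hmp := measurePreserving_add_left (volume : Measure ℝ) c
  have hme : MeasurableEmbedding (fun ξ : ℝ => c + ξ) :=
    (MeasurableEquiv.addLeft c).measurableEmbedding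
  have hpre : (fun ξ : ℝ => c + ξ) ⁻¹' Ioo c (e + 2 * π) = Ioo 0 (e + 2 * π - c) := by
    rw [Set.preimage_const_add_Ioo, sub_self]
  obtain ⟨hi, he⟩ := HarA_F h hw hd t h.arc_c_L
  rw [← hmp.integrableOn_comp_preimage hme, hpre] at hi
  refine ⟨(integrableOn_congr_fun hpt measurableSet_Ioo).1 hi, ?_, ?_⟩
  · rw [← he]
    have h7 := hmp.setIntegral_preimage_emb hme
      (fun α => |w (0, α)| * (gI u X c t α - gI u X c 0 α) -
        1 / 4 * (|w (0, α)| * Real.exp (2 * lam u X t α)) + 1 / 4 * |w (0, α)|)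
      (Ioo c (e + 2 * π))
    rw [hpre] at h7
    rw [← h7]
    exact (setIntegral_congr_fun measurableSet_Ioo hpt).symm
  · unfold EI
    have h7 := hmp.setIntegral_preimage_emb hme
      (fun α => w (0, α) * lma u X t α ^ 2 + 2 * px w (0, α) * lma u X t α) (Ioo c (e + 2 * π))
    rw [hpre] at h7
    rw [← h7]
    exact (setIntegral_congr_fun measurableSet_Ioo hpt2).symm

theorem hardyNA (w0 : ℝ → ℝ) (e c : ℝ) (hg : GoodA w0 e c) :
    ∃ C : ℝ, 0 ≤ C ∧ ∀ (w u : ℝ × ℝ → ℝ) (X : ℝ → ℝ → ℝ) (T : ℝ), Dyn w u X e c T →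
      (∀ x, w (0, x) = w0 x) → ∀ t ∈ Icc 0 T, ∀ Λ : ℝ, (∀ α, |lam u X t α| ≤ Λ) →
      JI w u X c e c t - 1 / 4 * MI w u X e c t ≤ -EI w u X e c t + C * (1 + Λ) := by
  have hs2 : ContDiff ℝ 2 w0 := by exact_mod_cast contDiff_infty.1 hg.smooth 2
  have hd : Differentiable ℝ w0 := hg.smooth.differentiable (by simp)
  have wc : w0 c = 0 :=
    le_antisymm (hg.neg c ⟨hg.hec.le, le_rfl⟩) (hg.pos c ⟨le_rfl, hg.hce.le⟩)
  have we : w0 e = 0 := by
    have h2 := hg.pos (e + 2 * π) ⟨hg.hce.le, le_rfl⟩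
    rw [hg.per] at h2
    exact le_antisymm (hg.neg e ⟨le_rfl, hg.hec.le⟩) h2
  obtain ⟨C, hC, H⟩ := hardy2 (w0 := fun y => -w0 (c - y)) (p := c - e)
    (by linarith [hg.hec]) (by linarith [hg.hce]) (hs2.comp (contDiff_const.sub contDiff_id)).neg
    (by simp [wc]) (by simp [we])
    (fun x hx => by
      have := hg.neg (c - x) ⟨by linarith [hx.2], by linarith [hx.1]⟩
      linarith)
  refine ⟨C, hC, ?_⟩
  intro w u X T h hw t ht Λ hΛ
  obtain ⟨i1, e1, e2⟩ := HarA_N h hw hd t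
  have hlc : Continuous fun p : ℝ × ℝ => lma u X p.1 p.2 := lma_cont h.cs.vel h.fl
  have K := H (fun y => lam u X t (c - y)) (fun y => -lma u X t (c - y))
    (fun y => X t c - X t (c - y)) Λ
    (fun y => (lam_hasDerivAt_label h.cs.vel h.fl t (c - y) ht.1).comp_const_sub c y)
    (hlc.comp (continuous_const.prodMk (continuous_const.sub continuous_id))).neg
    (fun y => by
      have h5 := ((Flow.hasDerivAt_label h.cs.vel h.fl t (c - y) ht.1).comp_const_sub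
        c y).const_sub (X t c)
      rw [neg_neg] at h5
      exact h5)
    (by simp)
    (by
      rw [sub_sub_cancel]
      exact h.el_lt t)
    (fun y _ => hΛ (c - y)) i1
  rw [e1, e2] at K
  have h9 : 0 ≤ ∫ α in Ioo e c, |w (0, α)| := integral_nonneg fun α => abs_nonneg _
  linarith

theorem hardyPA (w0 : ℝ → ℝ) (e c : ℝ) (hg : GoodA w0 e c) :
    ∃ C : ℝ, 0 ≤ C ∧ ∀ (w u : ℝ × ℝ → ℝ) (X : ℝ → ℝ → ℝ) (T : ℝ), Dyn w u X e c T →
      (∀ x, w (0, x) = w0 x) → ∀ t ∈ Icc 0 T, ∀ Λ : ℝ, (∀ α, |lam u X t α| ≤ Λ) →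
      JI w u X c c (e + 2 * π) t - 1 / 4 * MI w u X c (e + 2 * π) t ≤
        EI w u X c (e + 2 * π) t + C * (1 + Λ) := by
  have hs2 : ContDiff ℝ 2 w0 := by exact_mod_cast contDiff_infty.1 hg.smooth 2
  have hd : Differentiable ℝ w0 := hg.smooth.differentiable (by simp)
  have wc : w0 c = 0 :=
    le_antisymm (hg.neg c ⟨hg.hec.le, le_rfl⟩) (hg.pos c ⟨le_rfl, hg.hce.le⟩)
  have we : w0 (e + 2 * π) = 0 := by
    have h2 := hg.pos (e + 2 * π) ⟨hg.hce.le, le_rfl⟩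
    refine le_antisymm ?_ h2
    rw [hg.per]
    exact hg.neg e ⟨le_rfl, hg.hec.le⟩
  obtain ⟨C, hC, H⟩ := hardy2 (w0 := fun y => w0 (c + y)) (p := e + 2 * π - c)
    (by linarith [hg.hce]) (by linarith [hg.hec]) (hs2.comp (contDiff_const.add contDiff_id))
    (by simp [wc]) (by simp [we])
    (fun x hx => hg.pos (c + x) ⟨by linarith [hx.1], by linarith [hx.2]⟩)
  refine ⟨C, hC, ?_⟩
  intro w u X T h hw t ht Λ hΛ
  obtain ⟨i1, e1, e2⟩ := HarA_P h hw hd t
  have hlc : Continuous fun p : ℝ × ℝ => lma u X p.1 p.2 := lma_cont h.cs.vel h.fl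
  have K := H (fun y => lam u X t (c + y)) (fun y => lma u X t (c + y))
    (fun y => X t (c + y) - X t c) Λ
    (fun y => (lam_hasDerivAt_label h.cs.vel h.fl t (c + y) ht.1).comp_const_add c y)
    (hlc.comp (continuous_const.prodMk (continuous_const.add continuous_id)))
    (fun y => ((Flow.hasDerivAt_label h.cs.vel h.fl t (c + y) ht.1).comp_const_add c y).sub_const _)
    (by simp)
    (by
      rw [add_sub_cancel, Flow.per h.cs.vel h.fl]
      have h3 := h.el_pos t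
      unfold el at h3
      linarith)
    (fun y _ => hΛ (c + y)) i1
  rw [e1, e2] at K
  have h9 : 0 ≤ ∫ α in Ioo c (e + 2 * π), |w (0, α)| := integral_nonneg fun α => abs_nonneg _
  linarith

end Pool.Agent.H90.DA
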