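import Pool.Agent.H90.DA.LowB
import Pool.Agent.H90.DE.LowE

/-!
# DA job A5: lower bounds of the budgets `Y_N`, `Y_P`, base `e` (from `LBc`, stub of `LowB.lean`)

Substitutions as in DE/LowE.lean.  N: `α = e + ξ`, `0 < ξ < c - e`, `Xf ξ = X t (e+ξ) - X t e`; P: `α = e + 2π - ξ`,
`0 < ξ < e + 2π - c`, `Xf ξ = X t (e+2π) - X t (e+2π-ξ)`; arcs `h.arc_e_R : Arc w e e c`,
`h.arc_e_L : Arc w (e+2π) c (e+2π)` (H45/DY/Sgn.lean).  `ph x = Pq 0 x + 1/4` for `0 < x < 2π`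
(`x ≥ π`: `ph = 1/4`, `ct x ≤ 0`), so `JI w u X e e c t - 1/4 * MI w u X e c t = ∫ a (e^{2L} Pq 0 Xf - Pq 0 ξ) - 1/4 ∫_{(e,c)} |w0|`.
-/

set_option autoImplicit false
open Real Set MeasureTheory Filter Topology

namespace Pool.Agent.H90.DA
open Pool.Agent.H45.FL Pool.Agent.H51.DG Pool.Agent.H45.DY Pool.Agent.H90.DC

/-- the weight `ph` is the weight of this project, up to a constant -/
lemma LowA_ph {x : ℝ} (h0 : 0 < x) (h1 : x < 2 * π) : ph x = Pq 0 x + 1 / 4 := by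
  have hpi := Real.pi_pos
  have hs : 0 < Real.sin (x / 2) := Real.sin_pos_of_pos_of_lt_pi (by linarith) (by linarith)
  unfold ph Pq
  rw [sub_zero]
  split_ifs with h
  · have hct : 0 ≤ ct x := by
      rcases lt_or_eq_of_le h with h2 | h2
      · exact (LowB_ct_pos h0 h2).le
      · rw [h2]
        unfold ct
        rw [Real.cos_pi_div_two, zero_div]
    rw [max_eq_left hct]
    unfold ct
    have h3 := Real.sin_sq_add_cos_sq (x / 2)
    have h4 : Real.cos (x / 2) ^ 2 = 1 - Real.sin (x / 2) ^ 2 := by linarith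
    rw [div_pow, h4]
    field_simp
    ring
  · rw [max_eq_right (LowB_ct_nonpos (le_of_not_ge h) h1)]
    norm_num

variable {w u : ℝ × ℝ → ℝ} {X : ℝ → ℝ → ℝ} {e c T : ℝ}

/-- the combined integrand -/
noncomputable def LowA_F (w u : ℝ × ℝ → ℝ) (X : ℝ → ℝ → ℝ) (z t α : ℝ) : ℝ :=
  |w (0, α)| * (gI u X z t α - gI u X z 0 α) -
    1 / 4 * (|w (0, α)| * Real.exp (2 * lam u X t α)) + 1 / 4 * |w (0, α)|

lemma LowA_int (h : Dyn w u X e c T) {z p q : ℝ} (ha : Arc w z p q) (t : ℝ) :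
    IntegrableOn (LowA_F w u X z t) (Ioo p q) ∧
    ∫ α in Ioo p q, LowA_F w u X z t α =
      JI w u X z p q t - 1 / 4 * MI w u X p q t + 1 / 4 * ∫ α in Ioo p q, |w (0, α)| := by
  have hwc : Continuous fun α : ℝ => |w (0, α)| :=
    (h.cs.sm.continuous.comp (continuous_const.prodMk continuous_id)).abs
  have hlc : Continuous fun α : ℝ => lam u X t α :=
    (lam_cont h.cs.vel h.fl).comp (continuous_const.prodMk continuous_id)
  have hmc : Continuous fun α : ℝ => |w (0, α)| * Real.exp (2 * lam u X t α) :=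
    hwc.mul (Real.continuous_exp.comp (continuous_const.mul hlc))
  have i1 := JI_integrable h.cs h.fl ha t
  have i2 : IntegrableOn (fun α => |w (0, α)| * Real.exp (2 * lam u X t α)) (Ioo p q) :=
    (hmc.continuousOn.integrableOn_Icc).mono_set Ioo_subset_Icc_self
  have i3 : IntegrableOn (fun α => |w (0, α)|) (Ioo p q) :=
    (hwc.continuousOn.integrableOn_Icc).mono_set Ioo_subset_Icc_self
  have j1 : IntegrableOn (fun α => |w (0, α)| * (gI u X z t α - gI u X z 0 α) -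
      1 / 4 * (|w (0, α)| * Real.exp (2 * lam u X t α))) (Ioo p q) :=
    i1.sub (i2.const_mul (1 / 4))
  refine ⟨j1.add (i3.const_mul (1 / 4)), ?_⟩
  unfold LowA_F JI MI
  rw [← integral_const_mul, ← integral_const_mul]
  rw [← integral_sub i1 (i2.const_mul (1 / 4)), ← integral_add j1 (i3.const_mul (1 / 4))]

lemma LowA_R {w0 : ℝ → ℝ} (h : Dyn w u X e c T) (hw : ∀ x, w (0, x) = w0 x) (t : ℝ) :
    IntegrableOn (fun ξ => (-w0 (e + ξ)) * (Real.exp (2 * lam u X t (e + ξ)) *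
      Pq 0 (X t (e + ξ) - X t e) - Pq 0 ξ)) (Ioo 0 (c - e)) ∧
    ∫ ξ in Ioo 0 (c - e), (-w0 (e + ξ)) * (Real.exp (2 * lam u X t (e + ξ)) *
      Pq 0 (X t (e + ξ) - X t e) - Pq 0 ξ) =
      JI w u X e e c t - 1 / 4 * MI w u X e c t + 1 / 4 * ∫ α in Ioo e c, |w (0, α)| := by
  have hpt : ∀ ξ ∈ Ioo 0 (c - e), LowA_F w u X e t (e + ξ) =
      (-w0 (e + ξ)) * (Real.exp (2 * lam u X t (e + ξ)) *
        Pq 0 (X t (e + ξ) - X t e) - Pq 0 ξ) := by
    intro ξ hξ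
    have h1 := h.neg (e + ξ) ⟨by linarith [hξ.1], by linarith [hξ.2]⟩
    have h2 := Flow.mono h.cs.vel h.fl t (show e < e + ξ by linarith [hξ.1])
    have h3 := Flow.mono h.cs.vel h.fl t (show e + ξ < c by linarith [hξ.2])
    have h4 := h.el_lt t
    unfold el at h4
    unfold LowA_F gI
    rw [abs_of_nonpos h1, hw, lam_zero, h.fl.init, h.fl.init, mul_zero, Real.exp_zero, one_mul,
      abs_of_pos (sub_pos.2 h2), add_sub_cancel_left, abs_of_pos hξ.1,
      LowA_ph (sub_pos.2 h2) (by linarith), LowA_ph hξ.1 (by linarith [hξ.2, h.hce])]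
    ring
  have hmp := measurePreserving_add_left (volume : Measure ℝ) e
  have hme : MeasurableEmbedding (fun ξ : ℝ => e + ξ) :=
    (MeasurableEquiv.addLeft e).measurableEmbedding
  have hpre : (fun ξ : ℝ => e + ξ) ⁻¹' Ioo e c = Ioo 0 (c - e) := by
    rw [Set.preimage_const_add_Ioo, sub_self]
  obtain ⟨hi, hj⟩ := LowA_int h h.arc_e_R t
  rw [← hmp.integrableOn_comp_preimage hme, hpre] at hi
  constructor
  · exact (integrableOn_congr_fun hpt measurableSet_Ioo).1 hi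
  · have h7 := hmp.setIntegral_preimage_emb hme (LowA_F w u X e t) (Ioo e c)
    rw [hpre] at h7
    rw [← hj, ← h7]
    exact (setIntegral_congr_fun measurableSet_Ioo hpt).symm

lemma LowA_L {w0 : ℝ → ℝ} (h : Dyn w u X e c T) (hw : ∀ x, w (0, x) = w0 x) (t : ℝ) :
    IntegrableOn (fun ξ => (w0 (e + 2 * π - ξ)) * (Real.exp (2 * lam u X t (e + 2 * π - ξ)) *
      Pq 0 (X t (e + 2 * π) - X t (e + 2 * π - ξ)) - Pq 0 ξ)) (Ioo 0 (e + 2 * π - c)) ∧
    ∫ ξ in Ioo 0 (e + 2 * π - c), (w0 (e + 2 * π - ξ)) *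
      (Real.exp (2 * lam u X t (e + 2 * π - ξ)) *
      Pq 0 (X t (e + 2 * π) - X t (e + 2 * π - ξ)) - Pq 0 ξ) =
      JI w u X (e + 2 * π) c (e + 2 * π) t - 1 / 4 * MI w u X c (e + 2 * π) t +
        1 / 4 * ∫ α in Ioo c (e + 2 * π), |w (0, α)| := by
  have hpt : ∀ ξ ∈ Ioo 0 (e + 2 * π - c), LowA_F w u X (e + 2 * π) t (e + 2 * π - ξ) =
      (w0 (e + 2 * π - ξ)) * (Real.exp (2 * lam u X t (e + 2 * π - ξ)) *
      Pq 0 (X t (e + 2 * π) - X t (e + 2 * π - ξ)) - Pq 0 ξ) := by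
    intro ξ hξ
    have h1 := h.pos (e + 2 * π - ξ) ⟨by linarith [hξ.2], by linarith [hξ.1]⟩
    have h2 := Flow.mono h.cs.vel h.fl t (show e + 2 * π - ξ < e + 2 * π by linarith [hξ.1])
    have h3 := Flow.mono h.cs.vel h.fl t (show c < e + 2 * π - ξ by linarith [hξ.2])
    have h4 := h.el_pos t
    have h5 := Flow.per h.cs.vel h.fl t e
    unfold el at h4
    unfold LowA_F gI
    rw [abs_of_nonneg h1, hw, lam_zero, h.fl.init, h.fl.init, mul_zero, Real.exp_zero, one_mul,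
      abs_sub_comm, abs_of_pos (sub_pos.2 h2),
      show e + 2 * π - ξ - (e + 2 * π) = -ξ by ring, abs_neg, abs_of_pos hξ.1,
      LowA_ph (sub_pos.2 h2) (by linarith), LowA_ph hξ.1 (by linarith [hξ.2, h.hec])]
    ring
  have hmp := MeasureTheory.Measure.measurePreserving_sub_left (volume : Measure ℝ) (e + 2 * π)
  have hme : MeasurableEmbedding (fun ξ : ℝ => e + 2 * π - ξ) :=
    (MeasurableEquiv.subLeft (e + 2 * π)).measurableEmbedding
  have hpre : (fun ξ : ℝ => e + 2 * π - ξ) ⁻¹' Ioo c (e + 2 * π) = Ioo 0 (e + 2 * π - c) := by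
    rw [Set.preimage_const_sub_Ioo, sub_self]
  obtain ⟨hi, hj⟩ := LowA_int h h.arc_e_L t
  rw [← hmp.integrableOn_comp_preimage hme, hpre] at hi
  constructor
  · exact (integrableOn_congr_fun hpt measurableSet_Ioo).1 hi
  · have h7 := hmp.setIntegral_preimage_emb hme (LowA_F w u X (e + 2 * π) t) (Ioo c (e + 2 * π))
    rw [hpre] at h7
    rw [← hj, ← h7]
    exact (setIntegral_congr_fun measurableSet_Ioo hpt).symm

/-- the data at the zeros -/
lemma LowA_zero {w0 : ℝ → ℝ} (hg : GoodA w0 e c) : w0 e = 0 ∧ w0 c = 0 := by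
  constructor
  · have h1 := hg.neg e ⟨le_rfl, hg.hec.le⟩
    have h2 := hg.pos (e + 2 * π) ⟨hg.hce.le, le_rfl⟩
    rw [hg.per] at h2
    exact le_antisymm h1 h2
  · exact le_antisymm (hg.neg c ⟨hg.hec.le, le_rfl⟩) (hg.pos c ⟨le_rfl, hg.hce.le⟩)

theorem lowNA (w0 : ℝ → ℝ) (e c : ℝ) (hg : GoodA w0 e c) :
    ∃ C : ℝ, 0 ≤ C ∧ ∀ (w u : ℝ × ℝ → ℝ) (X : ℝ → ℝ → ℝ) (T : ℝ), Dyn w u X e c T →
      (∀ x, w (0, x) = w0 x) → ∀ t ∈ Icc 0 T, ∀ Λ : ℝ, (∀ α, |lam u X t α| ≤ Λ) →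
      -(C * (1 + Λ)) ≤ JI w u X e e c t - 1 / 4 * MI w u X e c t := by
  obtain ⟨we, wc⟩ := LowA_zero hg
  have hs2 : ContDiff ℝ 2 w0 := by exact_mod_cast contDiff_infty.1 hg.smooth 2
  obtain ⟨C, hC, H⟩ := LBc (a := fun ξ => -w0 (e + ξ)) (p := c - e) (by linarith [hg.hec])
    (by linarith [hg.hce]) (hs2.comp (contDiff_const.add contDiff_id)).neg
    (by simp [we]) (by simp [wc])
    (fun x hx => by
      have := hg.neg (e + x) ⟨by linarith [hx.1], by linarith [hx.2]⟩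
      linarith)
  have hI : 0 ≤ ∫ α in Ioo e c, |w0 α| := integral_nonneg fun α => abs_nonneg _
  refine ⟨C + 1 / 4 * ∫ α in Ioo e c, |w0 α|, by positivity, ?_⟩
  intro w u X T h hw t ht Λ hΛ
  have hΛ0 : 0 ≤ Λ := (abs_nonneg _).trans (hΛ 0)
  have hlc : Continuous fun p : ℝ × ℝ => lam u X p.1 p.2 := lam_cont h.cs.vel h.fl
  obtain ⟨i1, e1⟩ := LowA_R h hw t
  have K1 := H (fun ξ => lam u X t (e + ξ)) (fun ξ => X t (e + ξ) - X t e) Λ
    (hlc.comp (continuous_const.prodMk (continuous_const.add continuous_id)))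
    (fun ξ => ((Flow.hasDerivAt_label h.cs.vel h.fl t (e + ξ) ht.1).comp_const_add e ξ).sub_const _)
    (by simp)
    (by
      have h5 := h.el_lt t
      unfold el at h5
      simp only [add_sub_cancel]
      exact h5)
    (fun ξ _ => hΛ _) i1
  rw [e1] at K1
  have e2 : ∫ α in Ioo e c, |w (0, α)| = ∫ α in Ioo e c, |w0 α| := by
    simp only [hw]
  rw [e2] at K1
  nlinarith [mul_nonneg hI hΛ0]

theorem lowPA (w0 : ℝ → ℝ) (e c : ℝ) (hg : GoodA w0 e c) :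
    ∃ C : ℝ, 0 ≤ C ∧ ∀ (w u : ℝ × ℝ → ℝ) (X : ℝ → ℝ → ℝ) (T : ℝ), Dyn w u X e c T →
      (∀ x, w (0, x) = w0 x) → ∀ t ∈ Icc 0 T, ∀ Λ : ℝ, (∀ α, |lam u X t α| ≤ Λ) →
      -(C * (1 + Λ)) ≤
        JI w u X (e + 2 * π) c (e + 2 * π) t - 1 / 4 * MI w u X c (e + 2 * π) t := by
  obtain ⟨we, wc⟩ := LowA_zero hg
  have hs2 : ContDiff ℝ 2 w0 := by exact_mod_cast contDiff_infty.1 hg.smooth 2
  obtain ⟨C, hC, H⟩ := LBc (a := fun ξ => w0 (e + 2 * π - ξ)) (p := e + 2 * π - c)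
    (by linarith [hg.hce]) (by linarith [hg.hec]) (hs2.comp (contDiff_const.sub contDiff_id))
    (by simp only [sub_zero]; rw [hg.per, we]) (by simp [wc])
    (fun x hx => hg.pos (e + 2 * π - x) ⟨by linarith [hx.2], by linarith [hx.1]⟩)
  have hI : 0 ≤ ∫ α in Ioo c (e + 2 * π), |w0 α| := integral_nonneg fun α => abs_nonneg _
  refine ⟨C + 1 / 4 * ∫ α in Ioo c (e + 2 * π), |w0 α|, by positivity, ?_⟩
  intro w u X T h hw t ht Λ hΛ
  have hΛ0 : 0 ≤ Λ := (abs_nonneg _).trans (hΛ 0)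
  have hlc : Continuous fun p : ℝ × ℝ => lam u X p.1 p.2 := lam_cont h.cs.vel h.fl
  obtain ⟨i1, e1⟩ := LowA_L h hw t
  have K1 := H (fun ξ => lam u X t (e + 2 * π - ξ))
    (fun ξ => X t (e + 2 * π) - X t (e + 2 * π - ξ)) Λ
    (hlc.comp (continuous_const.prodMk (continuous_const.sub continuous_id)))
    (fun ξ => by
      have h5 := ((Flow.hasDerivAt_label h.cs.vel h.fl t (e + 2 * π - ξ) ht.1).comp_const_sub
        (e + 2 * π) ξ).const_sub (X t (e + 2 * π))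
      rw [neg_neg] at h5
      exact h5)
    (by simp)
    (by
      have h5 := h.el_pos t
      unfold el at h5
      rw [show e + 2 * π - (e + 2 * π - c) = c by ring, Flow.per h.cs.vel h.fl]
      linarith)
    (fun ξ _ => hΛ _) i1
  rw [e1] at K1
  have e2 : ∫ α in Ioo c (e + 2 * π), |w (0, α)| = ∫ α in Ioo c (e + 2 * π), |w0 α| := by
    simp only [hw]
  rw [e2] at K1
  nlinarith [mul_nonneg hI hΛ0]

end Pool.Agent.H90.DA
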