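import Pool.Agent.H90.DA.DynA
import Pool.Agent.H90.DA.HarA
import Pool.Agent.H90.DA.LowA
import Pool.Agent.H90.DE.EnerE

/-!
# DA: the energy estimate (Gronwall), class (A)
-/

set_option autoImplicit false
open Real Set MeasureTheory Filter Topology

namespace Pool.Agent.H90.DA
open Pool.Agent.H45.FL Pool.Agent.H51.DG Pool.Agent.H45.DY Pool.Agent.H90.DC

/-- the functional of the energy estimate -/
noncomputable def FnA (w u : ℝ × ℝ → ℝ) (X : ℝ → ℝ → ℝ) (q : ℝ → ℝ) (e c K K' K'' κ s : ℝ) : ℝ :=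
  (JI w u X c e c s - 1 / 4 * MI w u X e c s) +
    (JI w u X c c (e + 2 * π) s - 1 / 4 * MI w u X c (e + 2 * π) s - RI w u X q e c s) -
    K * (JI w u X e e c s - 1 / 4 * MI w u X e c s) -
    K' * (JI w u X (e + 2 * π) c (e + 2 * π) s - 1 / 4 * MI w u X c (e + 2 * π) s) -
    K'' * (MI w u X e c s + MI w u X c (e + 2 * π) s) -
    κ * (EI w u X c (e + 2 * π) s - EI w u X e c s +
      1 / 2 * (MI w u X e c s + MI w u X c (e + 2 * π) s))

lemma FnA_der {w u : ℝ × ℝ → ℝ} {X : ℝ → ℝ → ℝ} {e c T : ℝ} {q dq : ℝ → ℝ}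
    (h : Dyn w u X e c T) (hq : QF q dq) (K K' K'' κ : ℝ) {t : ℝ} (ht : t ∈ Icc 0 T) :
    HasDerivAt (FnA w u X q e c K K' K'' κ)
      (TA (q (el X e c t)) (dq (el X e c t)) (fc w X c t) (el X e c t) +
        K * BNA (fc w X c t) (el X e c t) + K' * BPA (fc w X c t) (el X e c t) +
        K'' * BMA (fc w X c t) (el X e c t) - κ * EA (fc w X c t) (el X e c t)) t := by
  have a1 := JI_hasDerivAt h.cs h.fl h.arc_c_R t
  have a2 := JI_hasDerivAt h.cs h.fl h.arc_c_L t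
  have a3 := JI_hasDerivAt h.cs h.fl h.arc_e_R t
  have a4 := JI_hasDerivAt h.cs h.fl h.arc_e_L t
  have m1 := MI_hasDerivAt h.cs h.fl e c t
  have m2 := MI_hasDerivAt h.cs h.fl c (e + 2 * π) t
  have e1 := EI_hasDerivAt h.cs h.fl e c t
  have e2 := EI_hasDerivAt h.cs h.fl c (e + 2 * π) t
  have r1 := RI_hasDerivAt h hq t
  have key := ((((((a1.sub (m1.const_mul (1 / 4))).add
    ((a2.sub (m2.const_mul (1 / 4))).sub r1)).sub
    ((a3.sub (m1.const_mul (1 / 4))).const_mul K)).sub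
    ((a4.sub (m2.const_mul (1 / 4))).const_mul K')).sub
    ((m1.add m2).const_mul K'')).sub
    (((e2.sub e1).add ((m1.add m2).const_mul (1 / 2))).const_mul κ))
  have h1 := TA_eq h hq t ht
  have h2 := BNA_eq h t ht
  have h3 := BPA_eq h t ht
  have h4 := BMA_eq h t ht
  have h5 := EA_eq h t ht
  refine key.congr_deriv ?_
  rw [h5, h1, h2, h3, h4]
  ring

lemma EnerA_gron {G G' : ℝ → ℝ} {t b : ℝ} (ht : 0 ≤ t) (hG : ∀ s ∈ Icc 0 t, HasDerivAt G (G' s) s)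
    (hb : ∀ s ∈ Icc 0 t, G' s ≤ b * G s) : G t ≤ Real.exp (b * t) * G 0 := by
  have hd : ∀ s ∈ Icc 0 t, HasDerivAt (fun s => Real.exp (-(b * s)) * G s)
      (Real.exp (-(b * s)) * (-(b * 1)) * G s + Real.exp (-(b * s)) * G' s) s := by
    intro s hs
    exact ((((hasDerivAt_id s).const_mul b).neg).exp).mul (hG s hs)
  have hanti : AntitoneOn (fun s => Real.exp (-(b * s)) * G s) (Icc 0 t) := by
    refine antitoneOn_of_deriv_nonpos (convex_Icc 0 t)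
      (fun s hs => (hd s hs).continuousAt.continuousWithinAt)
      (fun s hs => ?_) (fun s hs => ?_)
    · rw [interior_Icc] at hs
      exact (hd s (Ioo_subset_Icc_self hs)).differentiableAt.differentiableWithinAt
    · rw [interior_Icc] at hs
      rw [(hd s (Ioo_subset_Icc_self hs)).deriv]
      have h1 := hb s (Ioo_subset_Icc_self hs)
      have h2 := Real.exp_pos (-(b * s))
      nlinarith
  have h3 := hanti ⟨le_rfl, ht⟩ ⟨ht, le_rfl⟩ ht
  simp only [mul_zero, neg_zero, Real.exp_zero, one_mul] at h3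
  have h4 := mul_le_mul_of_nonneg_left h3 (Real.exp_pos (b * t)).le
  rw [← mul_assoc, ← Real.exp_add] at h4
  have e1 : b * t + -(b * t) = 0 := by ring
  rw [e1, Real.exp_zero, one_mul] at h4
  exact h4

theorem energyA (hS : StatA) (w0 : ℝ → ℝ) (e c : ℝ) (hg : GoodA w0 e c) (T0 : ℝ) :
    ∃ C : ℝ, 0 ≤ C ∧ ∀ (w u : ℝ × ℝ → ℝ) (X : ℝ → ℝ → ℝ) (T : ℝ), Dyn w u X e c T → T ≤ T0 →
      (∀ x, w (0, x) = w0 x) → ∀ t ∈ Icc 0 T, ∀ Λ : ℝ,
      (∀ s ∈ Icc 0 t, ∀ α, |lam u X s α| ≤ Λ) →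
      EI w u X c (e + 2 * π) t - EI w u X e c t ≤ C * (1 + Λ) := by
  obtain ⟨q, dq, κ, K, K', K'', C0, hq, hκ, hK, hK', hK'', hC0, hst⟩ := hS
  obtain ⟨C1, hC1, h1⟩ := hardyNA w0 e c hg
  obtain ⟨C2, hC2, h2⟩ := hardyPA w0 e c hg
  obtain ⟨C3, hC3, h3⟩ := lowNA w0 e c hg
  obtain ⟨C4, hC4, h4⟩ := lowPA w0 e c hg
  obtain ⟨C5, hC5, h5⟩ := DE.EnerE_lin w0 hg.smooth hg.hec.le
  obtain ⟨C6, hC6, h6⟩ := DE.EnerE_lin w0 hg.smooth hg.hce.le
  obtain ⟨m1, hm1⟩ : ∃ m1, m1 = ∫ α in Ioo e c, |w0 α| := ⟨_, rfl⟩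
  obtain ⟨m2, hm2⟩ : ∃ m2, m2 = ∫ α in Ioo c (e + 2 * π), |w0 α| := ⟨_, rfl⟩
  obtain ⟨r0, hr0⟩ : ∃ r0, r0 = ∫ α in Ioo c (e + 2 * π), |w0 α| * Rq (q (c - e)) (α - c) :=
    ⟨_, rfl⟩
  obtain ⟨μ, hμ⟩ : ∃ μ, μ = ∫ x in (0:ℝ)..(2 * π), w0 x := ⟨_, rfl⟩
  have hμ0 : 0 ≤ μ := by rw [hμ]; exact hg.mean
  obtain ⟨F0, hF0⟩ : ∃ F0, F0 = -(1 / 4 * m1) + (-(1 / 4 * m2) - r0) - K * (-(1 / 4 * m1)) -
    K' * (-(1 / 4 * m2)) - K'' * (m1 + m2) - κ * (1 / 2 * (m1 + m2)) := ⟨_, rfl⟩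
  obtain ⟨A, hA⟩ : ∃ A, A = C1 + C2 + K * C3 + K' * C4 + (κ - 1) * (2 * C5 + 2 * C6) := ⟨_, rfl⟩
  have hκ1 : 0 < κ - 1 := by linarith
  have hA0 : 0 ≤ A := by
    rw [hA]
    positivity
  obtain ⟨b, hb⟩ : ∃ b, b = 2 * (C0 * μ) := ⟨_, rfl⟩
  have hb0 : 0 ≤ b := by rw [hb]; positivity
  refine ⟨Real.exp (b * T0) * (A + |F0|) / (κ - 1), by positivity, ?_⟩
  intro w u X T h hTT hw t ht Λ hΛ
  have hΛ0 : 0 ≤ Λ := (abs_nonneg _).trans (hΛ 0 ⟨le_rfl, ht.1⟩ 0)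
  have hmean : ∫ x in (0:ℝ)..(2 * π), w (0, x) = μ := by
    rw [hμ]
    exact intervalIntegral.integral_congr fun x _ => hw x
  -- the lower bound of the energy
  have hElow : ∀ s ∈ Icc 0 t, -((2 * C5 + 2 * C6) * (1 + Λ)) ≤
      EI w u X c (e + 2 * π) s - EI w u X e c s := by
    intro s hs
    have z1 := DE.EnerE_ZZ h.cs h.fl h.hec.le s (-1) (fun α hα => by
      rw [DynA_sN h α hα]; ring)
    have z2 := DE.EnerE_ZZ h.cs h.fl h.hce.le s 1 (fun α hα => by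
      rw [DynA_sP h α hα]; ring)
    have z3 : 0 ≤ ZZ w u X e c s := integral_nonneg fun α => mul_nonneg (abs_nonneg _) (sq_nonneg _)
    have z4 : 0 ≤ ZZ w u X c (e + 2 * π) s :=
      integral_nonneg fun α => mul_nonneg (abs_nonneg _) (sq_nonneg _)
    have b1 := (abs_le.1 (h5 w u X h.cs h.fl hw s hs.1 Λ (hΛ s hs))).2
    have b2 := (abs_le.1 (h6 w u X h.cs h.fl hw s hs.1 Λ (hΛ s hs))).1
    rw [z1] at z3
    rw [z2] at z4
    have e1 : (2 * C5 + 2 * C6) * (1 + Λ) = 2 * (C5 * Λ) + 2 * (C6 * Λ) + 2 * C5 + 2 * C6 := by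
      ring
    rw [e1]
    linarith
  have hFle : ∀ s ∈ Icc 0 t, FnA w u X q e c K K' K'' κ s ≤
      -((κ - 1) * (EI w u X c (e + 2 * π) s - EI w u X e c s)) -
        κ / 2 * (MI w u X e c s + MI w u X c (e + 2 * π) s) +
        (C1 + C2 + K * C3 + K' * C4) * (1 + Λ) := by
    intro s hs
    have hsT : s ∈ Icc 0 T := ⟨hs.1, hs.2.trans ht.2⟩
    have b1 := h1 w u X T h hw s hsT Λ (hΛ s hs)
    have b2 := h2 w u X T h hw s hsT Λ (hΛ s hs)
    have b3 := h3 w u X T h hw s hsT Λ (hΛ s hs)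
    have b4 := h4 w u X T h hw s hsT Λ (hΛ s hs)
    have b5 := RI_nonneg h hq s
    have n1 := DE.EnerE_MI_nonneg w u X e c s
    have n2 := DE.EnerE_MI_nonneg w u X c (e + 2 * π) s
    have k3 := mul_le_mul_of_nonneg_left b3 hK
    have k4 := mul_le_mul_of_nonneg_left b4 hK'
    have k5 : 0 ≤ K'' * (MI w u X e c s + MI w u X c (e + 2 * π) s) := by positivity
    unfold FnA
    have e1 : (C1 + C2 + K * C3 + K' * C4) * (1 + Λ) = C1 * (1 + Λ) + C2 * (1 + Λ) -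
      K * -(C3 * (1 + Λ)) - K' * -(C4 * (1 + Λ)) := by ring
    rw [e1]
    linarith
  have hder : ∀ s ∈ Icc 0 t, HasDerivAt (fun s => A * (1 + Λ) - FnA w u X q e c K K' K'' κ s)
      (-(TA (q (el X e c s)) (dq (el X e c s)) (fc w X c s) (el X e c s) +
        K * BNA (fc w X c s) (el X e c s) + K' * BPA (fc w X c s) (el X e c s) +
        K'' * BMA (fc w X c s) (el X e c s) - κ * EA (fc w X c s) (el X e c s))) s := fun s hs =>
    (FnA_der h hq K K' K'' κ ⟨hs.1, hs.2.trans ht.2⟩).const_sub _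
  have hG := EnerA_gron (G := fun s => A * (1 + Λ) - FnA w u X q e c K K' K'' κ s) (b := b) ht.1
    hder (fun s hs => by
      have hsT : s ∈ Icc 0 T := ⟨hs.1, hs.2.trans ht.2⟩
      have s1 := hst (fc w X c s) (el X e c s) (twoA h s hsT (by rw [hmean]; exact hμ0)) (sm_fc h s)
      rw [mean_fc h s hsT, hmean, Ma_fc h s hsT] at s1
      have f1 := hFle s hs
      have f2 := hElow s hs
      have f3 := mul_le_mul_of_nonneg_left f2 hκ1.le
      have n1 := DE.EnerE_MI_nonneg w u X e c s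
      have n2 := DE.EnerE_MI_nonneg w u X c (e + 2 * π) s
      have g1 : 1 / 2 * (MI w u X e c s + MI w u X c (e + 2 * π) s) ≤
          A * (1 + Λ) - FnA w u X q e c K K' K'' κ s := by
        have e1 : A * (1 + Λ) = (C1 + C2 + K * C3 + K' * C4) * (1 + Λ) -
          (κ - 1) * -((2 * C5 + 2 * C6) * (1 + Λ)) := by
          rw [hA]
          ring
        rw [e1]
        nlinarith
      have g2 : C0 * μ * (MI w u X e c s + MI w u X c (e + 2 * π) s) ≤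
          b * (A * (1 + Λ) - FnA w u X q e c K K' K'' κ s) := by
        have g3 := mul_le_mul_of_nonneg_left g1 hb0
        rw [hb] at g3 ⊢
        linarith
      linarith)
  have hF00 : FnA w u X q e c K K' K'' κ 0 = F0 := by
    unfold FnA
    rw [JI_zero, JI_zero, JI_zero, JI_zero, EI_zero, EI_zero, RI_zero w0 h hw,
      DE.EnerE_MI_zero w u X w0 hw, DE.EnerE_MI_zero w u X w0 hw, ← hm1, ← hm2, ← hr0, hF0]
    ring
  rw [hF00] at hG
  have f1 := hFle t ⟨ht.1, le_rfl⟩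
  have n1 := DE.EnerE_MI_nonneg w u X e c t
  have n2 := DE.EnerE_MI_nonneg w u X c (e + 2 * π) t
  have j1 : (κ - 1) * (EI w u X c (e + 2 * π) t - EI w u X e c t) ≤
      A * (1 + Λ) - FnA w u X q e c K K' K'' κ t := by
    have e1 : A * (1 + Λ) = (C1 + C2 + K * C3 + K' * C4) * (1 + Λ) +
      (κ - 1) * (2 * C5 + 2 * C6) * (1 + Λ) := by
      rw [hA]
      ring
    have e2 : 0 ≤ (κ - 1) * (2 * C5 + 2 * C6) * (1 + Λ) := by positivity
    have e3 : 0 ≤ κ / 2 * (MI w u X e c t + MI w u X c (e + 2 * π) t) := by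
      have : 0 ≤ κ := by linarith
      positivity
    linarith
  have j2 : Real.exp (b * t) ≤ Real.exp (b * T0) :=
    Real.exp_le_exp.2 (mul_le_mul_of_nonneg_left (ht.2.trans hTT) hb0)
  have j3 : A * (1 + Λ) - F0 ≤ (A + |F0|) * (1 + Λ) := by
    have := neg_abs_le F0
    have h8 : 0 ≤ |F0| * Λ := by positivity
    nlinarith
  have j4 : Real.exp (b * t) * (A * (1 + Λ) - F0) ≤
      Real.exp (b * T0) * ((A + |F0|) * (1 + Λ)) := by
    refine (mul_le_mul_of_nonneg_left j3 (Real.exp_pos _).le).trans ?_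
    exact mul_le_mul_of_nonneg_right j2 (by positivity)
  rw [div_mul_eq_mul_div, le_div_iff₀ hκ1]
  linarith

theorem ZZ_leA (hS : StatA) (w0 : ℝ → ℝ) (e c : ℝ) (hg : GoodA w0 e c) (T0 : ℝ) :
    ∃ C : ℝ, 0 ≤ C ∧ ∀ (w u : ℝ × ℝ → ℝ) (X : ℝ → ℝ → ℝ) (T : ℝ), Dyn w u X e c T → T ≤ T0 →
      (∀ x, w (0, x) = w0 x) → ∀ t ∈ Icc 0 T, ∀ Λ : ℝ,
      (∀ s ∈ Icc 0 t, ∀ α, |lam u X s α| ≤ Λ) →
      ZZ w u X 0 (2 * π) t ≤ C * (1 + Λ) := by
  obtain ⟨C, hC, hE⟩ := energyA hS w0 e c hg T0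
  obtain ⟨C1, hC1, h1⟩ := DE.EnerE_lin w0 hg.smooth hg.hec.le
  obtain ⟨C2, hC2, h2⟩ := DE.EnerE_lin w0 hg.smooth hg.hce.le
  refine ⟨C + 2 * C1 + 2 * C2, by positivity, ?_⟩
  intro w u X T h hTT hw t ht Λ hΛ
  have htt : t ∈ Icc 0 t := ⟨ht.1, le_rfl⟩
  have hΛ0 : 0 ≤ Λ := (abs_nonneg _).trans (hΛ t htt 0)
  have e1 := DE.EnerE_ZZ h.cs h.fl h.hec.le t (-1) (fun α hα => by
    rw [DynA_sN h α hα]; ring)
  have e2 := DE.EnerE_ZZ h.cs h.fl h.hce.le t 1 (fun α hα => by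
    rw [DynA_sP h α hα]; ring)
  have b1 := (abs_le.1 (h1 w u X h.cs h.fl hw t ht.1 Λ (hΛ t htt))).2
  have b2 := (abs_le.1 (h2 w u X h.cs h.fl hw t ht.1 Λ (hΛ t htt))).1
  have b3 := hE w u X T h hTT hw t ht Λ hΛ
  have hper : Function.Periodic (fun α => |w (0, α)| * lma u X t α ^ 2) (2 * π) := by
    intro α
    show |w (0, α + 2 * π)| * lma u X t (α + 2 * π) ^ 2 = |w (0, α)| * lma u X t α ^ 2
    rw [h.cs.per, lma_per h.cs.vel h.fl]
  have hcont : Continuous fun α => |w (0, α)| * lma u X t α ^ 2 := by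
    have c1 : Continuous fun α => w (0, α) :=
      h.cs.sm.continuous.comp (continuous_const.prodMk continuous_id)
    have c2 : Continuous fun α => lma u X t α :=
      (lma_cont h.cs.vel h.fl).comp (continuous_const.prodMk continuous_id)
    exact c1.abs.mul (c2.pow 2)
  have hsplit : ZZ w u X 0 (2 * π) t = ZZ w u X e c t + ZZ w u X c (e + 2 * π) t := by
    have z1 : ∀ a b : ℝ, a ≤ b → ZZ w u X a b t =
        ∫ α in a..b, |w (0, α)| * lma u X t α ^ 2 := by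
      intro a b hab
      unfold ZZ
      rw [intervalIntegral.integral_of_le hab, integral_Ioc_eq_integral_Ioo]
    have z2 := hper.intervalIntegral_add_eq e 0
    rw [zero_add] at z2
    rw [z1 0 (2 * π) (by positivity), z1 e c h.hec.le, z1 c (e + 2 * π) h.hce.le, ← z2,
      intervalIntegral.integral_add_adjacent_intervals (hcont.intervalIntegrable _ _)
        (hcont.intervalIntegrable _ _)]
  rw [hsplit, e1, e2]
  have e3 : (C + 2 * C1 + 2 * C2) * (1 + Λ) =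
      C * (1 + Λ) + 2 * (C1 * Λ) + 2 * (C2 * Λ) + 2 * C1 + 2 * C2 := by ring
  rw [e3]
  linarith

end Pool.Agent.H90.DA
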