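import Pool.Agent.H90.DA.OneS1
import Pool.Agent.H90.DA.FinA

/-!
# One-signed data (known: Lei, Liu, Ren): the a priori bound and global regularity
-/

set_option autoImplicit false
open Real Set MeasureTheory Filter Topology

namespace Pool.Agent.H90.DA
open Pool.Agent.H45.FL Pool.Agent.H51.DG Pool.Agent.H45.DY Pool.Agent.H90.DC

/-- one-signed data -/
structure GoodS (w0 : ℝ → ℝ) : Prop where
  smooth : ContDiff ℝ ((⊤ : ℕ∞) : WithTop ℕ∞) w0
  per : Function.Periodic w0 (2 * π)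
  pos : ∀ x, 0 ≤ w0 x

/-- a smooth periodic function is bounded together with its derivative -/
lemma OneS_bdd {w0 : ℝ → ℝ} (hg : GoodS w0) :
    ∃ B : ℝ, 0 ≤ B ∧ (∀ x, |w0 x| ≤ B) ∧ ∀ x, |deriv w0 x| ≤ B := by
  have hper' : Function.Periodic (deriv w0) (2 * π) := by
    intro x
    have h1 : (fun y => w0 (y + 2 * π)) = w0 := funext fun y => hg.per y
    rw [← deriv_comp_add_const (f := w0) (2 * π) x, h1]
  have gen : ∀ f : ℝ → ℝ, Continuous f → Function.Periodic f (2 * π) →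
      ∃ B : ℝ, ∀ x, |f x| ≤ B := by
    intro f hf hp
    obtain ⟨B, hB⟩ := (isCompact_Icc (a := (0:ℝ)) (b := 2 * π)).exists_bound_of_continuousOn
      hf.continuousOn
    refine ⟨B, fun x => ?_⟩
    obtain ⟨y, hy, hxy⟩ := hp.exists_mem_Ico₀ (by positivity : (0:ℝ) < 2 * π) x
    rw [hxy, ← Real.norm_eq_abs]
    exact hB y (Ico_subset_Icc_self hy)
  obtain ⟨B1, hB1⟩ := gen w0 hg.smooth.continuous hg.per
  obtain ⟨B2, hB2⟩ := gen (deriv w0) (hg.smooth.continuous_deriv (by simp)) hper'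
  refine ⟨max B1 B2, ?_, fun x => (hB1 x).trans (le_max_left _ _),
    fun x => (hB2 x).trans (le_max_right _ _)⟩
  exact ((abs_nonneg _).trans (hB1 0)).trans (le_max_left _ _)

theorem ZZ_leS (w0 : ℝ → ℝ) (hg : GoodS w0) :
    ∃ C : ℝ, 0 ≤ C ∧ ∀ (w u : ℝ × ℝ → ℝ) (X : ℝ → ℝ → ℝ) (T : ℝ), DynS w u X T →
      (∀ x, w (0, x) = w0 x) → ∀ t ∈ Icc 0 T, ∀ Λ : ℝ,
      (∀ α, |lam u X t α| ≤ Λ) → ZZ w u X 0 (2 * π) t ≤ C * Λ := by
  obtain ⟨C1, hC1, h1⟩ := DE.EnerE_lin w0 hg.smooth (a := 0) (b := 2 * π) (by positivity)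
  refine ⟨2 * C1, by positivity, ?_⟩
  intro w u X T h hw t ht Λ hΛ
  have e1 := DE.EnerE_ZZ h.cs h.fl (a := 0) (b := 2 * π) (by positivity) t 1 (fun α _ => by
    rw [abs_of_nonneg (h.pos α)]; ring)
  have b1 := (abs_le.1 (h1 w u X h.cs h.fl hw t ht.1 Λ hΛ)).1
  rw [e1, EI_zeroS h t ht]
  linarith

lemma OneS_mean {w u : ℝ × ℝ → ℝ} {w0 : ℝ → ℝ} {B : ℝ} (hc : CSol w u)
    (hw : ∀ x, w (0, x) = w0 x) (hB : ∀ x, |w0 x| ≤ B) :
    ∫ x in (0:ℝ)..(2 * π), w (0, x) ≤ 2 * π * B := by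
  have cw : Continuous fun x => w (0, x) :=
    hc.sm.continuous.comp (continuous_const.prodMk continuous_id)
  have h1 : ∫ x in (0:ℝ)..(2 * π), w (0, x) ≤ ∫ _ in (0:ℝ)..(2 * π), B :=
    intervalIntegral.integral_mono_on (by positivity) (cw.intervalIntegrable _ _)
      (continuous_const.intervalIntegrable _ _) (fun x _ => by
        rw [hw]
        exact (le_abs_self _).trans (hB x))
  rw [intervalIntegral.integral_const, smul_eq_mul, sub_zero] at h1
  exact h1

/-- the velocity gradient is bounded by the sup of `lam` -/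
lemma OneS_vel (w0 : ℝ → ℝ) (hg : GoodS w0) :
    ∃ C : ℝ, 0 ≤ C ∧ ∀ (w u : ℝ × ℝ → ℝ) (X : ℝ → ℝ → ℝ) (T : ℝ), DynS w u X T →
      (∀ x, w (0, x) = w0 x) → ∀ t ∈ Icc 0 T, ∀ Λ : ℝ,
      (∀ s ∈ Icc 0 t, ∀ α, |lam u X s α| ≤ Λ) →
      ∀ x, |px u (t, x)| ≤ C * (1 + Λ) := by
  obtain ⟨C, hC, h1⟩ := ZZ_leS w0 hg
  obtain ⟨B, hB0, hB1, hB⟩ := OneS_bdd hg
  refine ⟨100 * (B + B + C), by positivity, fun w u X T hD hw t ht Λ hΛ x => ?_⟩
  have hΛ0 : 0 ≤ Λ := (abs_nonneg _).trans (hΛ 0 ⟨le_rfl, ht.1⟩ 0)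
  have h2 := (vel_leS hD (B := B) (m := B) (fun x => by rw [Fin_px hw]; exact hB x) hB0
    (OneS_mean hD.cs hw hB1) ht x).2
  have h3 := h1 w u X T hD hw t ht Λ (hΛ t ⟨ht.1, le_rfl⟩)
  have h4 : 0 ≤ B * Λ := mul_nonneg hB0 hΛ0
  nlinarith

theorem lam_leS (w0 : ℝ → ℝ) (hg : GoodS w0) :
    ∃ C : ℝ, 0 ≤ C ∧ ∀ (w u : ℝ × ℝ → ℝ) (X : ℝ → ℝ → ℝ) (T : ℝ), DynS w u X T →
      (∀ x, w (0, x) = w0 x) → ∀ t ∈ Icc 0 T, ∀ α, |lam u X t α| ≤ Real.exp (C * t) := by
  obtain ⟨C, hC, hv⟩ := OneS_vel w0 hg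
  refine ⟨C, hC, fun w u X T hD hw t ht α => ?_⟩
  obtain ⟨K, hK, hb⟩ := hD.cs.vel.px.bdd
  have hbase : ∀ s ∈ Icc 0 T, ∀ β, |lam u X s β| ≤ K * T := by
    intro s hs β
    have h5 : ‖∫ r in (0:ℝ)..s, px u (r, X r β)‖ ≤ K * |s - 0| :=
      intervalIntegral.norm_integral_le_of_norm_le_const fun r _ => by
        rw [Real.norm_eq_abs]
        exact hb (r, X r β)
    rw [Real.norm_eq_abs, sub_zero, abs_of_nonneg hs.1] at h5
    exact h5.trans (mul_le_mul_of_nonneg_left hs.2 hK)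
  have hind : ∀ n : ℕ, ∀ s ∈ Icc 0 T, ∀ β, |lam u X s β| ≤
      Real.exp (C * s) - 1 + K * T * ((C * s) ^ n / n.factorial) := by
    intro n
    induction n with
    | zero =>
      intro s hs β
      have h1 := hbase s hs β
      have h2 : 1 ≤ Real.exp (C * s) := Real.one_le_exp (mul_nonneg hC hs.1)
      simp only [pow_zero, Nat.factorial_zero, Nat.cast_one, div_one, mul_one]
      linarith
    | succ n ih =>
      intro s hs β
      have key := image_norm_le_of_norm_deriv_right_le_deriv_boundary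
        (f := fun r => lam u X r β) (f' := fun r => px u (r, X r β)) (a := 0) (b := s)
        (fun r _ => (lam_hasDerivAt_t hD.cs.vel hD.fl r β).continuousAt.continuousWithinAt)
        (fun r _ => (lam_hasDerivAt_t hD.cs.vel hD.fl r β).hasDerivWithinAt)
        (B := fun s : ℝ => Real.exp (C * s) - 1 +
          K * T * ((C * s) ^ (n + 1) / (n + 1).factorial))
        (B' := fun s : ℝ => C * (Real.exp (C * s) + K * T * ((C * s) ^ n / n.factorial)))
        (by
          simp [lam_zero])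
        (fun r => Fin_step n r)
        (fun r hr => by
          have hr' : r ∈ Icc 0 T := ⟨hr.1, hr.2.le.trans hs.2⟩
          have h1 := hv w u X T hD hw r hr' _ (fun s' hs' γ =>
            (ih s' ⟨hs'.1, hs'.2.trans hr'.2⟩ γ).trans
              (FinA_mono hC (mul_nonneg hK hD.hT) n hs'.1 hs'.2)) (X r β)
          rw [Real.norm_eq_abs]
          refine h1.trans (le_of_eq ?_)
          ring)
      have h2 := key ⟨hs.1, le_rfl⟩
      rw [Real.norm_eq_abs] at h2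
      exact h2
  have hlim : Tendsto (fun n : ℕ => Real.exp (C * t) - 1 +
      K * T * ((C * t) ^ n / n.factorial)) atTop (𝓝 (Real.exp (C * t) - 1 + K * T * 0)) :=
    tendsto_const_nhds.add
      (tendsto_const_nhds.mul (FloorSemiring.tendsto_pow_div_factorial_atTop (C * t)))
  have h3 := ge_of_tendsto' hlim (fun n => hind n t ht α)
  linarith

theorem h1_leS (w0 : ℝ → ℝ) (hg : GoodS w0) (T : ℝ) :
    ∃ N : ℝ, ∀ (w u : ℝ × ℝ → ℝ) (X : ℝ → ℝ → ℝ) (T' : ℝ), DynS w u X T' → T' ≤ T →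
      (∀ x, w (0, x) = w0 x) → ∀ t ∈ Icc 0 T', H1 (fun x => w (t, x)) ≤ N := by
  obtain ⟨C, hC, hlam⟩ := lam_leS w0 hg
  obtain ⟨D, hD0, hZ⟩ := ZZ_leS w0 hg
  obtain ⟨B, hB0, hBw, hB⟩ := OneS_bdd hg
  set Λ := Real.exp (C * T) with hΛd
  have hΛ0 : 0 < Λ := Real.exp_pos _
  set Z0 := B + D * Λ with hZ0d
  have hpi := Real.pi_pos
  refine ⟨(4 * π * (B + Z0)) ^ 2 * (2 * π) +
    Real.exp Λ * (2 * B ^ 2 * (2 * π) + 2 * B * Z0), fun w u X T' hDy hT' hw t ht => ?_⟩
  have hLs : ∀ s ∈ Icc 0 t, ∀ α, |lam u X s α| ≤ Λ := by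
    intro s hs α
    refine (hlam w u X T' hDy hw s ⟨hs.1, hs.2.trans ht.2⟩ α).trans ?_
    exact Real.exp_le_exp.2 (mul_le_mul_of_nonneg_left (hs.2.trans (ht.2.trans hT')) hC)
  have hL : ∀ α, |lam u X t α| ≤ Λ := hLs t ⟨ht.1, le_rfl⟩
  have hZt : ZZ w u X 0 (2 * π) t ≤ D * Λ := hZ w u X T' hDy hw t ht Λ hL
  have hZn : 0 ≤ ZZ w u X 0 (2 * π) t := by
    unfold ZZ
    exact integral_nonneg fun α => mul_nonneg (abs_nonneg _) (sq_nonneg _)
  have hpB : ∀ x, |px w (0, x)| ≤ B := fun x => by rw [Fin_px hw]; exact hB x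
  have hwM : ∀ x, |w (t, x)| ≤ 4 * π * (B + Z0) := by
    intro x
    refine (vel_leS hDy hpB hB0 (OneS_mean hDy.cs hw hBw) ht x).1.trans ?_
    have h1 : B + B + ZZ w u X 0 (2 * π) t ≤ B + Z0 := by linarith
    exact mul_le_mul_of_nonneg_left h1 (by positivity)
  have hM0 : 0 ≤ 4 * π * (B + Z0) := (abs_nonneg _).trans (hwM 0)
  have cwt : Continuous fun x => w (t, x) := DynL_cont hDy.cs.sm t
  have cpt : Continuous fun x => px w (t, x) := DynL_cont (smooth_px w hDy.cs.sm) t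
  have cw : Continuous fun α => w (0, α) := DynL_cont hDy.cs.sm 0
  have cpx : Continuous fun α => px w (0, α) := DynL_cont (smooth_px w hDy.cs.sm) 0
  have cl : Continuous fun α => lam u X t α :=
    (lam_cont hDy.cs.vel hDy.fl).comp (continuous_const.prodMk continuous_id)
  have cm : Continuous fun α => lma u X t α :=
    (lma_cont hDy.cs.vel hDy.fl).comp (continuous_const.prodMk continuous_id)
  have h2pi : (0:ℝ) ≤ 2 * π := by positivity
  unfold H1
  have part1 : ∫ x in (0:ℝ)..(2 * π), w (t, x) ^ 2 ≤ (4 * π * (B + Z0)) ^ 2 * (2 * π) := by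
    have h1 : ∫ x in (0:ℝ)..(2 * π), w (t, x) ^ 2 ≤
        ∫ _ in (0:ℝ)..(2 * π), (4 * π * (B + Z0)) ^ 2 := by
      refine intervalIntegral.integral_mono_on h2pi ((cwt.pow 2).intervalIntegrable _ _)
        (continuous_const.intervalIntegrable _ _) (fun x _ => ?_)
      exact sq_le_sq' (by linarith [neg_le_of_abs_le (hwM x)]) (le_of_abs_le (hwM x))
    rw [intervalIntegral.integral_const, smul_eq_mul, sub_zero] at h1
    linarith
  have part2 : ∫ x in (0:ℝ)..(2 * π), (deriv (fun x => w (t, x)) x) ^ 2 ≤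
      Real.exp Λ * (2 * B ^ 2 * (2 * π) + 2 * B * Z0) := by
    have e1 := chg hDy.cs hDy.fl t ht.1 (fun x => px w (t, x) ^ 2) (cpt.pow 2) 0 (2 * π)
    have e3 : ∫ x in (X t 0)..(X t (2 * π)), px w (t, x) ^ 2 =
        ∫ x in (0:ℝ)..(2 * π), px w (t, x) ^ 2 := by
      have hp : Function.Periodic (fun x => px w (t, x) ^ 2) (2 * π) := by
        intro x
        show px w (t, x + 2 * π) ^ 2 = px w (t, x) ^ 2
        rw [HTd_per hDy.cs.per]
      have h1 := Flow.per hDy.cs.vel hDy.fl t 0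
      rw [zero_add] at h1
      have h2 := hp.intervalIntegral_add_eq (X t 0) 0
      rw [zero_add] at h2
      rw [h1, h2]
    rw [e3] at e1
    have e2 : ∫ x in (0:ℝ)..(2 * π), (deriv (fun x => w (t, x)) x) ^ 2 =
        ∫ x in (0:ℝ)..(2 * π), px w (t, x) ^ 2 := rfl
    rw [e2, e1]
    have cZ : Continuous fun α => |w (0, α)| * lma u X t α ^ 2 := cw.abs.mul (cm.pow 2)
    have h1 : ∫ α in (0:ℝ)..(2 * π), px w (t, X t α) ^ 2 * Real.exp (lam u X t α) ≤
        ∫ α in (0:ℝ)..(2 * π), (Real.exp Λ * (2 * B ^ 2) +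
          Real.exp Λ * (2 * B) * (|w (0, α)| * lma u X t α ^ 2)) := by
      have cXt : Continuous fun α => X t α :=
        (Flow.cont hDy.cs.vel hDy.fl).comp (continuous_const.prodMk continuous_id)
      refine intervalIntegral.integral_mono_on h2pi
        ((((cpt.comp cXt).pow 2).mul (Real.continuous_exp.comp cl)).intervalIntegrable _ _)
        ((continuous_const.add (continuous_const.mul cZ)).intervalIntegrable _ _)
        (fun α _ => ?_)
      rw [wx_along hDy.cs hDy.fl t α ht.1]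
      have a1 : Real.exp (lam u X t α) ≤ Real.exp Λ :=
        Real.exp_le_exp.2 (le_of_abs_le (hL α))
      have a2 : px w (0, α) ^ 2 ≤ B ^ 2 :=
        sq_le_sq' (by linarith [neg_le_of_abs_le (hpB α)]) (le_of_abs_le (hpB α))
      have a3 : (w (0, α) * lma u X t α) ^ 2 ≤ B * (|w (0, α)| * lma u X t α ^ 2) := by
        have a4 : w (0, α) ^ 2 = |w (0, α)| * |w (0, α)| := by rw [← sq, sq_abs]
        have a5 : |w (0, α)| ≤ B := by rw [hw]; exact hBw α
        have a6 : 0 ≤ |w (0, α)| * lma u X t α ^ 2 := mul_nonneg (abs_nonneg _) (sq_nonneg _)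
        rw [mul_pow, a4]
        have a7 := mul_le_mul_of_nonneg_right a5 a6
        linarith
      have a8 : (px w (0, α) + w (0, α) * lma u X t α) ^ 2 ≤
          2 * px w (0, α) ^ 2 + 2 * (w (0, α) * lma u X t α) ^ 2 := by
        nlinarith [sq_nonneg (px w (0, α) - w (0, α) * lma u X t α)]
      have a9 : (px w (0, α) + w (0, α) * lma u X t α) ^ 2 ≤
          2 * B ^ 2 + 2 * (B * (|w (0, α)| * lma u X t α ^ 2)) := by linarith
      have a10 := mul_le_mul a9 a1 (Real.exp_pos _).le ((sq_nonneg _).trans a9)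
      refine a10.trans (le_of_eq ?_)
      ring
    have i1 : IntervalIntegrable (fun α => Real.exp Λ * (2 * B) *
        (|w (0, α)| * lma u X t α ^ 2)) volume 0 (2 * π) :=
      (continuous_const.mul cZ).intervalIntegrable _ _
    rw [intervalIntegral.integral_add (continuous_const.intervalIntegrable _ _) i1,
      intervalIntegral.integral_const, intervalIntegral.integral_const_mul, smul_eq_mul,
      sub_zero] at h1
    have h2 : ∫ α in (0:ℝ)..(2 * π), |w (0, α)| * lma u X t α ^ 2 = ZZ w u X 0 (2 * π) t := by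
      unfold ZZ
      rw [intervalIntegral.integral_of_le h2pi, integral_Ioc_eq_integral_Ioo]
    rw [h2] at h1
    have h3 : Real.exp Λ * (2 * B) * ZZ w u X 0 (2 * π) t ≤ Real.exp Λ * (2 * B) * Z0 :=
      mul_le_mul_of_nonneg_left (hZt.trans (by linarith)) (by positivity)
    linarith
  exact add_le_add part1 part2


theorem aprioriS (w0 : ℝ → ℝ) (hg : GoodS w0) (T : ℝ) :
    APriori w0 T := by
  obtain ⟨N, hN⟩ := h1_leS w0 hg T
  refine ⟨N, fun a b w u ha hb hbT hSol hw0 t ht => ?_⟩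
  have hT'0 : 0 ≤ (t + b) / 2 := by linarith [ht.1]
  have hT'b : (t + b) / 2 < b := by linarith [ht.2]
  obtain ⟨W, U, hC, hW, hU⟩ := cut_sol a b w u hSol ha ((t + b) / 2) hT'0 hT'b
  obtain ⟨X, hX⟩ := flow_exists hC.vel
  have h0mem : (0:ℝ) ∈ Icc 0 ((t + b) / 2) := ⟨le_rfl, hT'0⟩
  have htmem : t ∈ Icc 0 ((t + b) / 2) := ⟨ht.1, by linarith [ht.2]⟩
  have hW0 : ∀ x, W (0, x) = w0 x := fun x => by rw [hW 0 h0mem, hw0]
  have hD : DynS W U X ((t + b) / 2) :=
    { cs := hC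
      fl := hX
      pos := fun x => by rw [hW0]; exact hg.pos x
      hT := hT'0
      hu := fun s hs x => by
        have h1 : (fun y => U (s, y)) = fun y => u (s, y) := funext fun y => hU s hs y
        have h2 : (fun y => W (s, y)) = fun y => w (s, y) := funext fun y => hW s hs y
        show deriv (fun y => U (s, y)) x = HT (fun y => W (s, y)) x
        rw [h1, h2]
        exact hSol.hu s ⟨by linarith [hs.1], by linarith [hs.2]⟩ x }
  have key := hN W U X _ hD (by linarith) hW0 t ⟨ht.1, by linarith [ht.2]⟩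
  have h3 : (fun x => w (t, x)) = fun x => W (t, x) := funext fun x => (hW t htmem x).symm
  rw [h3]
  exact key

theorem mainS (w0 : ℝ → ℝ) (hg : GoodS w0) : GlobalSmooth w0 :=
  Pool.Agent.H45.DGL.global_of_apriori w0 hg.smooth hg.per
    (fun T _ => aprioriS w0 hg T)

/-- nonpositive data -/
theorem mainS' (w0 : ℝ → ℝ) (smooth : ContDiff ℝ ((⊤ : ℕ∞) : WithTop ℕ∞) w0)
    (per : Function.Periodic w0 (2 * π)) (neg : ∀ x, w0 x ≤ 0) : GlobalSmooth w0 := by
  refine reflect w0 (mainS (fun x => -w0 (-x)) ⟨(smooth.comp contDiff_neg).neg, ?_, ?_⟩)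
  · intro x
    show -w0 (-(x + 2 * π)) = -w0 (-x)
    rw [← per (-(x + 2 * π))]
    congr 2
    ring
  · intro x
    have h1 := neg (-x)
    show 0 ≤ -w0 (-x)
    linarith

end Pool.Agent.H90.DA
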