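import Pool.Agent.H90.DA.MainA
import Pool.Agent.H90.DA.OneS
import Pool.Agent.H45.DY.KFold

/-!
# Class (A) together with one-signed data: at most two sign changes per period, `n`-fold
-/

set_option autoImplicit false
open Real Set

namespace Pool.Agent.H90.DA
open Pool.Agent.H51.DG

/-- at most two sign changes per period `2π`: `w0 ≤ 0` on `[e,c]`, `w0 ≥ 0` on `[c,e+2π]`, `e ≤ c ≤ e+2π` -/
theorem twoSign (hS : StatA) (w0 : ℝ → ℝ) (e c : ℝ)
    (smooth : ContDiff ℝ ((⊤ : ℕ∞) : WithTop ℕ∞) w0) (per : Function.Periodic w0 (2 * π))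
    (hec : e ≤ c) (hce : c ≤ e + 2 * π) (neg : ∀ x ∈ Icc e c, w0 x ≤ 0)
    (pos : ∀ x ∈ Icc c (e + 2 * π), 0 ≤ w0 x) : GlobalSmooth w0 := by
  rcases hec.lt_or_eq with h1 | h1
  · rcases hce.lt_or_eq with h2 | h2
    · exact mainA' hS w0 e c smooth per h1 h2 neg pos
    · refine mainS' w0 smooth per fun x => ?_
      obtain ⟨y, hy, hxy⟩ := per.exists_mem_Ico (by positivity : (0:ℝ) < 2 * π) x e
      rw [hxy]
      exact neg y ⟨hy.1, by rw [h2]; exact hy.2.le⟩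
  · refine mainS w0 ⟨smooth, per, fun x => ?_⟩
    obtain ⟨y, hy, hxy⟩ := per.exists_mem_Ico (by positivity : (0:ℝ) < 2 * π) x e
    rw [hxy]
    exact pos y ⟨by rw [← h1]; exact hy.1, hy.2.le⟩

/-- `n`-fold version -/
theorem twoSignN (hS : StatA) (n : ℕ) (hn : 1 ≤ n) (w0 : ℝ → ℝ) (e c : ℝ)
    (smooth : ContDiff ℝ ((⊤ : ℕ∞) : WithTop ℕ∞) w0) (per : Function.Periodic w0 (2 * π / n))
    (hec : e ≤ c) (hce : c ≤ e + 2 * π / n) (neg : ∀ x ∈ Icc e c, w0 x ≤ 0)
    (pos : ∀ x ∈ Icc c (e + 2 * π / n), 0 ≤ w0 x) : GlobalSmooth w0 := by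
  have hn0 : (0 : ℝ) < n := by exact_mod_cast hn
  have hn1 : (n : ℝ) ≠ 0 := hn0.ne'
  have hg : GlobalSmooth (fun x => w0 (x / n)) := by
    refine twoSign hS _ (n * e) (n * c) (smooth.comp (contDiff_id.div_const _)) ?_ ?_ ?_ ?_ ?_
    · intro x
      show w0 ((x + 2 * π) / n) = w0 (x / n)
      rw [add_div, per]
    · exact mul_le_mul_of_nonneg_left hec hn0.le
    · have h1 := mul_le_mul_of_nonneg_left hce hn0.le
      have h2 : (n : ℝ) * (e + 2 * π / n) = n * e + 2 * π := by field_simp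
      linarith
    · intro x hx
      refine neg _ ⟨?_, ?_⟩
      · rw [le_div_iff₀ hn0]; linarith [hx.1]
      · rw [div_le_iff₀ hn0]; linarith [hx.2]
    · intro x hx
      refine pos _ ⟨?_, ?_⟩
      · rw [le_div_iff₀ hn0]; linarith [hx.1]
      · rw [div_le_iff₀ hn0]
        have h2 : (e + 2 * π / n) * (n : ℝ) = n * e + 2 * π := by field_simp
        linarith [hx.2]
  have h1 := Pool.Agent.H45.DY.kfold _ hg n hn
  have h2 : (fun x : ℝ => w0 ((n : ℝ) * x / n)) = w0 := by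
    funext x
    rw [mul_div_cancel_left₀ x hn1]
  rw [h2] at h1
  exact h1

end Pool.Agent.H90.DA
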