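import Pool.Agent.H53.DA.Tr
import Pool.Agent.H53.DA.EAker
import Pool.Agent.H53.DE.Lim
import Pool.Agent.H90.DA.DynA

/-!
# DA: from functions vanishing near the zeros to smooth functions, `StatV → StatA`

`thr δ ε t = (t-δ)⁺ - (-t-ε)⁺`: the truncated function has the same Lipschitz constant, the same signs, vanishes near the
zeros, and `δ` is chosen (depending on `ε` and `f`) such that the mean stays nonnegative.
-/

set_option autoImplicit false
open Real Set MeasureTheory Filter Topology

namespace Pool.Agent.H90.DA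
open Pool.Agent.H45.FL Pool.Agent.H51.DG Pool.Agent.H45.DY Pool.Agent.H90.DC Pool.Agent.H53.DA

/-- two thresholds -/
noncomputable def thr (δ ε t : ℝ) : ℝ := max (t - δ) 0 - max (-t - ε) 0

theorem thr_pos {δ ε t : ℝ} (hε : 0 ≤ ε) (h : 0 ≤ t) : thr δ ε t = max (t - δ) 0 := by
  unfold thr
  rw [max_eq_right (by linarith : -t - ε ≤ 0), sub_zero]

theorem thr_neg {δ ε t : ℝ} (hδ : 0 ≤ δ) (h : t ≤ 0) : thr δ ε t = -max (-t - ε) 0 := by
  unfold thr
  rw [max_eq_right (by linarith : t - δ ≤ 0), zero_sub]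

theorem thr_lip {δ ε : ℝ} (hδ : 0 ≤ δ) (hε : 0 ≤ ε) (s t : ℝ) :
    |thr δ ε s - thr δ ε t| ≤ |s - t| := by
  have key : ∀ s t : ℝ, s ≤ t → thr δ ε s ≤ thr δ ε t ∧ thr δ ε t - thr δ ε s ≤ t - s := by
    intro s t h
    unfold thr
    have a1 : max (s - δ) 0 ≤ max (t - δ) 0 := max_le_max_right 0 (by linarith)
    have a2 : max (-t - ε) 0 ≤ max (-s - ε) 0 := max_le_max_right 0 (by linarith)
    refine ⟨by linarith, ?_⟩
    rcases le_total (s - δ) 0 with h1 | h1 <;> rcases le_total (t - δ) 0 with h2 | h2 <;>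
      rcases le_total (-s - ε) 0 with h3 | h3 <;> rcases le_total (-t - ε) 0 with h4 | h4 <;>
      simp only [max_eq_left, max_eq_right, h1, h2, h3, h4] <;> linarith
  rcases le_total s t with h | h
  · obtain ⟨h1, h2⟩ := key s t h
    rw [abs_sub_comm, abs_sub_comm s t, abs_of_nonneg (by linarith), abs_of_nonneg (by linarith)]
    exact h2
  · obtain ⟨h1, h2⟩ := key t s h
    rw [abs_of_nonneg (by linarith), abs_of_nonneg (by linarith)]
    exact h2

theorem thr_zero {δ ε t : ℝ} (h1 : t ≤ δ) (h2 : -t ≤ ε) : thr δ ε t = 0 := by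
  unfold thr
  rw [max_eq_right (by linarith), max_eq_right (by linarith), sub_zero]

theorem thr_abs {δ ε : ℝ} (hδ : 0 ≤ δ) (hε : 0 ≤ ε) (t : ℝ) : |thr δ ε t| ≤ |t| := by
  have h := thr_lip hδ hε t 0
  rw [thr_zero (t := 0) hδ (by simpa using hε), sub_zero, sub_zero] at h
  exact h

theorem thr_sub {δ ε κ : ℝ} (hδ : 0 ≤ δ) (hε : 0 ≤ ε) (h1 : δ ≤ κ) (h2 : ε ≤ κ) (t : ℝ) :
    |thr δ ε t - t| ≤ κ := by
  rcases le_total 0 t with h | h
  · rw [thr_pos hε h, abs_le]
    rcases le_total (t - δ) 0 with h3 | h3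
    · rw [max_eq_right h3]
      constructor <;> linarith
    · rw [max_eq_left h3]
      constructor <;> linarith
  · rw [thr_neg hδ h, abs_le]
    rcases le_total (-t - ε) 0 with h3 | h3
    · rw [max_eq_right h3]
      constructor <;> linarith
    · rw [max_eq_left h3]
      constructor <;> linarith

/-- the mean of the truncated function -/
theorem thr_mean {f : ℝ → ℝ} (hc : Continuous f) (hm : 0 ≤ ∫ x in (0:ℝ)..(2 * π), f x) (ε : ℝ)
    (hε : 0 < ε) : ∃ δ : ℝ, 0 < δ ∧ δ ≤ ε ∧ 0 ≤ ∫ x in (0:ℝ)..(2 * π), thr δ ε (f x) := by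
  have hpi := Real.pi_pos
  have h2pi : (0:ℝ) ≤ 2 * π := by positivity
  obtain ⟨m, hmd⟩ : ∃ m, m = ∫ x in (0:ℝ)..(2 * π), min (max (-f x) 0) ε := ⟨_, rfl⟩
  have hcm : Continuous fun x => min (max (-f x) 0) ε := (hc.neg.max continuous_const).min
    continuous_const
  have hm0 : 0 ≤ m := by
    rw [hmd]
    exact intervalIntegral.integral_nonneg h2pi fun x _ => le_min (le_max_right _ _) hε.le
  have hct : ∀ δ, Continuous fun x => thr δ ε (f x) := fun δ =>
    ((hc.sub continuous_const).max continuous_const).sub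
      ((hc.neg.sub continuous_const).max continuous_const)
  rcases hm0.eq_or_lt with h0 | h0
  · -- `f ≥ 0` on the period
    refine ⟨ε, hε, le_rfl, ?_⟩
    have hz : ∀ x ∈ Icc (0:ℝ) (2 * π), min (max (-f x) 0) ε = 0 := by
      intro x hx
      by_contra hne
      have h1 : 0 < min (max (-f x) 0) ε :=
        lt_of_le_of_ne (le_min (le_max_right _ _) hε.le) (Ne.symm hne)
      have h2 : 0 < ∫ x in (0:ℝ)..(2 * π), min (max (-f x) 0) ε :=
        intervalIntegral.integral_pos (by positivity) hcm.continuousOn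
          (fun y _ => le_min (le_max_right _ _) hε.le) ⟨x, hx, h1⟩
      rw [← hmd] at h2
      linarith
    refine intervalIntegral.integral_nonneg h2pi fun x hx => ?_
    have h1 := hz x hx
    have h2 : 0 ≤ f x := by
      by_contra hn
      rw [not_le] at hn
      have h3 : 0 < min (max (-f x) 0) ε := lt_min (lt_max_of_lt_left (by linarith)) hε
      linarith
    rw [thr_pos hε.le h2]
    exact le_max_right _ _
  · refine ⟨min ε (m / (2 * π)), lt_min hε (by positivity), min_le_left _ _, ?_⟩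
    obtain ⟨δ, hδ⟩ : ∃ δ, δ = min ε (m / (2 * π)) := ⟨_, rfl⟩
    rw [← hδ]
    have hδ0 : 0 < δ := by rw [hδ]; exact lt_min hε (by positivity)
    have hδm : δ * (2 * π) ≤ m := by
      have h1 : δ ≤ m / (2 * π) := by rw [hδ]; exact min_le_right _ _
      rwa [le_div_iff₀ (by positivity)] at h1
    have hpt : ∀ x ∈ Icc (0:ℝ) (2 * π), f x + min (max (-f x) 0) ε - δ ≤ thr δ ε (f x) := by
      intro x _
      rcases le_total 0 (f x) with h | h
      · rw [thr_pos hε.le h, max_eq_right (by linarith : -f x ≤ 0), min_eq_left hε.le]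
        have := le_max_left (f x - δ) 0
        linarith
      · rw [thr_neg hδ0.le h, max_eq_left (by linarith : 0 ≤ -f x)]
        rcases le_total (-f x) ε with h1 | h1
        · rw [min_eq_left h1, max_eq_right (by linarith)]
          linarith
        · rw [min_eq_right h1, max_eq_left (by linarith)]
          linarith
    have hca : Continuous fun x => f x + min (max (-f x) 0) ε := hc.add hcm
    have hcs : Continuous fun x => f x + min (max (-f x) 0) ε - δ := hca.sub continuous_const
    have h1 := intervalIntegral.integral_mono_on h2pi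
      (hcs.intervalIntegrable (μ := volume) 0 (2 * π))
      ((hct δ).intervalIntegrable (μ := volume) 0 (2 * π)) hpt
    refine le_trans ?_ h1
    have e1 : ∫ x in (0:ℝ)..(2 * π), (f x + min (max (-f x) 0) ε - δ) =
        (∫ x in (0:ℝ)..(2 * π), (f x + min (max (-f x) 0) ε)) - ∫ _ in (0:ℝ)..(2 * π), δ :=
      intervalIntegral.integral_sub (hca.intervalIntegrable _ _)
        (continuous_const.intervalIntegrable _ _)
    have e2 : ∫ x in (0:ℝ)..(2 * π), (f x + min (max (-f x) 0) ε) =
        (∫ x in (0:ℝ)..(2 * π), f x) + m := by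
      rw [hmd]
      exact intervalIntegral.integral_add (hc.intervalIntegrable _ _)
        (hcm.intervalIntegrable _ _)
    rw [e1, e2, intervalIntegral.integral_const, smul_eq_mul]
    linarith

/-- the integrand of `Gq` -/
noncomputable def GQ (q : ℝ) (V : ℝ → ℝ) (x : ℝ) : ℝ :=
  V x * (2 * HT V x * Pq q x + UU V x * dPq q x)

theorem GQ_zero {q : ℝ} {V : ℝ → ℝ} {x : ℝ} (h : ct x ≤ q) : GQ q V x = 0 := by
  unfold GQ Pq dPq
  rw [max_eq_right (by linarith)]
  ring

theorem GQ_bound {q K : ℝ} {V : ℝ → ℝ} (hq : 0 ≤ q) (h : Lip K V) (hV : V 0 = 0) {x : ℝ}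
    (h0 : 0 < x) (h1 : x < 2 * π) :
    |GQ q V x| ≤ (204 + 11 * q) * K ^ 2 * (1 + |Real.log x|) := by
  have hpi := Real.pi_pos
  have hK := h.nonneg
  have hlog : 0 ≤ |Real.log x| := abs_nonneg _
  have hR : 0 ≤ (204 + 11 * q) * K ^ 2 * (1 + |Real.log x|) := by positivity
  rcases le_or_gt (ct x) q with hc | hc
  · rw [GQ_zero hc, abs_zero]
    exact hR
  · have hxp : x < π := by
      by_contra hn
      rw [not_lt] at hn
      have hs : 0 < Real.sin (x / 2) := Real.sin_pos_of_pos_of_lt_pi (by linarith) (by linarith)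
      have : ct x ≤ 0 := by
        refine div_nonpos_of_nonpos_of_nonneg ?_ hs.le
        exact Real.cos_nonpos_of_pi_div_two_le_of_le (by linarith) (by linarith)
      linarith
    have e1 : GQ q V x = Pool.Agent.H53.DE.GI 0 V x +
        V x * (2 * HT V x * (-(q * ct x) / 2 + q ^ 2 / 4) + UU V x * (q * (1 + ct x ^ 2) / 4)) := by
      unfold GQ Pq dPq Pool.Agent.H53.DE.GI dPh
      rw [max_eq_left (by linarith)]
      ring
    have b1 := Pool.Agent.H53.DE.GI_bound h hV 0 h0 hxp.le
    have hVx : |V x| ≤ K * x := by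
      have := h x 0
      rwa [hV, sub_zero, sub_zero, abs_of_pos h0] at this
    have hHT := abs_HT_le h x
    have hUU : |UU V x| ≤ 2 * K * x := by
      unfold UU
      have h2 := intervalIntegral.norm_integral_le_of_norm_le_const (a := 0) (b := x)
        (f := fun y => HT V y) (C := 2 * K) (fun y _ => by
          rw [Real.norm_eq_abs]
          exact abs_HT_le h y)
      rw [Real.norm_eq_abs, sub_zero, abs_of_pos h0] at h2
      exact h2
    have hct := HInt_ct_le h0 hxp
    have hct0 := HInt_ct_pos h0 hxp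
    have c1 : |(-(q * ct x) / 2 + q ^ 2 / 4)| ≤ q / x := by
      have h2 : q * ct x ≤ q * (2 / x) := mul_le_mul_of_nonneg_left hct hq
      have h3 : q * (2 / x) = 2 * (q / x) := by ring
      have h4 : q ^ 2 ≤ q * ct x := by nlinarith
      have h5 : 0 ≤ q ^ 2 := sq_nonneg q
      rw [abs_le]
      constructor <;> nlinarith
    have c2 : |q * (1 + ct x ^ 2) / 4| ≤ q * (1 + 4 / x ^ 2) / 4 := by
      rw [abs_of_nonneg (by positivity)]
      have h2 : ct x ^ 2 ≤ (2 / x) ^ 2 := pow_le_pow_left₀ hct0.le hct 2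
      have h3 : (2 / x) ^ 2 = 4 / x ^ 2 := by
        rw [div_pow]
        norm_num
      rw [h3] at h2
      have h4 := mul_le_mul_of_nonneg_left (add_le_add_right h2 1) hq
      linarith
    have d1 : |V x| * (2 * |HT V x| * |(-(q * ct x) / 2 + q ^ 2 / 4)|) ≤ 4 * K ^ 2 * q := by
      have h2 : 2 * |HT V x| * |(-(q * ct x) / 2 + q ^ 2 / 4)| ≤ 2 * (2 * K) * (q / x) :=
        mul_le_mul (by linarith) c1 (abs_nonneg _) (by positivity)
      have h3 := mul_le_mul hVx h2 (by positivity) (by positivity)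
      refine h3.trans (le_of_eq ?_)
      field_simp
      ring
    have d2 : |V x| * (|UU V x| * |q * (1 + ct x ^ 2) / 4|) ≤ 7 * K ^ 2 * q := by
      have h2 : |UU V x| * |q * (1 + ct x ^ 2) / 4| ≤ 2 * K * x * (q * (1 + 4 / x ^ 2) / 4) :=
        mul_le_mul hUU c2 (abs_nonneg _) (by positivity)
      have h3 := mul_le_mul hVx h2 (by positivity) (by positivity)
      refine h3.trans ?_
      have e2 : K * x * (2 * K * x * (q * (1 + 4 / x ^ 2) / 4)) = K ^ 2 * q * (x ^ 2 + 4) / 2 := by
        field_simp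
        ring
      rw [e2]
      have h5 : x ^ 2 ≤ 10 := by
        have := Real.pi_lt_d2
        nlinarith
      have h6 : 0 ≤ K ^ 2 * q := by positivity
      nlinarith
    rw [e1]
    refine (abs_add_le _ _).trans ?_
    have g1 : |V x * (2 * HT V x * (-(q * ct x) / 2 + q ^ 2 / 4) +
        UU V x * (q * (1 + ct x ^ 2) / 4))| ≤ 11 * K ^ 2 * q := by
      rw [abs_mul]
      have h2 := abs_add_le (2 * HT V x * (-(q * ct x) / 2 + q ^ 2 / 4))
        (UU V x * (q * (1 + ct x ^ 2) / 4))
      rw [abs_mul (2 * HT V x), abs_mul 2 (HT V x), abs_mul (UU V x),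
        abs_of_pos (by norm_num : (0:ℝ) < 2)] at h2
      have h3 := mul_le_mul_of_nonneg_left h2 (abs_nonneg (V x))
      have h4 : |V x| * (2 * |HT V x| * |(-(q * ct x) / 2 + q ^ 2 / 4)| +
          |UU V x| * |q * (1 + ct x ^ 2) / 4|) =
          |V x| * (2 * |HT V x| * |(-(q * ct x) / 2 + q ^ 2 / 4)|) +
          |V x| * (|UU V x| * |q * (1 + ct x ^ 2) / 4|) := mul_add _ _ _
      rw [h4] at h3
      linarith
    have g2 : (200 + 13 * |(0:ℝ) - 1 / 4|) * K ^ 2 * (1 + |Real.log x|) ≤
        204 * K ^ 2 * (1 + |Real.log x|) := by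
      have h2 : |(0:ℝ) - 1 / 4| = 1 / 4 := by norm_num
      rw [h2]
      refine mul_le_mul_of_nonneg_right (mul_le_mul_of_nonneg_right (by norm_num) (sq_nonneg K)) ?_
      positivity
    have g3 : 11 * K ^ 2 * q ≤ 11 * q * K ^ 2 * (1 + |Real.log x|) := by
      have : 0 ≤ 11 * q * K ^ 2 * |Real.log x| := by positivity
      nlinarith
    have e3 : (204 + 11 * q) * K ^ 2 * (1 + |Real.log x|) = 204 * K ^ 2 * (1 + |Real.log x|) +
      11 * q * K ^ 2 * (1 + |Real.log x|) := by ring
    rw [e3]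
    linarith

theorem GQ_meas {K : ℝ} {V : ℝ → ℝ} (h : Lip K V) (q : ℝ) : Measurable (GQ q V) := by
  have hWm : Measurable V := h.continuous.measurable
  have hHm : Measurable (HT V) := (continuous_HT h).measurable
  have hUm : Measurable (UU V) :=
    (continuous_iff_continuousAt.2 fun x => (hasDerivAt_UU h x).continuousAt).measurable
  have hct : Measurable ct := SC_ct_meas
  have hm : Measurable fun x => max (ct x - q) 0 := (hct.sub_const q).max measurable_const
  have hdP : Measurable (dPq q) := by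
    unfold dPq
    exact ((hm.mul (measurable_const.add (hct.pow_const 2))).div_const 4).neg
  have hP : Measurable (Pq q) := by
    unfold Pq
    exact (hm.pow_const 2).div_const 4
  exact hWm.mul (((measurable_const.mul hHm).mul hP).add (hUm.mul hdP))

theorem Gq_tendsto {q K : ℝ} (hq : 0 ≤ q) {V : ℕ → ℝ → ℝ} {W : ℝ → ℝ} (hn : ∀ n, Lip K (V n))
    (ht : ∀ x, Tendsto (fun n => V n x) atTop (𝓝 (W x))) (h0 : ∀ n, V n 0 = 0) {p : ℝ}
    (hp : 0 < p) (hp' : p < 2 * π) :
    Tendsto (fun n : ℕ => Gq q (V n) p) atTop (𝓝 (Gq q W p)) := by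
  show Tendsto (fun n : ℕ => ∫ x in (0:ℝ)..p, GQ q (V n) x) atTop (𝓝 (∫ x in (0:ℝ)..p, GQ q W x))
  refine intervalIntegral.tendsto_integral_filter_of_dominated_convergence
    (fun x : ℝ => (204 + 11 * q) * K ^ 2 * (1 + |Real.log x|)) ?_ ?_ ?_ ?_
  · exact Filter.Eventually.of_forall fun n => (GQ_meas (hn n) q).aestronglyMeasurable
  · refine Filter.Eventually.of_forall fun n => Filter.Eventually.of_forall fun x hx => ?_
    rw [Set.uIoc_of_le hp.le] at hx
    rw [Real.norm_eq_abs]
    exact GQ_bound hq (hn n) (h0 n) hx.1 (hx.2.trans_lt hp')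
  · apply IntervalIntegrable.const_mul
    have h1 : IntervalIntegrable (fun x : ℝ => Real.log x) volume 0 p :=
      intervalIntegral.intervalIntegrable_log'
    exact intervalIntegrable_const.add h1.abs
  · refine Filter.Eventually.of_forall fun x _ => ?_
    exact (ht x).mul ((((HT_tendsto hn ht x).const_mul 2).mul_const _).add
      ((UU_tendsto hn ht x).mul_const _))

/-! ## the function `qk` -/

theorem qk_hd {k l : ℝ} (h0 : 0 < l) (h1 : l < 2 * π) :
    HasDerivAt (fun l => k * (1 / Real.sin (l / 2) - 1))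
      (-(k * Real.cos (l / 2) / (2 * Real.sin (l / 2) ^ 2))) l := by
  have hs : 0 < Real.sin (l / 2) := Real.sin_pos_of_pos_of_lt_pi (by linarith) (by linarith)
  have h2 : HasDerivAt (fun y : ℝ => y / 2) (1 / 2) l := (hasDerivAt_id l).div_const 2
  have hsn : HasDerivAt (fun y : ℝ => Real.sin (y / 2)) (Real.cos (l / 2) * (1 / 2)) l := h2.sin
  have h3 := ((hsn.inv hs.ne').sub_const 1).const_mul k
  have e : (fun l => k * (1 / Real.sin (l / 2) - 1)) =
      fun l => k * ((Real.sin (l / 2))⁻¹ - 1) := by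
    funext y
    rw [one_div]
  rw [e]
  refine h3.congr_deriv ?_
  field_simp

theorem qf_qk {k : ℝ} (hk : 0 ≤ k) : QF (qk k) (dqk k) where
  nn l h0 h1 := by
    unfold qk
    split_ifs with h
    · have hs : 0 < Real.sin (l / 2) := Real.sin_pos_of_pos_of_lt_pi (by linarith) (by linarith)
      have h2 : 1 ≤ 1 / Real.sin (l / 2) := by
        rw [le_div_iff₀ hs, one_mul]
        exact Real.sin_le_one _
      exact mul_nonneg hk (by linarith)
    · exact le_rfl
  der l h0 h1 := by
    have key := qk_hd (k := k) h0 h1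
    rcases lt_trichotomy l π with h | h | h
    · have e : dqk k l = -(k * Real.cos (l / 2) / (2 * Real.sin (l / 2) ^ 2)) := by
        unfold dqk
        rw [if_pos h]
      rw [e]
      refine key.congr_of_eventuallyEq ?_
      filter_upwards [Iio_mem_nhds h] with y hy
      unfold qk
      rw [if_pos (show y < π from hy)]
    · subst h
      have e : dqk k π = 0 := by
        unfold dqk
        rw [if_neg (lt_irrefl _)]
      rw [Real.cos_pi_div_two, mul_zero, zero_div, neg_zero] at key
      have v0 : k * (1 / Real.sin (π / 2) - 1) = 0 := by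
        rw [Real.sin_pi_div_two]
        ring
      have q0 : qk k π = 0 := by
        unfold qk
        rw [if_neg (lt_irrefl _)]
      rw [e, ← hasDerivWithinAt_univ, ← Set.Iic_union_Ici (a := π)]
      refine HasDerivWithinAt.union ?_ ?_
      · refine key.hasDerivWithinAt.congr (fun y hy => ?_) (by rw [q0, v0])
        rcases lt_or_eq_of_le (show y ≤ π from hy) with h2 | h2
        · unfold qk
          rw [if_pos h2]
        · rw [h2, q0, v0]
      · refine (hasDerivWithinAt_const π (Ici π) (0:ℝ)).congr (fun y hy => ?_) q0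
        unfold qk
        rw [if_neg (not_lt.2 hy)]
    · have e : dqk k l = 0 := by
        unfold dqk
        rw [if_neg (not_lt.2 h.le)]
      rw [e]
      refine (hasDerivAt_const l (0:ℝ)).congr_of_eventuallyEq ?_
      filter_upwards [Ioi_mem_nhds h] with y hy
      unfold qk
      rw [if_neg (not_lt.2 (le_of_lt hy))]
  cont := by
    have h1 : ContinuousOn (fun l : ℝ => -(k * max (Real.cos (l / 2)) 0 /
        (2 * Real.sin (l / 2) ^ 2))) (Ioo 0 (2 * π)) := by
      refine ContinuousOn.neg (ContinuousOn.div ?_ ?_ ?_)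
      · exact Continuous.continuousOn (by fun_prop)
      · exact Continuous.continuousOn (by fun_prop)
      · intro l hl
        have hs : 0 < Real.sin (l / 2) := Real.sin_pos_of_pos_of_lt_pi (by linarith [hl.1])
          (by linarith [hl.2])
        positivity
    refine h1.congr fun l hl => ?_
    show dqk k l = -(k * max (Real.cos (l / 2)) 0 / (2 * Real.sin (l / 2) ^ 2))
    unfold dqk
    split_ifs with h
    · rw [max_eq_left (Real.cos_nonneg_of_neg_pi_div_two_le_of_le (by linarith [hl.1, Real.pi_pos])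
        (by linarith))]
    · rw [not_lt] at h
      rw [max_eq_right (Real.cos_nonpos_of_pi_div_two_le_of_le (by linarith)
        (by linarith [hl.2, Real.pi_pos]))]
      simp

/-! ## the truncated functions -/

theorem thr_van {f : ℝ → ℝ} {l K δ ε : ℝ} (h : TwoA f l) (hK : Lip K f) (hδ : 0 < δ) (hε : 0 < ε)
    (hm : 0 ≤ ∫ x in (0:ℝ)..(2 * π), thr δ ε (f x)) : VanA (fun x => thr δ ε (f x)) l := by
  have hK0 := hK.nonneg
  have z : ∀ a : ℝ, f a = 0 → ∀ x, |x - a| ≤ min δ ε / (K + 1) → thr δ ε (f x) = 0 := by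
    intro a ha x hx
    have h1 := hK x a
    rw [ha, sub_zero] at h1
    have h2 : |f x| ≤ min δ ε := by
      calc |f x| ≤ K * |x - a| := h1
        _ ≤ (K + 1) * |x - a| := by nlinarith [abs_nonneg (x - a)]
        _ ≤ (K + 1) * (min δ ε / (K + 1)) := mul_le_mul_of_nonneg_left hx (by linarith)
        _ = min δ ε := by field_simp
    obtain ⟨h3, h4⟩ := abs_le.1 h2
    exact thr_zero (h4.trans (min_le_left _ _)) (by linarith [min_le_right δ ε])
  have hpos : 0 < min δ ε / (K + 1) := div_pos (lt_min hδ hε) (by linarith)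
  have f0 : f 0 = 0 := le_antisymm (h.neg 0 ⟨by linarith [h.l0], le_rfl⟩)
    (h.pos 0 ⟨le_rfl, by linarith [h.l1]⟩)
  have fl : f (-l) = 0 := by
    refine le_antisymm (h.neg (-l) ⟨le_rfl, by linarith [h.l0]⟩) ?_
    rw [← h.per (-l)]
    exact h.pos _ ⟨by linarith [h.l1], by linarith⟩
  refine ⟨⟨fun x => ?_, h.l0, h.l1, fun x hx => ?_, fun x hx => ?_, hm⟩, ⟨K, fun x y => ?_⟩,
    ⟨_, hpos, fun x hx => z 0 f0 x (by rwa [sub_zero])⟩,
    ⟨_, hpos, fun x hx => z (-l) fl x (by rwa [sub_neg_eq_add])⟩⟩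
  · show thr δ ε (f (x + 2 * π)) = thr δ ε (f x)
    rw [h.per x]
  · rw [thr_neg hδ.le (h.neg x hx)]
    exact neg_nonpos.2 (le_max_right _ _)
  · rw [thr_pos hε.le (h.pos x hx)]
    exact le_max_right _ _
  · exact (thr_lip hδ.le hε.le _ _).trans (hK x y)

theorem EAk_tendsto {f : ℝ → ℝ} {l : ℝ} (h : TwoA f l) (hL : ∃ K, Lip K f) {V : ℕ → ℝ → ℝ}
    (hm : ∀ n, Continuous (V n)) (hV : ∀ n x, |V n x| ≤ |f x|)
    (ht : ∀ x, Tendsto (fun n => V n x) atTop (𝓝 (f x))) :
    Tendsto (fun n => EAk (V n) l) atTop (𝓝 (EAk f l)) := by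
  unfold EAk
  refine Tendsto.const_mul _ ?_
  refine tendsto_integral_of_dominated_convergence
    (fun z : ℝ × ℝ => ‖|f z.1| * |f z.2| * ct (z.1 - z.2) ^ 3‖) ?_ (EAk_int h hL).norm ?_ ?_
  · intro n
    have h1 : Measurable fun z : ℝ × ℝ => |V n z.1| * |V n z.2| * ct (z.1 - z.2) ^ 3 :=
      (((hm n).measurable.comp measurable_fst).abs.mul
        ((hm n).measurable.comp measurable_snd).abs).mul
        ((SC_ct_meas.comp (measurable_fst.sub measurable_snd)).pow_const 3)
    exact h1.aestronglyMeasurable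
  · refine fun n => Filter.Eventually.of_forall fun z => ?_
    simp only [norm_mul, Real.norm_eq_abs, abs_abs]
    have h1 := hV n z.1
    have h2 := hV n z.2
    exact mul_le_mul_of_nonneg_right (mul_le_mul h1 h2 (abs_nonneg _) (abs_nonneg _))
      (abs_nonneg _)
  · refine Filter.Eventually.of_forall fun z => ?_
    exact (((ht z.1).abs).mul ((ht z.2).abs)).mul_const _

theorem int_tendsto {f : ℝ → ℝ} {K : ℝ} (hK : Lip K f) {V : ℕ → ℝ → ℝ}
    (hm : ∀ n, Continuous (V n)) (hV : ∀ n x, |V n x| ≤ |f x|)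
    (ht : ∀ x, Tendsto (fun n => V n x) atTop (𝓝 (f x))) :
    Tendsto (fun n => ∫ x in (0:ℝ)..(2 * π), V n x) atTop (𝓝 (∫ x in (0:ℝ)..(2 * π), f x)) ∧
    Tendsto (fun n => Ma (V n)) atTop (𝓝 (Ma f)) := by
  constructor
  · refine intervalIntegral.tendsto_integral_filter_of_dominated_convergence (fun x => |f x|) ?_ ?_
      (hK.continuous.abs.intervalIntegrable _ _) ?_
    · exact Filter.Eventually.of_forall fun n => (hm n).aestronglyMeasurable
    · exact Filter.Eventually.of_forall fun n => Filter.Eventually.of_forall fun x _ => hV n x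
    · exact Filter.Eventually.of_forall fun x _ => ht x
  · unfold Ma
    refine intervalIntegral.tendsto_integral_filter_of_dominated_convergence (fun x => |f x|) ?_ ?_
      (hK.continuous.abs.intervalIntegrable _ _) ?_
    · exact Filter.Eventually.of_forall fun n => (hm n).abs.aestronglyMeasurable
    · refine Filter.Eventually.of_forall fun n => Filter.Eventually.of_forall fun x _ => ?_
      rw [Real.norm_eq_abs, abs_abs]
      exact hV n x
    · exact Filter.Eventually.of_forall fun x _ => (ht x).abs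

/-- the motion integral -/
theorem mot_tendsto {f : ℝ → ℝ} {K : ℝ} (hK : Lip K f) (f0 : f 0 = 0) {V : ℕ → ℝ → ℝ}
    (hm : ∀ n, Continuous (V n)) (hV : ∀ n x, |V n x| ≤ |f x|)
    (ht : ∀ x, Tendsto (fun n => V n x) atTop (𝓝 (f x))) {q p : ℝ} (hq : 0 ≤ q) (hp : 0 < p)
    (hp' : p < 2 * π) :
    Tendsto (fun n => ∫ x in (0:ℝ)..p, V n x * max (ct x - q) 0) atTop
      (𝓝 (∫ x in (0:ℝ)..p, f x * max (ct x - q) 0)) := by
  have hK0 := hK.nonneg
  refine intervalIntegral.tendsto_integral_filter_of_dominated_convergence (fun _ => 2 * K) ?_ ?_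
    intervalIntegrable_const ?_
  · refine Filter.Eventually.of_forall fun n => ?_
    have h1 : Measurable fun x => V n x * max (ct x - q) 0 :=
      (hm n).measurable.mul ((SC_ct_meas.sub_const q).max measurable_const)
    exact h1.aestronglyMeasurable
  · refine Filter.Eventually.of_forall fun n => Filter.Eventually.of_forall fun x hx => ?_
    rw [Set.uIoc_of_le hp.le] at hx
    have hx0 := hx.1
    have hx1 : x < 2 * π := hx.2.trans_lt hp'
    have h1 : |V n x| ≤ K * x := by
      have := hK x 0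
      rw [f0, sub_zero, sub_zero, abs_of_pos hx0] at this
      exact (hV n x).trans this
    have h3 : max (ct x - q) 0 ≤ 2 / x := by
      refine max_le ?_ (by positivity)
      rcases lt_or_ge x π with h4 | h4
      · linarith [HInt_ct_le hx0 h4]
      · have hs : 0 < Real.sin (x / 2) := Real.sin_pos_of_pos_of_lt_pi (by linarith)
          (by linarith)
        have hc : ct x ≤ 0 := by
          refine div_nonpos_of_nonpos_of_nonneg ?_ hs.le
          exact Real.cos_nonpos_of_pi_div_two_le_of_le (by linarith)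
            (by linarith [Real.pi_pos])
        have : 0 < 2 / x := by positivity
        linarith
    rw [Real.norm_eq_abs, abs_mul, abs_of_nonneg (le_max_right (ct x - q) 0)]
    have h5 := mul_le_mul h1 h3 (le_max_right _ _) (by positivity)
    refine h5.trans (le_of_eq ?_)
    field_simp
  · exact Filter.Eventually.of_forall fun x _ => (ht x).mul_const _

theorem statA_of_statV (h : StatV) : StatA := by
  obtain ⟨k, K, C, hk, hK, hC, H⟩ := h
  refine ⟨qk k, dqk k, 17 / 16, K, 0, 0, C, qf_qk hk, by norm_num, hK, le_rfl, le_rfl, hC, ?_⟩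
  intro f l hf hs
  obtain ⟨L, hL⟩ := Pool.Agent.H53.DE.lip_of_contDiff hf.per (hs.of_le (by norm_num))
  have hL0 := hL.nonneg
  have f0 : f 0 = 0 := le_antisymm (hf.neg 0 ⟨by linarith [hf.l0], le_rfl⟩)
    (hf.pos 0 ⟨le_rfl, by linarith [hf.l1]⟩)
  have fl : f (-l) = 0 := by
    refine le_antisymm (hf.neg (-l) ⟨le_rfl, by linarith [hf.l0]⟩) ?_
    rw [← hf.per (-l)]
    exact hf.pos _ ⟨by linarith [hf.l1], by linarith⟩
  have hep : ∀ n : ℕ, 0 < 1 / ((n : ℝ) + 1) := fun n => by positivity
  choose δ hδ0 hδ1 hδm using fun n : ℕ => thr_mean hL.continuous hf.mean (1 / ((n : ℝ) + 1)) (hep n)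
  obtain ⟨V, hVd⟩ : ∃ V : ℕ → ℝ → ℝ, V = fun n x => thr (δ n) (1 / ((n : ℝ) + 1)) (f x) :=
    ⟨_, rfl⟩
  have hVan : ∀ n, VanA (V n) l := fun n => by
    rw [hVd]
    exact thr_van hf hL (hδ0 n) (hep n) (hδm n)
  have hVL : ∀ n, Lip L (V n) := fun n x y => by
    rw [hVd]
    exact (thr_lip (hδ0 n).le (hep n).le _ _).trans (hL x y)
  have hVc : ∀ n, Continuous (V n) := fun n => (hVL n).continuous
  have hVa : ∀ n x, |V n x| ≤ |f x| := fun n x => by
    rw [hVd]
    exact thr_abs (hδ0 n).le (hep n).le _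
  have ht : ∀ x, Tendsto (fun n => V n x) atTop (𝓝 (f x)) := by
    intro x
    have h1 : Tendsto (fun n : ℕ => V n x - f x) atTop (𝓝 0) := by
      refine squeeze_zero_norm (a := fun n : ℕ => 1 / ((n : ℝ) + 1)) (fun n => ?_)
        tendsto_one_div_add_atTop_nhds_zero_nat
      rw [Real.norm_eq_abs, hVd]
      exact thr_sub (hδ0 n).le (hep n).le (hδ1 n) le_rfl (f x)
    have h2 := h1.add_const (f x)
    rw [zero_add] at h2
    refine h2.congr fun n => ?_
    ring
  have v0 : ∀ n, V n 0 = 0 := fun n => by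
    have := hVa n 0
    rw [f0, abs_zero] at this
    exact abs_nonpos_iff.1 this
  have vl : ∀ n, V n (-l) = 0 := fun n => by
    have := hVa n (-l)
    rw [fl, abs_zero] at this
    exact abs_nonpos_iff.1 this
  obtain ⟨t1, t2⟩ := int_tendsto hL hVc hVa ht
  have tE := EAk_tendsto hf ⟨L, hL⟩ hVc hVa ht
  have hq := (qf_qk hk).nn l hf.l0 hf.l1
  have tP := Gq_tendsto hq hVL ht v0 (p := 2 * π - l) (by linarith [hf.l1]) (by linarith [hf.l0])
  have tN := Gq_tendsto (q := 0) le_rfl (V := fun n x => V n (-x)) (W := fun x => f (-x)) (K := L)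
    (fun n x y => by
      have h1 := hVL n (-x) (-y)
      rwa [show -x - -y = -(x - y) by ring, abs_neg] at h1)
    (fun x => ht (-x)) (fun n => by rw [neg_zero]; exact v0 n) hf.l0 hf.l1
  have tB := Gq_tendsto (q := 0) le_rfl (V := fun n x => V n (x - l)) (W := fun x => f (x - l))
    (K := L) (fun n x y => by
      have h1 := hVL n (x - l) (y - l)
      rwa [show x - l - (y - l) = x - y by ring] at h1)
    (fun x => ht (x - l)) (fun n => by rw [zero_sub]; exact vl n) hf.l0 hf.l1
  have tU := UU_tendsto hVL ht (-l)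
  have tM := mot_tendsto hL f0 hVc hVa ht hq (p := 2 * π - l) (by linarith [hf.l1])
    (by linarith [hf.l0])
  have tTA : Tendsto (fun n => TA (qk k l) (dqk k l) (V n) l) atTop
      (𝓝 (TA (qk k l) (dqk k l) f l)) := by
    rw [Pool.Agent.H53.DA.TA_eq hf.per ⟨L, hL⟩]
    have e : (fun n => TA (qk k l) (dqk k l) (V n) l) = fun n =>
        Gq (qk k l) (V n) (2 * π - l) + Gq 0 (fun x => V n (-x)) l +
        1 / 2 * dqk k l * UU (V n) (-l) * ∫ x in (0:ℝ)..(2 * π - l),
          V n x * max (ct x - qk k l) 0 := by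
      funext n
      exact Pool.Agent.H53.DA.TA_eq (hVan n).per ⟨L, hVL n⟩ _ _ _
    rw [e]
    exact (tP.add tN).add (((tU.const_mul _).mul tM))
  have tBN : Tendsto (fun n => BNA (V n) l) atTop (𝓝 (BNA f l)) := by
    rw [Pool.Agent.H53.DA.BNA_eq hf.per ⟨L, hL⟩]
    have e : (fun n => BNA (V n) l) = fun n => Gq 0 (fun x => V n (x - l)) l := by
      funext n
      exact Pool.Agent.H53.DA.BNA_eq (hVan n).per ⟨L, hVL n⟩ _
    rw [e]
    exact tB
  rw [Pool.Agent.H53.DA.EA_kernel hf hs]
  have hlim := le_of_tendsto_of_tendsto' (tE.const_mul (17 / 16))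
    ((tTA.add (tBN.const_mul K)).add ((t1.const_mul C).mul t2)) (fun n => H (V n) l (hVan n))
  linarith

end Pool.Agent.H90.DA
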