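import Pool.Agent.H90.DA.Defs
import Pool.Agent.H90.DC.HInt

/-!
# DA job A4: lower bound with the weight `cot₊²/4` on arcs of length up to `2π`, abstract form

`Vc x = log (sin (x/2))` for `x < π`, `0` for `x ≥ π`; `Vc' x = max (ct x) 0 / 2` on `(0,2π)` (at `π`: both one-sided
derivatives are `0`), `Pq 0 x = Vc' x ^ 2`.  `g α = Vc (Xf α) - Vc α`, `α ∈ (0,p)`, `0 < Xf α < 2π`, `α e^{-Λ} ≤ Xf α ≤ α e^Λ`.
(1) `a (e^{2L} Pq 0 Xf - Pq 0 α) = a ((Vc' α + g')² - Vc' α²) ≥ 2 a Vc' g' = a max (ct α) 0 g'` (`a ≥ 0`).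
(2) `|g| ≤ Λ + 1`.  Upper bound: `α ≥ π`: `Vc (Xf α) ≤ 0 = Vc α`.  `α < π`: `Vc y ≤ log (y/2)` for `0 < y < π`
  (`sin (y/2) ≤ y/2`), `Vc y = 0 ≤ log (y/2)` for `y ≥ π`, so `Vc (Xf α) ≤ log (α/2) + Λ`; `Vc α ≥ log (α/π)`
  (`sin (α/2) ≥ α/π`, `Real.mul_le_sin`), `log (π/2) ≤ 1`.  Lower bound: `Vc y ≥ log (min y π / π)`; `α < π`:
  `min (Xf α) π ≥ α e^{-Λ}`, `Vc (Xf α) ≥ log (α/π) - Λ`, `Vc α ≤ log (α/2)`; `α ≥ π`: `Vc (Xf α) ≥ -Λ`, `Vc α = 0`.
(3) By parts on `(ε, p₁)`, `p₁ = min p π`: `F α = a α ct α g α`, `F' = (a ct)' g + a ct g'` except where `Xf α = π`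
  (at most one point; `MeasureTheory.integral_eq_of_hasDerivAt_off_countable` or the like, or avoid it by proving that `Vc` is
  differentiable at `π`), `F p₁ = 0` (`a p = 0` or `ct π = 0`), `|F ε| ≤ (a ε ct ε) (Λ+1)`, `a ε ct ε ≤ K 2`
  (`a ε ≤ K ε`, `ct ε ≤ 2/ε`), `|(a ct)'| = |a' ct - a (1+ct²)/2| ≤ C` on `(0,p₁)`:
  `|a' α - a/α| ≤ K α`, `|a| ≤ K α`, `0 ≤ 2/α - ct α ≤ α` (private `HPt_ct` in DC/HPt.lean; `(1 + ct²)/2 = ct/α + O(1)`).
  On `(p₁,p)` (if `p > π`) `max (ct α) 0 = 0`.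
(4) So `∫_ε^p a (e^{2L} Pq 0 Xf - Pq 0 α) ≥ -(2K + C p)(1+Λ)`, let `ε → 0` (integrability assumed; see `hcont` in
  DC/HInt.lean for the limit).
-/

set_option autoImplicit false
open Real Set MeasureTheory Filter Topology

namespace Pool.Agent.H90.DA
open Pool.Agent.H45.FL Pool.Agent.H51.DG Pool.Agent.H45.DY Pool.Agent.H90.DC

/-- `log (sin (y/2))` for `y < π`, `0` for `y ≥ π` -/
noncomputable def LowB_V (y : ℝ) : ℝ := if y < π then Real.log (Real.sin (y / 2)) else 0

theorem LowB_ct_pos {x : ℝ} (h0 : 0 < x) (h1 : x < π) : 0 < ct x := by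
  have hs : 0 < Real.sin (x / 2) := Real.sin_pos_of_pos_of_lt_pi (by linarith) (by linarith)
  have hc : 0 < Real.cos (x / 2) := Real.cos_pos_of_mem_Ioo ⟨by linarith, by linarith⟩
  exact div_pos hc hs

theorem LowB_ct_nonpos {x : ℝ} (h0 : π ≤ x) (h1 : x < 2 * π) : ct x ≤ 0 := by
  have hpi := Real.pi_pos
  have hs : 0 < Real.sin (x / 2) := Real.sin_pos_of_pos_of_lt_pi (by linarith) (by linarith)
  have hc : Real.cos (x / 2) ≤ 0 :=
    Real.cos_nonpos_of_pi_div_two_le_of_le (by linarith) (by linarith)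
  exact div_nonpos_of_nonpos_of_nonneg hc hs.le

theorem LowB_log_hd {x : ℝ} (h0 : 0 < x) (h1 : x < 2 * π) :
    HasDerivAt (fun y => Real.log (Real.sin (y / 2))) (ct x / 2) x := by
  have hs : 0 < Real.sin (x / 2) := Real.sin_pos_of_pos_of_lt_pi (by linarith) (by linarith)
  have h2 : HasDerivAt (fun y : ℝ => y / 2) (1 / 2) x := (hasDerivAt_id x).div_const 2
  have h3 := (h2.sin).log hs.ne'
  refine h3.congr_deriv ?_
  unfold ct
  field_simp

theorem LowB_V_hd {x : ℝ} (h0 : 0 < x) (h1 : x < 2 * π) :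
    HasDerivAt LowB_V (max (ct x) 0 / 2) x := by
  have hpi := Real.pi_pos
  rcases lt_trichotomy x π with h | h | h
  · rw [max_eq_left (LowB_ct_pos h0 h).le]
    refine (LowB_log_hd h0 h1).congr_of_eventuallyEq ?_
    filter_upwards [Iio_mem_nhds h] with y hy
    simp only [LowB_V, if_pos (show y < π from hy)]
  · have hct : ct x = 0 := by
      rw [h]
      unfold ct
      rw [Real.cos_pi_div_two, zero_div]
    have e0 : LowB_V x = 0 := by simp [LowB_V, h]
    have hl : HasDerivWithinAt LowB_V 0 (Iic x) x := by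
      have h3 := (LowB_log_hd h0 h1).hasDerivWithinAt (s := Iic x)
      rw [hct, zero_div] at h3
      refine h3.congr (fun y hy => ?_) ?_
      · rcases lt_or_eq_of_le (show y ≤ x from hy) with h4 | h4
        · simp only [LowB_V, if_pos (show y < π from h ▸ h4)]
        · rw [h4, e0, h]
          rw [Real.sin_pi_div_two, Real.log_one]
      · rw [e0, h]
        rw [Real.sin_pi_div_two, Real.log_one]
    have hr : HasDerivWithinAt LowB_V 0 (Ici x) x := by
      have h3 : HasDerivWithinAt (fun _ : ℝ => (0:ℝ)) 0 (Ici x) x := hasDerivWithinAt_const _ _ _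
      refine h3.congr (fun y hy => ?_) e0
      have : ¬ y < π := not_lt.2 (h ▸ (show x ≤ y from hy))
      simp only [LowB_V, if_neg this]
    have h5 := hl.union hr
    rw [Iic_union_Ici, hasDerivWithinAt_univ] at h5
    rw [hct]
    simpa using h5
  · rw [max_eq_right (LowB_ct_nonpos h.le h1), zero_div]
    refine (hasDerivAt_const x (0:ℝ)).congr_of_eventuallyEq ?_
    filter_upwards [Ioi_mem_nhds h] with y hy
    simp only [LowB_V, if_neg (not_lt.2 (show π < y from hy).le)]

theorem LowB_V_nonpos {x : ℝ} (h0 : 0 < x) (h1 : x < 2 * π) : LowB_V x ≤ 0 := by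
  unfold LowB_V
  split_ifs with h
  · have hs : 0 < Real.sin (x / 2) := Real.sin_pos_of_pos_of_lt_pi (by linarith) (by linarith)
    exact Real.log_nonpos hs.le (Real.sin_le_one _)
  · exact le_rfl

theorem LowB_V_le {x : ℝ} (h0 : 0 < x) : LowB_V x ≤ Real.log (x / 2) := by
  have hpi := Real.pi_gt_three
  unfold LowB_V
  split_ifs with h
  · have hs : 0 < Real.sin (x / 2) := Real.sin_pos_of_pos_of_lt_pi (by linarith) (by linarith)
    exact Real.log_le_log hs (Real.sin_le (by linarith))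
  · exact Real.log_nonneg (by linarith [not_lt.1 h])

theorem LowB_V_ge {x : ℝ} (h0 : 0 < x) (h1 : x < π) : Real.log (x / π) ≤ LowB_V x := by
  have hpi := Real.pi_pos
  unfold LowB_V
  rw [if_pos h1]
  have h2 : x / π ≤ Real.sin (x / 2) := by
    simpa using Real.mul_le_sin (x := x / 2) (by positivity) (by linarith)
  exact Real.log_le_log (by positivity) h2

theorem LowB_g {x y Λ : ℝ} (hx : 0 < x) (hx1 : x < 2 * π) (hy : 0 < y) (hy1 : y < 2 * π)
    (h1 : x * Real.exp (-Λ) ≤ y) (h2 : y ≤ x * Real.exp Λ) (hΛ : 0 ≤ Λ) :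
    |LowB_V y - LowB_V x| ≤ Λ + 1 := by
  have hpi := Real.pi_pos
  have hpi4 := Real.pi_lt_four
  have hl : Real.log (π / 2) ≤ 1 := by
    have := Real.log_le_sub_one_of_pos (show (0:ℝ) < π / 2 by positivity)
    linarith
  have hl2 : Real.log (x / 2) - Real.log (x / π) = Real.log (π / 2) := by
    rw [← Real.log_div (by positivity) (by positivity)]
    congr 1
    field_simp
  rw [abs_le]
  constructor
  · -- lower bound
    have hy2 : min (Real.log (y / π)) 0 ≤ LowB_V y := by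
      rcases lt_or_ge y π with h | h
      · exact (min_le_left _ _).trans (LowB_V_ge hy h)
      · refine (min_le_right _ _).trans ?_
        simp [LowB_V, not_lt.2 h]
    rcases lt_or_ge x π with h | h
    · have h3 : Real.log (x / π) - Λ ≤ Real.log (y / π) := by
        have h4 : Real.log (x * Real.exp (-Λ) / π) ≤ Real.log (y / π) :=
          Real.log_le_log (by positivity) (by gcongr)
        have h5 : Real.log (x * Real.exp (-Λ) / π) = Real.log (x / π) - Λ := by
          rw [show x * Real.exp (-Λ) / π = x / π * Real.exp (-Λ) by ring,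
            Real.log_mul (by positivity) (Real.exp_pos _).ne', Real.log_exp]
          ring
        linarith
      have h4 : Real.log (x / π) ≤ 0 := by
        refine Real.log_nonpos (by positivity) ?_
        rw [div_le_one hpi]
        exact h.le
      have h5 : Real.log (x / π) - Λ ≤ min (Real.log (y / π)) 0 :=
        le_min h3 (by linarith)
      have h6 := LowB_V_le hx
      linarith
    · have h3 : LowB_V x = 0 := by simp [LowB_V, not_lt.2 h]
      have h4 : -Λ ≤ Real.log (y / π) := by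
        rw [Real.le_log_iff_exp_le (by positivity), le_div_iff₀ hpi]
        have := mul_le_mul_of_nonneg_right h (Real.exp_pos (-Λ)).le
        linarith
      have h5 : -Λ ≤ min (Real.log (y / π)) 0 := le_min h4 (by linarith)
      linarith
  · -- upper bound
    rcases lt_or_ge x π with h | h
    · have h3 := LowB_V_le hy
      have h4 : Real.log (y / 2) ≤ Real.log (x * Real.exp Λ / 2) :=
        Real.log_le_log (by positivity) (by gcongr)
      have h5 : Real.log (x * Real.exp Λ / 2) = Real.log (x / 2) + Λ := by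
        rw [show x * Real.exp Λ / 2 = x / 2 * Real.exp Λ by ring,
          Real.log_mul (by positivity) (Real.exp_pos _).ne', Real.log_exp]
      have h6 := LowB_V_ge hx h
      linarith
    · have h3 : LowB_V x = 0 := by simp [LowB_V, not_lt.2 h]
      have h4 := LowB_V_nonpos hy hy1
      linarith

theorem LowB_ct_ge {a : ℝ} (h0 : 0 < a) (h1 : a ≤ π) : 2 / a - a ≤ ct a := by
  have hs : 0 < Real.sin (a / 2) :=
    Real.sin_pos_of_pos_of_lt_pi (by linarith) (by linarith [Real.pi_pos])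
  have hc : 0 ≤ Real.cos (a / 2) :=
    Real.cos_nonneg_of_neg_pi_div_two_le_of_le (by linarith [Real.pi_pos]) (by linarith)
  unfold ct
  rw [le_div_iff₀ hs]
  have h2 : 1 - (a / 2) ^ 2 / 2 ≤ Real.cos (a / 2) := Real.one_sub_sq_div_two_le_cos
  have h3 : Real.sin (a / 2) ≤ a / 2 := Real.sin_le (by linarith)
  rcases le_total (2 / a - a) 0 with h | h
  · nlinarith
  · have h4 : (2 / a - a) * Real.sin (a / 2) ≤ (2 / a - a) * (a / 2) :=
      mul_le_mul_of_nonneg_left h3 h
    have h5 : (2 / a - a) * (a / 2) = 1 - a ^ 2 / 2 := by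
      field_simp
    nlinarith [sq_nonneg a]

theorem LowB_ct_le {x : ℝ} (h0 : 0 < x) (h1 : x ≤ π) : ct x ≤ 2 / x := by
  rcases lt_or_eq_of_le h1 with h | h
  · exact HInt_ct_le h0 h
  · have hct : ct x = 0 := by
      rw [h]
      unfold ct
      rw [Real.cos_pi_div_two, zero_div]
    rw [hct]
    positivity

/-- Taylor bounds for `a` on `[0,p]` -/
theorem LowB_taylor {w0 : ℝ → ℝ} {p : ℝ} (hs : ContDiff ℝ 2 w0) (h0 : w0 0 = 0) :
    ∃ K M : ℝ, 0 ≤ K ∧ 0 ≤ M ∧ (∀ x ∈ Icc (0:ℝ) p, |w0 x| ≤ M * x) ∧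
      (∀ x ∈ Icc (0:ℝ) p, |w0 x - deriv w0 x * x| ≤ K * x ^ 2) := by
  have hd : Differentiable ℝ w0 := hs.differentiable (by norm_num)
  have hs1 : ContDiff ℝ 1 (deriv w0) := by
    have h := (contDiff_succ_iff_deriv (n := 1)).1 (by simpa [one_add_one_eq_two] using hs)
    exact h.2.2
  have hd1 : Differentiable ℝ (deriv w0) := hs1.differentiable (by norm_num)
  have hc1 : Continuous (deriv w0) := hs1.continuous
  have hc2 : Continuous (deriv (deriv w0)) := hs1.continuous_deriv (by norm_num)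
  obtain ⟨K1, hK1⟩ := (isCompact_Icc (a := (0:ℝ)) (b := p)).exists_bound_of_continuousOn
    hc2.continuousOn
  obtain ⟨M1, hM1⟩ := (isCompact_Icc (a := (0:ℝ)) (b := p)).exists_bound_of_continuousOn
    hc1.continuousOn
  have hK0 : ∀ x ∈ Icc (0:ℝ) p, ‖deriv (deriv w0) x‖ ≤ |K1| := fun x hx =>
    (hK1 x hx).trans (le_abs_self _)
  have hM0 : ∀ x ∈ Icc (0:ℝ) p, ‖deriv w0 x‖ ≤ |M1| := fun x hx =>
    (hM1 x hx).trans (le_abs_self _)
  have h1 : ∀ a ∈ Icc (0:ℝ) p, ∀ b ∈ Icc (0:ℝ) p, |deriv w0 b - deriv w0 a| ≤ |K1| * |b - a| := by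
    intro a ha b hb
    have h := (convex_Icc (0:ℝ) p).norm_image_sub_le_of_norm_deriv_le (f := deriv w0)
      (fun x _ => hd1 x) hK0 ha hb
    simpa [Real.norm_eq_abs] using h
  refine ⟨|K1|, |M1|, abs_nonneg _, abs_nonneg _, ?_, ?_⟩
  · intro x hx
    have h := (convex_Icc (0:ℝ) p).norm_image_sub_le_of_norm_deriv_le (f := w0)
      (fun x _ => hd x) hM0 ⟨le_rfl, hx.1.trans hx.2⟩ hx
    simpa [Real.norm_eq_abs, h0, abs_of_nonneg hx.1] using h
  · intro x hx
    have hsub : ∀ y ∈ Icc (0:ℝ) x, y ∈ Icc (0:ℝ) p := fun y hy => ⟨hy.1, hy.2.trans hx.2⟩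
    have h2 := (convex_Icc (0:ℝ) x).norm_image_sub_le_of_norm_deriv_le
      (f := fun y => w0 y - deriv w0 x * y) (C := |K1| * x) (x := 0) (y := x)
      (fun y _ => (hd y).sub ((differentiableAt_id).const_mul _)) ?_ ⟨le_rfl, hx.1⟩ ⟨hx.1, le_rfl⟩
    · rw [Real.norm_eq_abs, Real.norm_eq_abs] at h2
      simp only [h0, mul_zero, sub_zero, abs_of_nonneg hx.1] at h2
      refine h2.trans (le_of_eq ?_)
      ring
    · intro y hy
      have h3 : deriv (fun y => w0 y - deriv w0 x * y) y = deriv w0 y - deriv w0 x := by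
        have h4 : HasDerivAt (fun y => w0 y - deriv w0 x * y) (deriv w0 y - deriv w0 x * 1) y :=
          (hd y).hasDerivAt.sub ((hasDerivAt_id y).const_mul (deriv w0 x))
        rw [h4.deriv, mul_one]
      rw [h3, Real.norm_eq_abs]
      refine (h1 x hx y (hsub y hy)).trans ?_
      refine mul_le_mul_of_nonneg_left ?_ (abs_nonneg _)
      rw [abs_le]
      constructor <;> linarith [hy.1, hy.2]

/-- the derivative of `a ct` is bounded -/
theorem LowB_act {w0 : ℝ → ℝ} {p K M x : ℝ} (hx : 0 < x) (hxp : x ≤ p) (hxπ : x ≤ π)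
    (hK : 0 ≤ K) (hM : 0 ≤ M)
    (hM1 : ∀ x ∈ Icc (0:ℝ) p, |w0 x| ≤ M * x)
    (hK1 : ∀ x ∈ Icc (0:ℝ) p, |w0 x - deriv w0 x * x| ≤ K * x ^ 2) :
    |deriv w0 x * ct x + w0 x * (-(1 + ct x ^ 2) / 2)| ≤ 2 * K + 2 * M * π ^ 2 := by
  have hpi := Real.pi_pos
  have h1 := hM1 x ⟨hx.le, hxp⟩
  have h2 := hK1 x ⟨hx.le, hxp⟩
  have c1 := LowB_ct_ge hx hxπ
  have c2 := LowB_ct_le hx hxπ
  have c0 : 0 ≤ ct x := by
    rcases lt_or_eq_of_le hxπ with h | h
    · exact (LowB_ct_pos hx h).le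
    · rw [h]
      unfold ct
      rw [Real.cos_pi_div_two, zero_div]
  have e1 : deriv w0 x * ct x + w0 x * (-(1 + ct x ^ 2) / 2) =
      -(ct x * ((w0 x - deriv w0 x * x) / x)) + ct x * w0 x * (1 / x - ct x / 2) - w0 x / 2 := by
    field_simp
    ring
  rw [e1]
  have b1 : |-(ct x * ((w0 x - deriv w0 x * x) / x))| ≤ 2 * K := by
    rw [abs_neg, abs_mul, abs_div, abs_of_nonneg c0, abs_of_pos hx]
    have h3 : |w0 x - deriv w0 x * x| / x ≤ K * x := by
      rw [div_le_iff₀ hx]
      nlinarith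
    calc ct x * (|w0 x - deriv w0 x * x| / x) ≤ 2 / x * (K * x) :=
          mul_le_mul c2 h3 (by positivity) (by positivity)
      _ = 2 * K := by field_simp
  have b2 : |ct x * w0 x * (1 / x - ct x / 2)| ≤ M * π := by
    rw [abs_mul, abs_mul, abs_of_nonneg c0]
    have h3 : |1 / x - ct x / 2| ≤ x / 2 := by
      rw [abs_le]
      have e2 : 1 / x = 2 / x / 2 := by field_simp
      constructor
      · rw [e2]; linarith
      · rw [e2]; linarith
    calc ct x * |w0 x| * |1 / x - ct x / 2| ≤ 2 / x * (M * x) * (x / 2) := by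
          refine mul_le_mul (mul_le_mul c2 h1 (abs_nonneg _) (by positivity)) h3 (abs_nonneg _)
            (by positivity)
      _ = M * x := by field_simp
      _ ≤ M * π := by gcongr
  have b3 : |w0 x / 2| ≤ M * π := by
    rw [abs_div, abs_of_pos (show (0:ℝ) < 2 by norm_num)]
    have : M * x ≤ M * π := by gcongr
    have h4 : 0 ≤ M * π := by positivity
    linarith
  have b4 : M * π ≤ M * π ^ 2 := by
    have : π ≤ π ^ 2 := by nlinarith [Real.pi_gt_three]
    gcongr
  calc |-(ct x * ((w0 x - deriv w0 x * x) / x)) + ct x * w0 x * (1 / x - ct x / 2) - w0 x / 2|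
      ≤ |-(ct x * ((w0 x - deriv w0 x * x) / x)) + ct x * w0 x * (1 / x - ct x / 2)| +
        |w0 x / 2| := abs_sub _ _
    _ ≤ |-(ct x * ((w0 x - deriv w0 x * x) / x))| + |ct x * w0 x * (1 / x - ct x / 2)| +
        |w0 x / 2| := by gcongr; exact abs_add_le _ _
    _ ≤ 2 * K + 2 * M * π ^ 2 := by linarith

theorem LBc {a : ℝ → ℝ} {p : ℝ} (hp : 0 < p) (hp1 : p < 2 * π) (hs : ContDiff ℝ 2 a)
    (h0 : a 0 = 0) (hpz : a p = 0) (hpos : ∀ x ∈ Icc (0:ℝ) p, 0 ≤ a x) :
    ∃ C : ℝ, 0 ≤ C ∧ ∀ (L Xf : ℝ → ℝ) (Λ : ℝ), Continuous L →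
      (∀ α, HasDerivAt Xf (Real.exp (L α)) α) → Xf 0 = 0 → Xf p < 2 * π →
      (∀ α ∈ Icc (0:ℝ) p, |L α| ≤ Λ) →
      IntegrableOn (fun α => a α * (Real.exp (2 * L α) * Pq 0 (Xf α) - Pq 0 α)) (Ioo 0 p) →
      -(C * (1 + Λ)) ≤ ∫ α in Ioo (0:ℝ) p, a α * (Real.exp (2 * L α) * Pq 0 (Xf α) - Pq 0 α) := by
  have hpi := Real.pi_pos
  obtain ⟨K, M, hK, hM, hM1, hK1⟩ := LowB_taylor (p := p) hs h0
  have ha1 : Differentiable ℝ a := hs.differentiable (by norm_num)
  have hac : Continuous a := hs.continuous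
  have had : Continuous (deriv a) := hs.continuous_deriv (by norm_num)
  obtain ⟨B, hB⟩ : ∃ B : ℝ, B = 2 * K + 2 * M * π ^ 2 := ⟨_, rfl⟩
  have hB0 : 0 ≤ B := by rw [hB]; positivity
  refine ⟨2 * M + B * p, by positivity, ?_⟩
  intro L Xf Λ hLc hX hX0 hXp hΛ hint
  have hΛ0 : 0 ≤ Λ := (abs_nonneg _).trans (hΛ 0 ⟨le_rfl, hp.le⟩)
  have hXc : Continuous Xf := continuous_iff_continuousAt.2 fun α => (hX α).continuousAt
  have hXm : StrictMono Xf := by
    refine strictMono_of_deriv_pos fun α => ?_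
    rw [(hX α).deriv]
    exact Real.exp_pos _
  have hXpos : ∀ α, 0 < α → 0 < Xf α := fun α hα => by
    have := hXm hα
    rwa [hX0] at this
  have hXlt : ∀ α, α ≤ p → Xf α < 2 * π := fun α hα => (hXm.monotone hα).trans_lt hXp
  -- `x e^{-Λ} ≤ Xf x ≤ x e^Λ`
  have hXb : ∀ x ∈ Icc (0:ℝ) p, x * Real.exp (-Λ) ≤ Xf x ∧ Xf x ≤ x * Real.exp Λ := by
    intro x hx
    have hdX : ∀ y ∈ interior (Icc (0:ℝ) p), Real.exp (-Λ) ≤ deriv Xf y ∧ deriv Xf y ≤ Real.exp Λ := by
      intro y hy
      rw [interior_Icc] at hy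
      rw [(hX y).deriv]
      have := abs_le.1 (hΛ y ⟨hy.1.le, hy.2.le⟩)
      exact ⟨Real.exp_le_exp.2 this.1, Real.exp_le_exp.2 this.2⟩
    have hXd : DifferentiableOn ℝ Xf (interior (Icc (0:ℝ) p)) :=
      fun y _ => (hX y).differentiableAt.differentiableWithinAt
    have h1 := (convex_Icc (0:ℝ) p).mul_sub_le_image_sub_of_le_deriv hXc.continuousOn hXd
      (fun y hy => (hdX y hy).1) 0 ⟨le_rfl, hp.le⟩ x hx hx.1
    have h2 := (convex_Icc (0:ℝ) p).image_sub_le_mul_sub_of_deriv_le hXc.continuousOn hXd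
      (fun y hy => (hdX y hy).2) 0 ⟨le_rfl, hp.le⟩ x hx hx.1
    rw [hX0] at h1 h2
    constructor <;> nlinarith
  obtain ⟨g, hg⟩ : ∃ g : ℝ → ℝ, g = fun α => LowB_V (Xf α) - LowB_V α := ⟨_, rfl⟩
  obtain ⟨g', hg'⟩ : ∃ g' : ℝ → ℝ, g' = fun α =>
      max (ct (Xf α)) 0 / 2 * Real.exp (L α) - max (ct α) 0 / 2 := ⟨_, rfl⟩
  have hgb : ∀ α, 0 < α → α ≤ p → |g α| ≤ Λ + 1 := by
    intro α h1 h2
    have h3 := hXb α ⟨h1.le, h2⟩
    rw [hg]
    exact LowB_g h1 (by linarith) (hXpos α h1) (hXlt α h2) h3.1 h3.2 hΛ0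
  have hgd : ∀ α, 0 < α → α ≤ p → HasDerivAt g (g' α) α := by
    intro α h1 h2
    have e1 : HasDerivAt (fun α => LowB_V (Xf α)) (max (ct (Xf α)) 0 / 2 * Real.exp (L α)) α :=
      (LowB_V_hd (hXpos α h1) (hXlt α h2)).comp α (hX α)
    rw [hg, hg']
    exact e1.sub (LowB_V_hd h1 (by linarith))
  obtain ⟨P, hP⟩ : ∃ P : ℝ → ℝ,
      P = fun α => a α * (Real.exp (2 * L α) * Pq 0 (Xf α) - Pq 0 α) := ⟨_, rfl⟩
  obtain ⟨q, hq⟩ : ∃ q : ℝ, q = min p π := ⟨_, rfl⟩
  have hq0 : 0 < q := by rw [hq]; exact lt_min hp hpi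
  have hqp : q ≤ p := by rw [hq]; exact min_le_left _ _
  have hqπ : q ≤ π := by rw [hq]; exact min_le_right _ _
  -- pointwise
  have hpt : ∀ α, 0 < α → α ≤ p → a α * (max (ct α) 0) * g' α ≤ P α := by
    intro α h1 h2
    have hw0 := hpos α ⟨h1.le, h2⟩
    have he : Real.exp (2 * L α) = Real.exp (L α) ^ 2 := by
      rw [← Real.exp_nat_mul]
      norm_num
    have e1 : P α - a α * (max (ct α) 0) * g' α = a α * g' α ^ 2 := by
      rw [hP, hg']
      simp only [Pq, sub_zero]
      rw [he]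
      ring
    have := mul_nonneg hw0 (sq_nonneg (g' α))
    linarith
  have hpt2 : ∀ α, π ≤ α → α ≤ p → 0 ≤ P α := by
    intro α h1 h2
    have h3 := hpt α (by linarith) h2
    rw [max_eq_right (LowB_ct_nonpos h1 (by linarith))] at h3
    simpa using h3
  have hPi : IntervalIntegrable P volume 0 p := by
    rw [intervalIntegrable_iff_integrableOn_Ioo_of_le hp.le, hP]
    exact hint
  have hctc : ∀ ε, 0 < ε → ContinuousOn ct (Icc ε q) := by
    intro ε hε α hα
    have := HInt_ct_hd (hε.trans_le hα.1) (by linarith [hα.2] : α < 2 * π)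
    exact this.continuousAt.continuousWithinAt
  have hctX : ∀ ε, 0 < ε → ContinuousOn (fun α => ct (Xf α)) (Icc ε q) := by
    intro ε hε α hα
    have := (HInt_ct_hd (hXpos α (hε.trans_le hα.1))
      (hXlt α (hα.2.trans hqp))).comp α (hX α)
    exact this.continuousAt.continuousWithinAt
  -- integration by parts
  have hparts : ∀ ε, 0 < ε → ε < q →
      -((2 * M + B * p) * (1 + Λ)) ≤ ∫ α in ε..q, a α * ct α * g' α := by
    intro ε hε hεq
    obtain ⟨F', hF'⟩ : ∃ F' : ℝ → ℝ, F' = fun α =>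
      (deriv a α * ct α + a α * (-(1 + ct α ^ 2) / 2)) := ⟨_, rfl⟩
    have c1 := hctX ε hε
    have c2 := hctc ε hε
    have c3 : ContinuousOn a (Icc ε q) := hac.continuousOn
    have c4 : ContinuousOn (deriv a) (Icc ε q) := had.continuousOn
    have c5 : ContinuousOn (fun α => Real.exp (L α)) (Icc ε q) :=
      (Real.continuous_exp.comp hLc).continuousOn
    have cF' : ContinuousOn F' (Icc ε q) := by
      rw [hF']
      exact (c4.mul c2).add (c3.mul (((continuousOn_const.add (c2.pow 2)).neg).div_const 2))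
    have cg' : ContinuousOn g' (Icc ε q) := by
      rw [hg']
      exact (((c1.sup continuousOn_const).div_const 2).mul c5).sub
        ((c2.sup continuousOn_const).div_const 2)
    have i1 : IntervalIntegrable F' volume ε q := by
      refine ContinuousOn.intervalIntegrable ?_
      rw [uIcc_of_le hεq.le]
      exact cF'
    have i2 : IntervalIntegrable g' volume ε q := by
      refine ContinuousOn.intervalIntegrable ?_
      rw [uIcc_of_le hεq.le]
      exact cg'
    have hbp := intervalIntegral.integral_mul_deriv_eq_deriv_mul (a := ε) (b := q)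
      (u := fun α => a α * ct α) (v := g) (u' := F') (v' := g')
      (fun α hα => by
        rw [uIcc_of_le hεq.le] at hα
        rw [hF']
        exact (ha1 α).hasDerivAt.mul (HInt_ct_hd (hε.trans_le hα.1) (by linarith [hα.2])))
      (fun α hα => by
        rw [uIcc_of_le hεq.le] at hα
        exact hgd α (hε.trans_le hα.1) (hα.2.trans hqp)) i1 i2
    have hz : a q * ct q = 0 := by
      rcases le_total p π with h | h
      · rw [hq, min_eq_left h, hpz, zero_mul]
      · rw [hq, min_eq_right h]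
        have : ct π = 0 := by
          unfold ct
          rw [Real.cos_pi_div_two, zero_div]
        rw [this, mul_zero]
    have hε1 : |a ε * ct ε * g ε| ≤ 2 * M * (Λ + 1) := by
      rw [abs_mul, abs_mul]
      have d1 := hM1 ε ⟨hε.le, hεq.le.trans hqp⟩
      have d2 : |ct ε| ≤ 2 / ε := by
        rw [abs_of_pos (LowB_ct_pos hε (hεq.trans_le hqπ))]
        exact LowB_ct_le hε (hεq.le.trans hqπ)
      have d3 := hgb ε hε (hεq.le.trans hqp)
      calc |a ε| * |ct ε| * |g ε| ≤ M * ε * (2 / ε) * (Λ + 1) := by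
            refine mul_le_mul (mul_le_mul d1 d2 (abs_nonneg _) (by positivity)) d3
              (abs_nonneg _) (by positivity)
        _ = 2 * M * (Λ + 1) := by field_simp
    have hint3 : |∫ α in ε..q, F' α * g α| ≤ B * (Λ + 1) * |q - ε| := by
      rw [← Real.norm_eq_abs]
      refine intervalIntegral.norm_integral_le_of_norm_le_const fun α hα => ?_
      rw [uIoc_of_le hεq.le] at hα
      have hα0 : 0 < α := hε.trans hα.1
      rw [Real.norm_eq_abs, abs_mul]
      have d1 : |F' α| ≤ B := by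
        rw [hF', hB]
        exact LowB_act hα0 (hα.2.trans hqp) (hα.2.trans hqπ) hK hM hM1 hK1
      exact mul_le_mul d1 (hgb α hα0 (hα.2.trans hqp)) (abs_nonneg _) hB0
    have d4 : |q - ε| ≤ p := by
      rw [abs_of_nonneg (by linarith)]
      linarith
    have d5 : B * (Λ + 1) * |q - ε| ≤ B * (Λ + 1) * p :=
      mul_le_mul_of_nonneg_left d4 (by positivity)
    rw [hz, zero_mul] at hbp
    rw [hbp]
    have d6 := (abs_le.1 hint3).2
    have d7 := (abs_le.1 hε1).2
    linarith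
  have hlow : ∀ ε, 0 < ε → ε < q → -((2 * M + B * p) * (1 + Λ)) ≤ ∫ α in ε..p, P α := by
    intro ε hε hεq
    have i0 : IntervalIntegrable P volume ε q := by
      refine hPi.mono_set ?_
      rw [uIcc_of_le hp.le, uIcc_of_le hεq.le]
      exact Icc_subset_Icc hε.le hqp
    have i1 : IntervalIntegrable P volume q p := by
      refine hPi.mono_set ?_
      rw [uIcc_of_le hp.le, uIcc_of_le hqp]
      exact Icc_subset_Icc_left hq0.le
    rw [← intervalIntegral.integral_add_adjacent_intervals i0 i1]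
    have h1 : 0 ≤ ∫ α in q..p, P α := by
      rcases le_total p π with h | h
      · have : q = p := by rw [hq, min_eq_left h]
        rw [this, intervalIntegral.integral_same]
      · refine intervalIntegral.integral_nonneg hqp fun α hα => ?_
        refine hpt2 α ?_ hα.2
        rw [hq, min_eq_right h] at hα
        exact hα.1
    have h2 : ∫ α in ε..q, a α * ct α * g' α ≤ ∫ α in ε..q, P α := by
      have cg : ContinuousOn (fun α => a α * ct α * g' α) (Icc ε q) := by
        have c1 := hctX ε hε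
        have c2 := hctc ε hε
        have c3 : ContinuousOn a (Icc ε q) := hac.continuousOn
        have c5 : ContinuousOn (fun α => Real.exp (L α)) (Icc ε q) :=
          (Real.continuous_exp.comp hLc).continuousOn
        have cg' : ContinuousOn g' (Icc ε q) := by
          rw [hg']
          exact (((c1.sup continuousOn_const).div_const 2).mul c5).sub
            ((c2.sup continuousOn_const).div_const 2)
        exact (c3.mul c2).mul cg'
      have i2 : IntervalIntegrable (fun α => a α * ct α * g' α) volume ε q := by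
        refine ContinuousOn.intervalIntegrable ?_
        rw [uIcc_of_le hεq.le]
        exact cg
      refine intervalIntegral.integral_mono_on hεq.le i2 i0 fun α hα => ?_
      have h3 := hpt α (hε.trans_le hα.1) (hα.2.trans hqp)
      have h4 : max (ct α) 0 = ct α := by
        refine max_eq_left ?_
        rcases lt_or_eq_of_le (hα.2.trans hqπ) with h | h
        · exact (LowB_ct_pos (hε.trans_le hα.1) h).le
        · rw [h]
          unfold ct
          rw [Real.cos_pi_div_two, zero_div]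
      rwa [h4] at h3
    have h3 := hparts ε hε hεq
    linarith
  -- the limit
  have hev : ∀ᶠ ε : ℝ in 𝓝[>] 0, 0 < ε ∧ ε < q := by
    have h1 : Ioo (0:ℝ) q ∈ 𝓝[>] (0:ℝ) := Ioo_mem_nhdsGT hq0
    filter_upwards [h1] with ε hε using hε
  have hcont : Tendsto (fun ε : ℝ => ∫ α in ε..p, P α) (𝓝[>] 0)
      (𝓝 (∫ α in (0:ℝ)..p, P α)) := by
    have h1 : ContinuousOn (fun x => ∫ t in (0:ℝ)..x, P t) (uIcc 0 p) :=
      intervalIntegral.continuousOn_primitive_interval' hPi left_mem_uIcc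
    have h2 : Tendsto (fun x => ∫ t in (0:ℝ)..x, P t) (𝓝[>] 0)
        (𝓝 (∫ t in (0:ℝ)..0, P t)) := by
      have h3 := h1 0 left_mem_uIcc
      rw [uIcc_of_le hp.le] at h3
      have h4 : 𝓝[>] (0:ℝ) ≤ 𝓝[Icc 0 p] 0 := by
        rw [nhdsWithin_le_iff]
        filter_upwards [hev] with ε hε
        exact ⟨hε.1.le, by linarith [hε.2]⟩
      exact h3.mono_left h4
    rw [intervalIntegral.integral_same] at h2
    have h5 : Tendsto (fun x => (∫ t in (0:ℝ)..p, P t) - ∫ t in (0:ℝ)..x, P t)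
        (𝓝[>] 0) (𝓝 ((∫ t in (0:ℝ)..p, P t) - 0)) := h2.const_sub _
    rw [sub_zero] at h5
    refine h5.congr' ?_
    filter_upwards [hev] with ε hε
    have i1 : IntervalIntegrable P volume 0 ε := by
      refine hPi.mono_set ?_
      rw [uIcc_of_le hp.le, uIcc_of_le hε.1.le]
      exact Icc_subset_Icc_right (by linarith [hε.2])
    have i2 : IntervalIntegrable P volume ε p := by
      refine hPi.mono_set ?_
      rw [uIcc_of_le hp.le, uIcc_of_le (by linarith [hε.2] : ε ≤ p)]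
      exact Icc_subset_Icc_left hε.1.le
    rw [← intervalIntegral.integral_add_adjacent_intervals i1 i2]
    ring
  have hfin : -((2 * M + B * p) * (1 + Λ)) ≤ ∫ α in (0:ℝ)..p, P α := by
    refine ge_of_tendsto hcont ?_
    filter_upwards [hev] with ε hε
    exact hlow ε hε.1 hε.2
  have k1 : ∫ α in Ioo (0:ℝ) p, a α * (Real.exp (2 * L α) * Pq 0 (Xf α) - Pq 0 α) =
      ∫ α in (0:ℝ)..p, P α := by
    rw [intervalIntegral.integral_of_le hp.le, integral_Ioc_eq_integral_Ioo, hP]
  rw [k1]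
  exact hfin

end Pool.Agent.H90.DA
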