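import Pool.Agent.H45.DY.KFold

/-! Reflection: if the solution with datum `x ↦ -w0 (-x)` is global then so is the one with datum `w0`. -/

set_option autoImplicit false
open Real Set MeasureTheory

namespace Pool.Agent.H90.DA
open Pool.Agent.H51.DG Pool.Agent.H45.DY

theorem Refl_int (f : ℝ → ℂ) (hf : Function.Periodic f (2 * π)) (k : ℤ) :
    ∫ x in (0:ℝ)..(2 * π), f (-x) * Complex.exp (-(k : ℂ) * (x : ℂ) * Complex.I) =
      ∫ x in (0:ℝ)..(2 * π), f x * Complex.exp (-((-k : ℤ) : ℂ) * (x : ℂ) * Complex.I) := by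
  set g : ℝ → ℂ := fun x => f x * Complex.exp (-((-k : ℤ) : ℂ) * (x : ℂ) * Complex.I) with hg
  have hper : Function.Periodic g (2 * π) := by
    intro x
    simp only [hg]
    rw [hf x, kf_exp_per]
  have h1 : ∀ x : ℝ, f (-x) * Complex.exp (-(k : ℂ) * (x : ℂ) * Complex.I) = g (-x) := by
    intro x
    simp only [hg]
    congr 2
    push_cast
    ring
  simp only [h1]
  rw [intervalIntegral.integral_comp_neg]
  have h2 := hper.intervalIntegral_add_eq (-(2 * π)) 0
  rw [show -(2 * π) + 2 * π = -0 by ring, zero_add (2 * π)] at h2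
  exact h2

theorem reflect (w0 : ℝ → ℝ) (h : GlobalSmooth fun x => -w0 (-x)) : GlobalSmooth w0 := by
  intro T hT
  obtain ⟨ω, u, hω, hu, pω, pu, h0, hF, hE⟩ := h T hT
  have hmap : ContDiff ℝ ((⊤ : ℕ∞) : WithTop ℕ∞) (fun p : ℝ × ℝ => (p.1, -p.2)) :=
    contDiff_fst.prodMk contDiff_snd.neg
  have hdper : ∀ t, Function.Periodic (fun x : ℝ => deriv (fun y : ℝ => u (t, y)) x) (2 * π) := by
    intro t x
    have h1 := deriv_comp_add_const (fun y : ℝ => u (t, y)) (2 * π) x
    have h2 : (fun y : ℝ => u (t, y + 2 * π)) = fun y => u (t, y) := funext fun y => pu t y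
    rw [h2] at h1
    exact h1.symm
  have hd : ∀ (v : ℝ × ℝ → ℝ) (t x : ℝ), deriv (fun y : ℝ => -v (t, -y)) x =
      deriv (fun y : ℝ => v (t, y)) (-x) := by
    intro v t x
    have h1 : deriv (fun y : ℝ => -v (t, -y)) x = -deriv (fun y : ℝ => v (t, -y)) x :=
      deriv.fun_neg
    have h2 : deriv (fun y : ℝ => v (t, -y)) x = -deriv (fun y : ℝ => v (t, y)) (-x) :=
      deriv_comp_neg (fun y : ℝ => v (t, y)) x
    rw [h1, h2, neg_neg]
  refine ⟨fun p => -ω (p.1, -p.2), fun p => -u (p.1, -p.2), (hω.comp hmap).neg,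
    (hu.comp hmap).neg, ?_, ?_, ?_, ?_, ?_⟩
  · intro t x
    show -ω (t, -(x + 2 * π)) = -ω (t, -x)
    rw [← pω t (-(x + 2 * π))]
    congr 3
    ring
  · intro t x
    show -u (t, -(x + 2 * π)) = -u (t, -x)
    rw [← pu t (-(x + 2 * π))]
    congr 3
    ring
  · intro x
    show -ω (0, -x) = w0 x
    rw [h0]
    show - -w0 (- -x) = w0 x
    rw [neg_neg, neg_neg]
  · intro t ht k
    have i1 := Refl_int (fun x : ℝ => ((deriv (fun y : ℝ => u (t, y)) x : ℝ) : ℂ)) (fun x => by
        have := hdper t x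
        simp only at this ⊢
        rw [this]) k
    have i2 := Refl_int (fun x : ℝ => ((ω (t, x) : ℝ) : ℂ)) (fun x => by
        simp only
        rw [pω]) k
    have i3 : (∫ x in (0 : ℝ)..(2 * π), ((-ω (t, -x) : ℝ) : ℂ) *
        Complex.exp (-(k : ℂ) * (x : ℂ) * Complex.I)) =
        -∫ x in (0 : ℝ)..(2 * π), ((ω (t, -x) : ℝ) : ℂ) *
          Complex.exp (-(k : ℂ) * (x : ℂ) * Complex.I) := by
      rw [← intervalIntegral.integral_neg]
      refine intervalIntegral.integral_congr fun x _ => ?_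
      push_cast
      ring
    simp only [hd]
    rw [i1, i3, i2, hF t ht (-k), Int.sign_neg]
    push_cast
    ring
  · intro t ht x
    have h1 := hE t ht (-x)
    have h2 : deriv (fun s : ℝ => -ω (s, -x)) t = -deriv (fun s : ℝ => ω (s, -x)) t :=
      deriv.fun_neg
    simp only [hd]
    rw [h2]
    linarith

end Pool.Agent.H90.DA
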