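import Pool.Agent.H90.DA.FinA
import Pool.Agent.H90.DA.Refl
import Pool.Agent.H90.DC.Tr
import Pool.Agent.H45.DGL.Continue

/-!
# DA: the theorem for class (A), from the static inequality `StatA`
-/

set_option autoImplicit false
open Real Set MeasureTheory Filter Topology

namespace Pool.Agent.H90.DA
open Pool.Agent.H45.FL Pool.Agent.H51.DG Pool.Agent.H45.DY Pool.Agent.H90.DC

theorem aprioriA (hS : StatA) (w0 : ℝ → ℝ) (e c : ℝ) (hg : GoodA w0 e c) (T : ℝ) :
    APriori w0 T := by
  obtain ⟨N, hN⟩ := h1_leA hS w0 e c hg T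
  refine ⟨N, fun a b w u ha hb hbT hSol hw0 t ht => ?_⟩
  have hT'0 : 0 ≤ (t + b) / 2 := by linarith [ht.1]
  have hT'b : (t + b) / 2 < b := by linarith [ht.2]
  obtain ⟨W, U, hC, hW, hU⟩ := cut_sol a b w u hSol ha ((t + b) / 2) hT'0 hT'b
  obtain ⟨X, hX⟩ := flow_exists hC.vel
  have h0mem : (0:ℝ) ∈ Icc 0 ((t + b) / 2) := ⟨le_rfl, hT'0⟩
  have htmem : t ∈ Icc 0 ((t + b) / 2) := ⟨ht.1, by linarith [ht.2]⟩
  have hW0 : ∀ x, W (0, x) = w0 x := fun x => by rw [hW 0 h0mem, hw0]
  have hD : Dyn W U X e c ((t + b) / 2) :=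
    { cs := hC
      fl := hX
      hec := hg.hec
      hce := hg.hce
      neg := fun x hx => by rw [hW0]; exact hg.neg x hx
      pos := fun x hx => by rw [hW0]; exact hg.pos x hx
      hT := hT'0
      hu := fun s hs x => by
        have h1 : (fun y => U (s, y)) = fun y => u (s, y) := funext fun y => hU s hs y
        have h2 : (fun y => W (s, y)) = fun y => w (s, y) := funext fun y => hW s hs y
        show deriv (fun y => U (s, y)) x = HT (fun y => W (s, y)) x
        rw [h1, h2]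
        exact hSol.hu s ⟨by linarith [hs.1], by linarith [hs.2]⟩ x }
  have key := hN W U X _ hD (by linarith) hW0 t ⟨ht.1, by linarith [ht.2]⟩
  have h3 : (fun x => w (t, x)) = fun x => W (t, x) := funext fun x => (hW t htmem x).symm
  rw [h3]
  exact key

theorem mainA (hS : StatA) (w0 : ℝ → ℝ) (e c : ℝ) (hg : GoodA w0 e c) : GlobalSmooth w0 :=
  Pool.Agent.H45.DGL.global_of_apriori w0 hg.smooth hg.per
    (fun T _ => aprioriA hS w0 e c hg T)

/-- without the normalisation of the mean -/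
theorem mainA' (hS : StatA) (w0 : ℝ → ℝ) (e c : ℝ)
    (smooth : ContDiff ℝ ((⊤ : ℕ∞) : WithTop ℕ∞) w0) (per : Function.Periodic w0 (2 * π))
    (hec : e < c) (hce : c < e + 2 * π) (neg : ∀ x ∈ Icc e c, w0 x ≤ 0)
    (pos : ∀ x ∈ Icc c (e + 2 * π), 0 ≤ w0 x) : GlobalSmooth w0 := by
  rcases le_total 0 (∫ x in (0:ℝ)..(2 * π), w0 x) with hm | hm
  · exact mainA hS w0 e c ⟨smooth, per, hec, hce, neg, pos, hm⟩
  · refine reflect w0 (mainA hS (fun x => -w0 (-x)) (-(e + 2 * π)) (-c) ⟨?_, ?_, ?_, ?_, ?_, ?_, ?_⟩)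
    · exact (smooth.comp contDiff_neg).neg
    · intro x
      show -w0 (-(x + 2 * π)) = -w0 (-x)
      rw [← per (-(x + 2 * π))]
      congr 2
      ring
    · linarith
    · linarith
    · intro x hx
      have h1 := pos (-x) ⟨by linarith [hx.2], by linarith [hx.1]⟩
      show -w0 (-x) ≤ 0
      linarith
    · intro x hx
      have h1 := neg (-x) ⟨by linarith [hx.2], by linarith [hx.1]⟩
      show 0 ≤ -w0 (-x)
      linarith
    · rw [intervalIntegral.integral_neg, intervalIntegral.integral_comp_neg]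
      have h2 := per.intervalIntegral_add_eq (-(2 * π)) 0
      rw [show -(2 * π) + 2 * π = -0 by ring, zero_add (2 * π)] at h2
      rw [h2]
      linarith

end Pool.Agent.H90.DA
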