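import Pool.Agent.H90.DA.EnerA
import Pool.Agent.H90.DA.Refl
import Pool.Agent.H90.DC.Fin
import Pool.Agent.H90.DC.Tr
import Pool.Agent.H45.DGL.Continue
import Pool.Agent.H51.DG.SA

/-!
# One-signed data (known: Lei, Liu, Ren); included so that the final statement covers the case of at most two sign
changes without exception.

`w0 ≥ 0`: `(d/dt) ∫ w_x²/w = 2 ∫ w_x H w_x = 0`, and the mean is conserved.
-/

set_option autoImplicit false
open Real Set MeasureTheory Filter Topology

namespace Pool.Agent.H90.DA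
open Pool.Agent.H45.FL Pool.Agent.H51.DG Pool.Agent.H45.DY Pool.Agent.H90.DC

structure DynS (w u : ℝ × ℝ → ℝ) (X : ℝ → ℝ → ℝ) (T : ℝ) : Prop where
  cs : CSol w u
  fl : Flow u X
  pos : ∀ x, 0 ≤ w (0, x)
  hT : 0 ≤ T
  hu : ∀ t ∈ Icc 0 T, ∀ x, px u (t, x) = HT (fun y => w (t, y)) x

private theorem OneS_MptDeriv {w : ℝ × ℝ → ℝ} (hs : ContDiff ℝ ((⊤ : ℕ∞) : WithTop ℕ∞) w) (t x : ℝ) :
    HasDerivAt (fun s : ℝ => w (s, x)) (pt w (t, x)) t := by
  have h1 : DifferentiableAt ℝ w (t, x) := hs.differentiable (by simp) _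
  have h2 : DifferentiableAt ℝ (fun s : ℝ => (s, x)) t :=
    differentiableAt_id.prodMk (differentiableAt_const x)
  have h3 : DifferentiableAt ℝ (fun s : ℝ => w (s, x)) t :=
    DifferentiableAt.comp t (f := fun s : ℝ => (s, x)) (g := w) h1 h2
  exact h3.hasDerivAt

private theorem OneS_Mleib {w : ℝ × ℝ → ℝ} (hs : ContDiff ℝ ((⊤ : ℕ∞) : WithTop ℕ∞) w) (t : ℝ) :
    HasDerivAt (fun s => ∫ x in (0:ℝ)..(2 * π), w (s, x)) (∫ x in (0:ℝ)..(2 * π), pt w (t, x)) t := by
  have hpt : Continuous (pt w) := (smooth_pt w hs).continuous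
  have hw : Continuous w := hs.continuous
  have hcomp : IsCompact (Icc (t - 1) (t + 1) ×ˢ Icc (0:ℝ) (2 * π)) := isCompact_Icc.prod isCompact_Icc
  obtain ⟨C, hC⟩ := hcomp.exists_bound_of_continuousOn hpt.continuousOn
  have h2p : (0:ℝ) ≤ 2 * π := by positivity
  have key := intervalIntegral.hasDerivAt_integral_of_dominated_loc_of_deriv_le (μ := volume)
    (a := 0) (b := 2 * π) (F := fun s x => w (s, x)) (F' := fun s x => pt w (s, x))
    (x₀ := t) (s := Icc (t - 1) (t + 1)) (bound := fun _ => C) (Icc_mem_nhds (by linarith) (by linarith))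
    (Filter.Eventually.of_forall fun s =>
      (hw.comp (continuous_const.prodMk continuous_id)).aestronglyMeasurable)
    ((hw.comp (continuous_const.prodMk continuous_id)).intervalIntegrable _ _)
    (hpt.comp (continuous_const.prodMk continuous_id)).aestronglyMeasurable
    (Filter.Eventually.of_forall fun x hx s hs' => by
      rw [uIoc_of_le h2p] at hx
      exact hC (s, x) ⟨hs', hx.1.le, hx.2⟩)
    intervalIntegrable_const
    (Filter.Eventually.of_forall fun x _ s _ => OneS_MptDeriv hs s x)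
  exact key.2

private theorem OneS_Mzero {w u : ℝ × ℝ → ℝ} {X : ℝ → ℝ → ℝ} {T : ℝ} (h : DynS w u X T) (t : ℝ) (ht : t ∈ Icc 0 T) :
    ∫ x in (0:ℝ)..(2 * π), pt w (t, x) = 0 := by
  have hs := h.cs.sm
  have hu := h.cs.vel.sm
  have hs1 := smooth_px w hs
  have hu1 := smooth_px u hu
  have hc : ∀ {v : ℝ × ℝ → ℝ}, ContDiff ℝ ((⊤ : ℕ∞) : WithTop ℕ∞) v →
      Continuous (fun y : ℝ => v (t, y)) := fun hv =>
    hv.continuous.comp (continuous_const.prodMk continuous_id)
  have e1 : ∀ x, pt w (t, x) = 2 * (w (t, x) * px u (t, x)) -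
      (px u (t, x) * w (t, x) + u (t, x) * px w (t, x)) := by
    intro x
    have := h.cs.pde (t, x)
    linarith
  have i1 : IntervalIntegrable (fun x => 2 * (w (t, x) * px u (t, x))) volume 0 (2 * π) :=
    (continuous_const.mul ((hc hs).mul (hc hu1))).intervalIntegrable _ _
  have i2 : IntervalIntegrable (fun x => px u (t, x) * w (t, x) + u (t, x) * px w (t, x))
      volume 0 (2 * π) :=
    (((hc hu1).mul (hc hs)).add ((hc hu).mul (hc hs1))).intervalIntegrable _ _
  have e2 : ∫ x in (0:ℝ)..(2 * π), (px u (t, x) * w (t, x) + u (t, x) * px w (t, x)) = 0 := by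
    have hd : ∀ x, HasDerivAt (fun y => u (t, y) * w (t, y))
        (px u (t, x) * w (t, x) + u (t, x) * px w (t, x)) x := fun x =>
      (hasDerivAt_px u hu t x).mul (hasDerivAt_px w hs t x)
    rw [intervalIntegral.integral_eq_sub_of_hasDerivAt (fun x _ => hd x) i2]
    have p1 := h.cs.vel.per t 0
    have p2 := h.cs.per t 0
    rw [zero_add] at p1 p2
    rw [p1, p2, sub_self]
  have e3 : ∫ x in (0:ℝ)..(2 * π), w (t, x) * px u (t, x) = 0 := by
    obtain ⟨K, hK⟩ := HTd_lip (f := fun y => w (t, y)) (f' := fun y => px w (t, y))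
      (fun y => hasDerivAt_px w hs t y) (hc hs1) (fun y => HTd_per h.cs.per t y)
    have e4 := int_W_HT (fun y => w (t, y)) K (fun y => h.cs.per t y) hK
    refine Eq.trans ?_ e4
    refine intervalIntegral.integral_congr fun x _ => ?_
    show w (t, x) * px u (t, x) = w (t, x) * HT (fun y => w (t, y)) x
    rw [h.hu t ht x]
  have e5 : ∫ x in (0:ℝ)..(2 * π), pt w (t, x) = ∫ x in (0:ℝ)..(2 * π),
      (2 * (w (t, x) * px u (t, x)) - (px u (t, x) * w (t, x) + u (t, x) * px w (t, x))) :=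
    intervalIntegral.integral_congr fun x _ => e1 x
  rw [e5, intervalIntegral.integral_sub i1 i2, e2, intervalIntegral.integral_const_mul, e3]
  ring

theorem mean_constS {w u : ℝ × ℝ → ℝ} {X : ℝ → ℝ → ℝ} {T : ℝ} (h : DynS w u X T) (t : ℝ) (ht : t ∈ Icc 0 T) :
    ∫ x in (0:ℝ)..(2 * π), w (t, x) = ∫ x in (0:ℝ)..(2 * π), w (0, x) := by
  have hd := fun s => OneS_Mleib h.cs.sm s
  have key := constant_of_has_deriv_right_zero (a := 0) (b := T)
    (f := fun s => ∫ x in (0:ℝ)..(2 * π), w (s, x))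
    (fun s _ => (hd s).continuousAt.continuousWithinAt)
    (fun s hs => by
      have h1 := hd s
      rw [OneS_Mzero h s ⟨hs.1, hs.2.le⟩] at h1
      exact h1.hasDerivWithinAt)
  exact key t ht

lemma pxxS {w u : ℝ × ℝ → ℝ} {X : ℝ → ℝ → ℝ} {T : ℝ} (h : DynS w u X T) (t : ℝ) (ht : t ∈ Icc 0 T) (x : ℝ) :
    px (px u) (t, x) = HT (fun y => px w (t, y)) x := by
  have hs := h.cs.sm
  have hs1 := smooth_px w hs
  have hs2 := smooth_px (px w) hs1
  have hp1 := HTd_per h.cs.per
  have hp2 := HTd_per hp1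
  have hc : ∀ {v : ℝ × ℝ → ℝ}, ContDiff ℝ ((⊤ : ℕ∞) : WithTop ℕ∞) v →
      Continuous (fun y : ℝ => v (t, y)) := fun hv =>
    hv.continuous.comp (continuous_const.prodMk continuous_id)
  obtain ⟨K, hK⟩ := HTd_lip (f := fun y => w (t, y)) (f' := fun y => px w (t, y))
    (fun y => hasDerivAt_px w hs t y) (hc hs1) (fun y => hp1 t y)
  obtain ⟨K', hK'⟩ := HTd_lip (f := fun y => px w (t, y)) (f' := fun y => px (px w) (t, y))
    (fun y => hasDerivAt_px (px w) hs1 t y) (hc hs2) (fun y => hp2 t y)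
  have key := HTd_der (f := fun y => w (t, y)) (f' := fun y => px w (t, y))
    (fun y => hasDerivAt_px w hs t y) hK hK' x
  have e1 : (fun y => px u (t, y)) = HT (fun y => w (t, y)) := funext fun y => h.hu t ht y
  show deriv (fun y => px u (t, y)) x = _
  rw [e1]
  exact key.deriv

/-- optimisation of the parameter -/
private theorem OneS_Vopt {D Z P : ℝ} (hZ : 0 ≤ Z) (hP : 0 ≤ P)
    (h : ∀ ε : ℝ, 0 < ε → D ≤ (ε * Z + P / ε) / 2) : D ≤ Real.sqrt (Z * P) := by
  rcases le_or_gt D 0 with hD | hD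
  · exact hD.trans (Real.sqrt_nonneg _)
  · have key : ∀ x : ℝ, 0 ≤ Z * (x * x) + (-(2 * D)) * x + P := by
      intro x
      rcases le_or_gt x 0 with hx | hx
      · have h1 : 0 ≤ Z * (x * x) := mul_nonneg hZ (mul_self_nonneg x)
        have h2 : 0 ≤ D * (-x) := mul_nonneg hD.le (by linarith)
        nlinarith
      · have h1 := h x hx
        have h2 : 2 * D * x ≤ x * Z * x + P := by
          have h3 : D * (2 * x) ≤ (x * Z + P / x) / 2 * (2 * x) :=
            mul_le_mul_of_nonneg_right h1 (by linarith)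
          have h4 : (x * Z + P / x) / 2 * (2 * x) = x * Z * x + P := by
            field_simp
          linarith
        nlinarith
    have h5 := discrim_le_zero key
    unfold discrim at h5
    apply Real.le_sqrt_of_sq_le
    nlinarith

private theorem OneS_Vint {w u : ℝ × ℝ → ℝ} {X : ℝ → ℝ → ℝ} {T : ℝ} (h : DynS w u X T)
    (t : ℝ) : Continuous fun α => |w (0, α)| * lma u X t α ^ 2 := by
  have h1 : Continuous fun α => w (0, α) :=
    h.cs.sm.continuous.comp (continuous_const.prodMk continuous_id)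
  have h2 : Continuous fun α => lma u X t α :=
    (lma_cont h.cs.vel h.fl).comp (continuous_const.prodMk continuous_id)
  exact h1.abs.mul (h2.pow 2)

private theorem OneS_VZZ {w u : ℝ × ℝ → ℝ} {X : ℝ → ℝ → ℝ} {T : ℝ} (h : DynS w u X T)
    (t a : ℝ) : ∫ α in a..(a + 2 * π), |w (0, α)| * lma u X t α ^ 2 =
      ZZ w u X 0 (2 * π) t := by
  have hper : Function.Periodic (fun α => |w (0, α)| * lma u X t α ^ 2) (2 * π) := by
    intro α
    show |w (0, α + 2 * π)| * lma u X t (α + 2 * π) ^ 2 = |w (0, α)| * lma u X t α ^ 2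
    rw [h.cs.per, lma_per h.cs.vel h.fl]
  have h1 := hper.intervalIntegral_add_eq a 0
  rw [h1, zero_add]
  unfold ZZ
  rw [intervalIntegral.integral_of_le (by positivity), integral_Ioc_eq_integral_Ioo]

private theorem OneS_VZZ_nonneg {w u : ℝ × ℝ → ℝ} {X : ℝ → ℝ → ℝ} (a b t : ℝ) :
    0 ≤ ZZ w u X a b t := by
  unfold ZZ
  exact integral_nonneg fun α => mul_nonneg (abs_nonneg _) (sq_nonneg _)

private theorem OneS_Veps {w u : ℝ × ℝ → ℝ} {X : ℝ → ℝ → ℝ} {T B M : ℝ} (h : DynS w u X T)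
    (hB : ∀ x, |px w (0, x)| ≤ B) {t : ℝ} (ht : 0 ≤ t) (hM : ∀ x, |w (t, x)| ≤ M) {x y : ℝ}
    (hxy : x ≤ y) (hyx : y ≤ x + 2 * π) (ε : ℝ) (hε : 0 < ε) :
    |w (t, y) - w (t, x)| ≤ B * (y - x) +
      (ε * ZZ w u X 0 (2 * π) t + M * (y - x) / ε) / 2 := by
  obtain ⟨a, rfl⟩ := Flow.surj h.cs.vel h.fl t x
  obtain ⟨b, rfl⟩ := Flow.surj h.cs.vel h.fl t y
  have hm := Flow.mono h.cs.vel h.fl t
  have hab : a ≤ b := hm.le_iff_le.1 hxy
  have hba : b ≤ a + 2 * π := by
    rw [← Flow.per h.cs.vel h.fl] at hyx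
    exact hm.le_iff_le.1 hyx
  have cw : Continuous fun α => w (0, α) :=
    h.cs.sm.continuous.comp (continuous_const.prodMk continuous_id)
  have cpx : Continuous fun α => px w (0, α) :=
    (smooth_px w h.cs.sm).continuous.comp (continuous_const.prodMk continuous_id)
  have cl : Continuous fun α => lam u X t α :=
    (lam_cont h.cs.vel h.fl).comp (continuous_const.prodMk continuous_id)
  have cm : Continuous fun α => lma u X t α :=
    (lma_cont h.cs.vel h.fl).comp (continuous_const.prodMk continuous_id)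
  have ce : Continuous fun α => Real.exp (lam u X t α) := Real.continuous_exp.comp cl
  have hder : ∀ α, HasDerivAt (fun β => w (t, X t β))
      ((px w (0, α) + w (0, α) * lma u X t α) * Real.exp (lam u X t α)) α := by
    intro α
    have h1 : HasDerivAt (fun β => w (t, X t β))
        (px w (t, X t α) * Real.exp (lam u X t α)) α :=
      HasDerivAt.comp α (hasDerivAt_px w h.cs.sm t (X t α))
        (Flow.hasDerivAt_label h.cs.vel h.fl t α ht)
    rw [wx_along h.cs h.fl t α ht] at h1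
    exact h1
  have cF : Continuous fun α => (px w (0, α) + w (0, α) * lma u X t α) *
      Real.exp (lam u X t α) := (cpx.add (cw.mul cm)).mul ce
  have e1 : w (t, X t b) - w (t, X t a) = ∫ α in a..b,
      (px w (0, α) + w (0, α) * lma u X t α) * Real.exp (lam u X t α) :=
    (intervalIntegral.integral_eq_sub_of_hasDerivAt (fun α _ => hder α)
      (cF.intervalIntegrable a b)).symm
  have e2 : X t b - X t a = ∫ α in a..b, Real.exp (lam u X t α) :=
    (intervalIntegral.integral_eq_sub_of_hasDerivAt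
      (fun α _ => Flow.hasDerivAt_label h.cs.vel h.fl t α ht)
      (ce.intervalIntegrable a b)).symm
  have cZ := OneS_Vint h t
  have hpt : ∀ α, |(px w (0, α) + w (0, α) * lma u X t α) * Real.exp (lam u X t α)| ≤
      (B + M / (2 * ε)) * Real.exp (lam u X t α) + ε / 2 * (|w (0, α)| * lma u X t α ^ 2) := by
    intro α
    have hE : 0 < Real.exp (lam u X t α) := Real.exp_pos _
    have h1 : |w (0, α)| * Real.exp (lam u X t α) ≤ M := by
      have h2 := hM (X t α)
      rw [w_along h.cs h.fl, abs_mul, abs_of_pos hE] at h2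
      exact h2
    have h3 : |px w (0, α) + w (0, α) * lma u X t α| ≤ B + |w (0, α)| * |lma u X t α| := by
      have h4 := abs_add_le (px w (0, α)) (w (0, α) * lma u X t α)
      rw [abs_mul (w (0, α))] at h4
      linarith [hB α]
    have h5 : |lma u X t α| * Real.exp (lam u X t α) ≤
        ε / 2 * lma u X t α ^ 2 + Real.exp (lam u X t α) ^ 2 / (2 * ε) := by
      have h6 : 0 ≤ (ε * |lma u X t α| - Real.exp (lam u X t α)) ^ 2 := sq_nonneg _
      have h7 : |lma u X t α| ^ 2 = lma u X t α ^ 2 := sq_abs _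
      have h8 : ε / 2 * lma u X t α ^ 2 + Real.exp (lam u X t α) ^ 2 / (2 * ε) -
          |lma u X t α| * Real.exp (lam u X t α) =
          (ε * |lma u X t α| - Real.exp (lam u X t α)) ^ 2 / (2 * ε) := by
        rw [← h7]
        field_simp
        ring
      have h9 : 0 ≤ (ε * |lma u X t α| - Real.exp (lam u X t α)) ^ 2 / (2 * ε) := by positivity
      linarith
    rw [abs_mul, abs_of_pos hE]
    have h10 := mul_le_mul_of_nonneg_left h5 (abs_nonneg (w (0, α)))
    have h11 := mul_le_mul_of_nonneg_right h3 hE.le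
    have h12 : |w (0, α)| * (Real.exp (lam u X t α) ^ 2 / (2 * ε)) ≤
        M / (2 * ε) * Real.exp (lam u X t α) := by
      have h13 := mul_le_mul_of_nonneg_right h1
        (show 0 ≤ Real.exp (lam u X t α) / (2 * ε) by positivity)
      have h14 : |w (0, α)| * (Real.exp (lam u X t α) ^ 2 / (2 * ε)) =
          |w (0, α)| * Real.exp (lam u X t α) * (Real.exp (lam u X t α) / (2 * ε)) := by ring
      have h15 : M / (2 * ε) * Real.exp (lam u X t α) =
          M * (Real.exp (lam u X t α) / (2 * ε)) := by ring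
      rw [h14, h15]
      exact h13
    have h16 : |w (0, α)| * (ε / 2 * lma u X t α ^ 2) =
        ε / 2 * (|w (0, α)| * lma u X t α ^ 2) := by ring
    nlinarith
  have cR : Continuous fun α => (B + M / (2 * ε)) * Real.exp (lam u X t α) +
      ε / 2 * (|w (0, α)| * lma u X t α ^ 2) :=
    (continuous_const.mul ce).add (continuous_const.mul cZ)
  have h20 : |w (t, X t b) - w (t, X t a)| ≤ ∫ α in a..b,
      ((B + M / (2 * ε)) * Real.exp (lam u X t α) +
        ε / 2 * (|w (0, α)| * lma u X t α ^ 2)) := by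
    rw [e1, ← Real.norm_eq_abs]
    refine intervalIntegral.norm_integral_le_of_norm_le hab ?_ (cR.intervalIntegrable a b)
    refine Filter.Eventually.of_forall fun α _ => ?_
    rw [Real.norm_eq_abs]
    exact hpt α
  have i1 : IntervalIntegrable (fun α => (B + M / (2 * ε)) * Real.exp (lam u X t α)) volume a b :=
    (continuous_const.mul ce).intervalIntegrable a b
  have i2 : IntervalIntegrable (fun α => ε / 2 * (|w (0, α)| * lma u X t α ^ 2)) volume a b :=
    (continuous_const.mul cZ).intervalIntegrable a b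
  rw [intervalIntegral.integral_add i1 i2, intervalIntegral.integral_const_mul,
    intervalIntegral.integral_const_mul, ← e2] at h20
  have h21 : ∫ α in a..b, |w (0, α)| * lma u X t α ^ 2 ≤ ZZ w u X 0 (2 * π) t := by
    rw [← OneS_VZZ h t a]
    refine intervalIntegral.integral_mono_interval le_rfl hab hba ?_
      (cZ.intervalIntegrable _ _)
    exact Filter.Eventually.of_forall fun α => mul_nonneg (abs_nonneg _) (sq_nonneg _)
  have h22 := mul_le_mul_of_nonneg_left h21 (show 0 ≤ ε / 2 by positivity)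
  have h23 : (B + M / (2 * ε)) * (X t b - X t a) = B * (X t b - X t a) +
      M * (X t b - X t a) / ε / 2 := by
    field_simp
  rw [h23] at h20
  linarith

theorem hoelderS {w u : ℝ × ℝ → ℝ} {X : ℝ → ℝ → ℝ} {T B M : ℝ} (h : DynS w u X T)
    (hB : ∀ x, |px w (0, x)| ≤ B) {t : ℝ} (ht : t ∈ Icc 0 T) (hM : ∀ x, |w (t, x)| ≤ M) {x y : ℝ}
    (hxy : |x - y| ≤ 2 * π) :
    |w (t, x) - w (t, y)| ≤ B * |x - y| + Real.sqrt (ZZ w u X 0 (2 * π) t * M * |x - y|) := by
  have hM0 : 0 ≤ M := (abs_nonneg _).trans (hM 0)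
  have hZ := OneS_VZZ_nonneg (w := w) (u := u) (X := X) 0 (2 * π) t
  have gen : ∀ x y : ℝ, x ≤ y → y - x ≤ 2 * π → |w (t, y) - w (t, x)| ≤
      B * (y - x) + Real.sqrt (ZZ w u X 0 (2 * π) t * M * (y - x)) := by
    intro x y h1 h2
    have h3 := OneS_Vopt (D := |w (t, y) - w (t, x)| - B * (y - x)) (Z := ZZ w u X 0 (2 * π) t)
      (P := M * (y - x)) hZ (mul_nonneg hM0 (by linarith)) (fun ε hε => by
        have h4 := OneS_Veps h hB ht.1 hM h1 (by linarith) ε hε
        linarith)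
    rw [mul_assoc]
    linarith
  rcases le_total x y with h1 | h1
  · have e : |x - y| = y - x := by rw [abs_sub_comm, abs_of_nonneg (by linarith)]
    rw [e] at hxy ⊢
    rw [abs_sub_comm]
    exact gen x y h1 hxy
  · have e : |x - y| = x - y := abs_of_nonneg (by linarith)
    rw [e] at hxy ⊢
    exact gen y x h1 hxy

private theorem OneS_Vsq {a b : ℝ} (ha : 0 ≤ a) (hb : 0 ≤ b) :
    Real.sqrt (a * b) ≤ a / 2 + b / 2 := by
  apply Real.sqrt_le_iff.2
  constructor
  · linarith
  · nlinarith [sq_nonneg (a - b)]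

private theorem OneS_Vw {w u : ℝ × ℝ → ℝ} {X : ℝ → ℝ → ℝ} {T B m : ℝ} (h : DynS w u X T)
    (hB : ∀ x, |px w (0, x)| ≤ B) (hm : ∫ x in (0:ℝ)..(2 * π), w (0, x) ≤ 2 * π * m)
    {t : ℝ} (ht : t ∈ Icc 0 T) (x : ℝ) :
    |w (t, x)| ≤ 4 * π * B + 2 * π * ZZ w u X 0 (2 * π) t + 2 * m := by
  have hpi := Real.pi_pos
  have cw0 : Continuous fun x => w (t, x) :=
    h.cs.sm.continuous.comp (continuous_const.prodMk continuous_id)
  have cw : Continuous fun x => |w (t, x)| := cw0.abs
  have hnn : ∀ x, 0 ≤ w (t, x) := by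
    intro x
    obtain ⟨a, rfl⟩ := Flow.surj h.cs.vel h.fl t x
    rw [w_along h.cs h.fl]
    exact mul_nonneg (h.pos a) (Real.exp_pos _).le
  obtain ⟨x0, hx0, hmax⟩ := isCompact_Icc.exists_isMaxOn
    (nonempty_Icc.2 (by linarith : (0:ℝ) ≤ 2 * π)) cw.continuousOn
  obtain ⟨x1, hx1, hmin⟩ := isCompact_Icc.exists_isMinOn
    (nonempty_Icc.2 (by linarith : (0:ℝ) ≤ 2 * π)) cw0.continuousOn
  have hper : Function.Periodic (fun x => |w (t, x)|) (2 * π) := by
    intro x
    show |w (t, x + 2 * π)| = |w (t, x)|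
    rw [h.cs.per]
  have hM : ∀ x, |w (t, x)| ≤ |w (t, x0)| := by
    intro x
    obtain ⟨y, hy, hxy⟩ := hper.exists_mem_Ico₀ (by positivity : (0:ℝ) < 2 * π) x
    have h1 : |w (t, x)| = |w (t, y)| := hxy
    rw [h1]
    exact hmax (Ico_subset_Icc_self hy)
  have h0 : w (t, x1) ≤ m := by
    have h1 : ∫ _ in (0:ℝ)..(2 * π), w (t, x1) ≤ ∫ x in (0:ℝ)..(2 * π), w (t, x) :=
      intervalIntegral.integral_mono_on (by linarith) (continuous_const.intervalIntegrable _ _)
        (cw0.intervalIntegrable _ _) (fun x hx => hmin hx)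
    rw [mean_constS h t ht, intervalIntegral.integral_const, smul_eq_mul, sub_zero] at h1
    have h2 := h1.trans hm
    exact le_of_mul_le_mul_left h2 (by positivity)
  have hb0 : 0 ≤ B := (abs_nonneg _).trans (hB 0)
  have hZ := OneS_VZZ_nonneg (w := w) (u := u) (X := X) 0 (2 * π) t
  have h2 : |x0 - x1| ≤ 2 * π := by
    rw [abs_le]
    constructor
    · linarith [hx0.1, hx1.2]
    · linarith [hx0.2, hx1.1]
  have h3 := (abs_le.1 (hoelderS h hB ht hM h2)).2
  have h4 : Real.sqrt (ZZ w u X 0 (2 * π) t * |w (t, x0)| * |x0 - x1|) ≤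
      Real.sqrt ((2 * π * ZZ w u X 0 (2 * π) t) * |w (t, x0)|) := by
    apply Real.sqrt_le_sqrt
    have h5 : ZZ w u X 0 (2 * π) t * |w (t, x0)| * |x0 - x1| ≤
        ZZ w u X 0 (2 * π) t * |w (t, x0)| * (2 * π) :=
      mul_le_mul_of_nonneg_left h2 (mul_nonneg hZ (abs_nonneg _))
    linarith
  have h6 := OneS_Vsq (a := 2 * π * ZZ w u X 0 (2 * π) t) (b := |w (t, x0)|) (by positivity)
    (abs_nonneg _)
  have h7 : B * |x0 - x1| ≤ B * (2 * π) := mul_le_mul_of_nonneg_left h2 hb0
  have h8 := hM x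
  have h9 : |w (t, x0)| = w (t, x0) := abs_of_nonneg (hnn x0)
  linarith

private theorem OneS_VH {W : ℝ → ℝ} {B Q x : ℝ} (hB : 0 ≤ B) (hQ : 0 ≤ Q)
    (hW : ∀ s ∈ Ioc (0:ℝ) π, |W (x - s) - W (x + s)| ≤ B * (2 * s) + Real.sqrt (Q * (2 * s))) :
    |HT W x| ≤ 2 * B + 2 / π * Real.sqrt (2 * π * Q) := by
  have hpi := Real.pi_pos
  have hint : IntervalIntegrable (fun s : ℝ => 4 * B + 2 * Real.sqrt (2 * Q) * s ^ (-(1 / 2) : ℝ))
      volume 0 π := by
    apply IntervalIntegrable.add
    · exact intervalIntegrable_const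
    · exact (intervalIntegral.intervalIntegrable_rpow' (by norm_num)).const_mul _
  have h1 : |∫ s in (0:ℝ)..π, (W (x - s) - W (x + s)) * (Real.cos (s / 2) / Real.sin (s / 2))| ≤
      ∫ s in (0:ℝ)..π, (4 * B + 2 * Real.sqrt (2 * Q) * s ^ (-(1 / 2) : ℝ)) := by
    rw [← Real.norm_eq_abs]
    refine intervalIntegral.norm_integral_le_of_norm_le hpi.le ?_ hint
    refine Filter.Eventually.of_forall fun s hs => ?_
    obtain ⟨hc0, hc1⟩ := cot_le hs.1 hs.2
    have hs0 : 0 < s := hs.1
    rw [Real.norm_eq_abs, abs_mul, abs_of_nonneg hc0]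
    have h2 := mul_le_mul (hW s hs) hc1 hc0 (by positivity)
    have h3 : Real.sqrt (Q * (2 * s)) = Real.sqrt (2 * Q) * Real.sqrt s := by
      rw [← Real.sqrt_mul (by positivity)]
      congr 1
      ring
    have h4 : s ^ (-(1 / 2) : ℝ) = Real.sqrt s / s := by
      rw [Real.rpow_neg hs0.le, ← Real.sqrt_eq_rpow, inv_eq_one_div, div_eq_div_iff (by positivity) hs0.ne',
        Real.mul_self_sqrt hs0.le, one_mul]
    rw [h3] at h2
    rw [h4]
    have h5 : (B * (2 * s) + Real.sqrt (2 * Q) * Real.sqrt s) * (2 / s) =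
        4 * B + 2 * Real.sqrt (2 * Q) * (Real.sqrt s / s) := by
      field_simp
      ring
    linarith
  have h6 : ∫ s in (0:ℝ)..π, (4 * B + 2 * Real.sqrt (2 * Q) * s ^ (-(1 / 2) : ℝ)) =
      4 * B * π + 4 * Real.sqrt (2 * π * Q) := by
    rw [intervalIntegral.integral_add intervalIntegrable_const
      ((intervalIntegral.intervalIntegrable_rpow' (by norm_num)).const_mul _),
      intervalIntegral.integral_const, intervalIntegral.integral_const_mul,
      integral_rpow (Or.inl (by norm_num))]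
    have h7 : (-(1 / 2) + 1 : ℝ) = 1 / 2 := by norm_num
    rw [h7, Real.zero_rpow (by norm_num), ← Real.sqrt_eq_rpow, smul_eq_mul]
    have h8 : Real.sqrt (2 * π * Q) = Real.sqrt (2 * Q) * Real.sqrt π := by
      rw [← Real.sqrt_mul (by positivity)]
      congr 1
      ring
    rw [h8]
    ring
  rw [h6] at h1
  unfold HT
  rw [abs_mul, abs_of_pos (by positivity : (0:ℝ) < 1 / (2 * π))]
  have h9 := mul_le_mul_of_nonneg_left h1 (by positivity : (0:ℝ) ≤ 1 / (2 * π))
  refine h9.trans (le_of_eq ?_)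
  field_simp
  ring

theorem vel_leS {w u : ℝ × ℝ → ℝ} {X : ℝ → ℝ → ℝ} {T B m : ℝ} (h : DynS w u X T)
    (hB : ∀ x, |px w (0, x)| ≤ B) (hm0 : 0 ≤ m)
    (hm : ∫ x in (0:ℝ)..(2 * π), w (0, x) ≤ 2 * π * m) {t : ℝ} (ht : t ∈ Icc 0 T) (x : ℝ) :
    |w (t, x)| ≤ 4 * π * (B + m + ZZ w u X 0 (2 * π) t) ∧
      |px u (t, x)| ≤ 100 * (B + m + ZZ w u X 0 (2 * π) t) := by
  have hpi := Real.pi_pos
  have hpi3 := Real.pi_gt_three
  have hb0 : 0 ≤ B := (abs_nonneg _).trans (hB 0)
  have hZ := OneS_VZZ_nonneg (w := w) (u := u) (X := X) 0 (2 * π) t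
  set Z := ZZ w u X 0 (2 * π) t with hZd
  have hM : ∀ x, |w (t, x)| ≤ 4 * π * B + 2 * π * Z + 2 * m := fun x => OneS_Vw h hB hm ht x
  constructor
  · have h1 := hM x
    have h2 : 0 ≤ π * Z := by positivity
    have h3 : 3 * m ≤ π * m := mul_le_mul_of_nonneg_right hpi3.le hm0
    nlinarith
  · rw [h.hu t ht x]
    have h3 := OneS_VH (W := fun y => w (t, y)) (B := B) (Q := Z * (4 * π * B + 2 * π * Z + 2 * m))
      (x := x) hb0 (by positivity) (fun s hs => by
        have e : |x - s - (x + s)| = 2 * s := by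
          rw [show x - s - (x + s) = -(2 * s) by ring, abs_neg, abs_of_pos (by linarith [hs.1])]
        have h4 := hoelderS h hB ht hM (x := x - s) (y := x + s) (by rw [e]; linarith [hs.2])
        rw [e] at h4
        exact h4)
    have h5 : Real.sqrt (2 * π * (Z * (4 * π * B + 2 * π * Z + 2 * m))) ≤
        (2 * π * Z) / 2 + (4 * π * B + 2 * π * Z + 2 * m) / 2 := by
      rw [← mul_assoc]
      exact OneS_Vsq (by positivity) (by positivity)
    have h6 : 2 / π * Real.sqrt (2 * π * (Z * (4 * π * B + 2 * π * Z + 2 * m))) ≤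
        2 / π * ((2 * π * Z) / 2 + (4 * π * B + 2 * π * Z + 2 * m) / 2) :=
      mul_le_mul_of_nonneg_left h5 (by positivity)
    have h7 : 2 / π * ((2 * π * Z) / 2 + (4 * π * B + 2 * π * Z + 2 * m) / 2) =
        4 * B + 4 * Z + 2 * m / π := by
      field_simp
      ring
    have h8 : 2 * m / π ≤ 2 * m := div_le_self (by positivity) (by linarith)
    linarith

/-- the energy is conserved -/
theorem ED_zeroS {w u : ℝ × ℝ → ℝ} {X : ℝ → ℝ → ℝ} {T : ℝ} (h : DynS w u X T) (t : ℝ)
    (ht : t ∈ Icc 0 T) : ED w u X 0 (2 * π) t = 0 := by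
  have hs1 := smooth_px w h.cs.sm
  have hs2 := smooth_px (px w) hs1
  have hu1 := smooth_px u h.cs.vel.sm
  have hu2 := smooth_px (px u) hu1
  have hp1 := HTd_per h.cs.per
  have hp2 := HTd_per hp1
  have hc : ∀ {v : ℝ × ℝ → ℝ}, ContDiff ℝ ((⊤ : ℕ∞) : WithTop ℕ∞) v →
      Continuous (fun y : ℝ => v (t, y)) := fun hv =>
    hv.continuous.comp (continuous_const.prodMk continuous_id)
  obtain ⟨K', hK'⟩ := HTd_lip (f := fun y => px w (t, y)) (f' := fun y => px (px w) (t, y))
    (fun y => hasDerivAt_px (px w) hs1 t y) (hc hs2) (fun y => hp2 t y)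
  have h1 := int_W_HT (fun y => px w (t, y)) K' (fun y => hp1 t y) hK'
  have h2 : ∫ x in (0:ℝ)..(2 * π), px w (t, x) * px (px u) (t, x) = 0 := by
    refine Eq.trans (intervalIntegral.integral_congr fun x _ => ?_) h1
    show px w (t, x) * px (px u) (t, x) = px w (t, x) * HT (fun y => px w (t, y)) x
    rw [pxxS h t ht]
  have e1 := chg h.cs h.fl t ht.1 (fun x => px w (t, x) * px (px u) (t, x))
    ((hc hs1).mul (hc hu2)) 0 (2 * π)
  have hpu : ∀ x, px (px u) (t, x + 2 * π) = px (px u) (t, x) := by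
    have p1 := HTd_per h.cs.vel.per
    exact fun x => HTd_per p1 t x
  have e3 : ∫ x in (X t 0)..(X t (2 * π)), px w (t, x) * px (px u) (t, x) =
      ∫ x in (0:ℝ)..(2 * π), px w (t, x) * px (px u) (t, x) := by
    have hp : Function.Periodic (fun x => px w (t, x) * px (px u) (t, x)) (2 * π) := by
      intro x
      show px w (t, x + 2 * π) * px (px u) (t, x + 2 * π) = px w (t, x) * px (px u) (t, x)
      rw [hp1, hpu]
    have h1 := Flow.per h.cs.vel h.fl t 0
    rw [zero_add] at h1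
    have h2 := hp.intervalIntegral_add_eq (X t 0) 0
    rw [zero_add] at h2
    rw [h1, h2]
  rw [e3, h2] at e1
  unfold ED
  rw [← integral_Ioc_eq_integral_Ioo, ← intervalIntegral.integral_of_le (by positivity)]
  have e4 : ∀ α, 2 * (px w (0, α) + w (0, α) * lma u X t α) *
      (px (px u) (t, X t α) * Real.exp (lam u X t α)) =
      2 * (px w (t, X t α) * px (px u) (t, X t α) * Real.exp (lam u X t α)) := by
    intro α
    rw [wx_along h.cs h.fl t α ht.1]
    ring
  simp only [e4]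
  rw [intervalIntegral.integral_const_mul, ← e1, mul_zero]

theorem EI_zeroS {w u : ℝ × ℝ → ℝ} {X : ℝ → ℝ → ℝ} {T : ℝ} (h : DynS w u X T) (t : ℝ)
    (ht : t ∈ Icc 0 T) : EI w u X 0 (2 * π) t = 0 := by
  have key := constant_of_has_deriv_right_zero (a := 0) (b := T)
    (f := fun s => EI w u X 0 (2 * π) s)
    (fun s _ => (EI_hasDerivAt h.cs h.fl 0 (2 * π) s).continuousAt.continuousWithinAt)
    (fun s hs => by
      have h1 := EI_hasDerivAt h.cs h.fl 0 (2 * π) s
      rw [ED_zeroS h s ⟨hs.1, hs.2.le⟩] at h1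
      exact h1.hasDerivWithinAt)
  have h2 := key t ht
  rw [h2, EI_zero]

end Pool.Agent.H90.DA
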