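import Pool.Agent.H90.DA.Defs
import Pool.Agent.H45.DY.JIder
import Pool.Agent.H45.DY.Sgn

/-!
# DA job A1: the part `RI` of the functional (correction of the P weight) is differentiable in time

`Rq q ξ = Pq 0 ξ - Pq q ξ ≥ 0` for `q ≥ 0`, `T_P = JI c c (e+2π) - MI c (e+2π)/4 - RI`.
`α ∈ (c, e+2π)`, `ξ = X t α - X t c ∈ (0,2π)` (`xi_pos`, `xi_lt`), `l = el X e c t ∈ (0,2π)` (`el_pos`, `el_lt`), with
`l' = u (t, X t c) - u (t, X t e)` (`el_hasDerivAt`).  On `(0,2π)`: `ct' = -(1+ct²)/2` (`HInt_ct_hd`, DC/HInt.lean),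
`max (ct ξ - q) 0 ^ 2` is `C¹` jointly in `(q, ξ)` (`x ↦ max x 0 ^ 2` has the derivative `2 max x 0`), so the integrand has the
time derivative written in `RD`.
BOUND (for `|t| ≤ N`): `|w(0,α)| ≤ K (α - c)`, `ξ ≥ k (α - c)` (`k > 0`; mean value, `lam` bounded, `ubd`), `|ct ξ| ≤ 2/ξ` where
`ct ξ ≥ 0`; `0 ≤ max (ct) 0 - max (ct - q) 0 ≤ q`, `0 ≤ Rq ≤ q max (ct ξ) 0 / 2` (both `≤` for `q ≥ 0`), and
`|u(X α) - u(X c)| ≤ K ξ`; `q`, `dq` are bounded on the compact range of `el` (`|t| ≤ N`).  For `ct ξ < 0` everything is `0`.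
Then `hasDerivAt_integral_of_dominated_loc_of_deriv_le` as for `JI_hasDerivAt` (H45/DY/JIder.lean, Gd.lean).
-/

set_option autoImplicit false
open Real Set MeasureTheory Filter Topology

namespace Pool.Agent.H90.DA
open Pool.Agent.H45.FL Pool.Agent.H51.DG Pool.Agent.H45.DY Pool.Agent.H90.DC

noncomputable def Rq (q ξ : ℝ) : ℝ := Pq 0 ξ - Pq q ξ

noncomputable def RI (w u : ℝ × ℝ → ℝ) (X : ℝ → ℝ → ℝ) (q : ℝ → ℝ) (e c t : ℝ) : ℝ :=
  ∫ α in Ioo c (e + 2 * π), |w (0, α)| * (Real.exp (2 * lam u X t α) *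
    Rq (q (el X e c t)) (X t α - X t c))

/-- the integrand of `RD` without `|w(0,α)|` -/
noncomputable def rd (u : ℝ × ℝ → ℝ) (X : ℝ → ℝ → ℝ) (q dq : ℝ → ℝ) (e c t α : ℝ) : ℝ :=
  Real.exp (2 * lam u X t α) *
    (2 * px u (t, X t α) * Rq (q (el X e c t)) (X t α - X t c) +
      (u (t, X t α) - u (t, X t c)) *
        (dPq 0 (X t α - X t c) - dPq (q (el X e c t)) (X t α - X t c)) +
      1 / 2 * dq (el X e c t) * (u (t, X t c) - u (t, X t e)) *
        max (ct (X t α - X t c) - q (el X e c t)) 0)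

noncomputable def RD (w u : ℝ × ℝ → ℝ) (X : ℝ → ℝ → ℝ) (q dq : ℝ → ℝ) (e c t : ℝ) : ℝ :=
  ∫ α in Ioo c (e + 2 * π), |w (0, α)| * rd u X q dq e c t α

variable {w u : ℝ × ℝ → ℝ} {X : ℝ → ℝ → ℝ} {e c T : ℝ} {q dq : ℝ → ℝ}

lemma RIder_ct_hd {x : ℝ} (h0 : 0 < x) (h1 : x < 2 * π) :
    HasDerivAt ct (-(1 + ct x ^ 2) / 2) x := by
  have hs : 0 < Real.sin (x / 2) := Real.sin_pos_of_pos_of_lt_pi (by linarith) (by linarith)
  have h2 : HasDerivAt (fun y : ℝ => y / 2) (1 / 2) x := (hasDerivAt_id x).div_const 2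
  have hc : HasDerivAt (fun y : ℝ => Real.cos (y / 2)) (-Real.sin (x / 2) * (1 / 2)) x :=
    h2.cos
  have hsn : HasDerivAt (fun y : ℝ => Real.sin (y / 2)) (Real.cos (x / 2) * (1 / 2)) x :=
    h2.sin
  have h3 := hc.div hsn hs.ne'
  refine h3.congr_deriv ?_
  unfold ct
  have h4 := Real.sin_sq_add_cos_sq (x / 2)
  field_simp
  nlinarith [h4]

lemma RIder_ct_le {x : ℝ} (h0 : 0 < x) (h1 : x < 2 * π) : max (ct x) 0 ≤ 2 / x := by
  have hs : 0 < Real.sin (x / 2) := Real.sin_pos_of_pos_of_lt_pi (by linarith) (by linarith)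
  refine max_le ?_ (by positivity)
  rcases lt_or_ge x π with h | h
  · have hc : 0 < Real.cos (x / 2) := Real.cos_pos_of_mem_Ioo ⟨by linarith, by linarith⟩
    have h2 : x / 2 < Real.tan (x / 2) := Real.lt_tan (by linarith) (by linarith)
    rw [Real.tan_eq_sin_div_cos, lt_div_iff₀ hc] at h2
    unfold ct
    rw [div_le_div_iff₀ hs h0]
    linarith
  · have hc : Real.cos (x / 2) ≤ 0 :=
      Real.cos_nonpos_of_pi_div_two_le_of_le (by linarith) (by linarith)
    have h2 : ct x ≤ 0 := div_nonpos_of_nonpos_of_nonneg hc hs.le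
    exact h2.trans (by positivity)

lemma RIder_sq_hd (x : ℝ) : HasDerivAt (fun y : ℝ => max y 0 ^ 2) (2 * max x 0) x := by
  rcases lt_trichotomy x 0 with h | h | h
  · have e1 : (fun y : ℝ => max y 0 ^ 2) =ᶠ[𝓝 x] fun _ => (0:ℝ) := by
      filter_upwards [Iio_mem_nhds h] with y hy
      rw [max_eq_right (le_of_lt hy)]
      norm_num
    rw [max_eq_right h.le, mul_zero]
    exact (hasDerivAt_const x (0:ℝ)).congr_of_eventuallyEq e1
  · subst h
    have e1 : (fun y : ℝ => max y 0 ^ 2) =O[𝓝 (0:ℝ)] fun y => ‖y - 0‖ ^ 2 := by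
      refine Asymptotics.IsBigO.of_bound 1 (Filter.Eventually.of_forall fun y => ?_)
      rw [one_mul, sub_zero, norm_pow, norm_pow, norm_norm]
      refine pow_le_pow_left₀ (norm_nonneg _) ?_ 2
      rw [Real.norm_eq_abs, Real.norm_eq_abs, abs_of_nonneg (le_max_right _ _)]
      exact max_le (le_abs_self y) (abs_nonneg y)
    have e2 := (e1.hasFDerivAt (𝕜 := ℝ) (by norm_num)).hasDerivAt
    refine e2.congr_deriv ?_
    simp
  · have e1 : (fun y : ℝ => max y 0 ^ 2) =ᶠ[𝓝 x] fun y => y ^ 2 := by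
      filter_upwards [Ioi_mem_nhds h] with y hy
      rw [max_eq_left (le_of_lt hy)]
    rw [max_eq_left h.le]
    refine ((hasDerivAt_pow 2 x).congr_of_eventuallyEq e1).congr_deriv ?_
    simp

lemma RIder_ab {y s : ℝ} (hs : 0 ≤ s) : 0 ≤ max (y - s) 0 ∧ max (y - s) 0 ≤ max y 0 ∧
    max y 0 - max (y - s) 0 ≤ s := by
  refine ⟨le_max_right _ _, max_le_max (by linarith) le_rfl, ?_⟩
  rcases le_total y 0 with h | h
  · rw [max_eq_right h, max_eq_right (by linarith : y - s ≤ 0)]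
    linarith
  · rw [max_eq_left h]
    linarith [le_max_left (y - s) 0]

lemma RIder_Rq {s ξ : ℝ} (hs : 0 ≤ s) : 0 ≤ Rq s ξ ∧ Rq s ξ ≤ s * max (ct ξ) 0 / 2 := by
  obtain ⟨h0, h1, h2⟩ := RIder_ab (y := ct ξ) hs
  unfold Rq Pq
  rw [sub_zero]
  constructor
  · nlinarith
  · nlinarith [mul_nonneg (sub_nonneg.2 h2) (h0.trans h1), mul_nonneg (sub_nonneg.2 h1) (sub_nonneg.2 h1)]

lemma RIder_dP {s ξ : ℝ} (hs : 0 ≤ s) :
    |dPq 0 ξ - dPq s ξ| ≤ s * (1 + max (ct ξ) 0 ^ 2) / 4 := by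
  obtain ⟨h0, h1, h2⟩ := RIder_ab (y := ct ξ) hs
  unfold dPq
  rw [sub_zero]
  rcases le_total (ct ξ) 0 with h | h
  · rw [max_eq_right h, max_eq_right (by linarith : ct ξ - s ≤ 0)]
    simp only [zero_mul, zero_div, neg_zero, sub_zero, abs_zero]
    positivity
  · rw [max_eq_left h] at h1 h2 ⊢
    have e1 : -(ct ξ * (1 + ct ξ ^ 2) / 4) - -(max (ct ξ - s) 0 * (1 + ct ξ ^ 2) / 4) =
        -((ct ξ - max (ct ξ - s) 0) * ((1 + ct ξ ^ 2) / 4)) := by ring
    rw [e1, abs_neg, abs_mul, abs_of_nonneg (sub_nonneg.2 h1), abs_of_nonneg (by positivity), mul_div_assoc]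
    exact mul_le_mul_of_nonneg_right h2 (by positivity)

lemma RIder_xi (h : Dyn w u X e c T) (t α : ℝ) (hα : α ∈ Ioo c (e + 2 * π)) :
    X t α - X t c ∈ Ioo 0 (2 * π) := by
  have hm := Flow.mono h.cs.vel h.fl t
  have h1 : X t α < X t (c + 2 * π) := hm (by linarith [hα.2, h.hec])
  have h2 : X t c < X t α := hm hα.1
  rw [Flow.per h.cs.vel h.fl] at h1
  exact ⟨by linarith, by linarith⟩

lemma RIder_q (h : Dyn w u X e c T) (hq : QF q dq) (N : ℝ) :
    ∃ K : ℝ, 0 ≤ K ∧ ∀ t, |t| ≤ N → q (el X e c t) ≤ K ∧ |dq (el X e c t)| ≤ K := by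
  have hel : Continuous (el X e c) := continuous_iff_continuousAt.2 fun t =>
    ((h.fl.ode t c).sub (h.fl.ode t e)).continuousAt
  have hqc : ContinuousOn q (Ioo 0 (2 * π)) := fun x hx =>
    (hq.der x hx.1 hx.2).continuousAt.continuousWithinAt
  have c1 : Continuous fun t => q (el X e c t) :=
    hqc.comp_continuous hel fun t => ⟨h.el_pos t, h.el_lt t⟩
  have c2 : Continuous fun t => dq (el X e c t) :=
    hq.cont.comp_continuous hel fun t => ⟨h.el_pos t, h.el_lt t⟩
  obtain ⟨C1, h1⟩ := (isCompact_Icc (a := -N) (b := N)).exists_bound_of_continuousOn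
    c1.continuousOn
  obtain ⟨C2, h2⟩ := (isCompact_Icc (a := -N) (b := N)).exists_bound_of_continuousOn
    c2.continuousOn
  refine ⟨max (max C1 C2) 0, le_max_right _ _, fun t ht => ?_⟩
  have g1 := h1 t (abs_le.1 ht)
  have g2 := h2 t (abs_le.1 ht)
  rw [Real.norm_eq_abs] at g1 g2
  exact ⟨(le_abs_self _).trans (g1.trans ((le_max_left _ _).trans (le_max_left _ _))),
    g2.trans ((le_max_right _ _).trans (le_max_left _ _))⟩

/-- the weight `|w0| exp(2 lam)` near the zero -/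
lemma RIder_w (h : Dyn w u X e c T) (N : ℝ) : ∃ K : ℝ, 0 ≤ K ∧ ∀ t α, |t| ≤ N →
    α ∈ Ioo c (e + 2 * π) →
    |w (0, α)| * Real.exp (2 * lam u X t α) ≤ K * (X t α - X t c) := by
  obtain ⟨K, hK, hb⟩ := ubd h.cs h.fl N
  obtain ⟨K1, hK1, hw⟩ := w_near h.cs h.fl N
  refine ⟨K1 * Real.exp K, by positivity, fun t α ht hα => ?_⟩
  have hξ := RIder_xi h t α hα
  have e1 : |w (0, α)| * Real.exp (2 * lam u X t α) =
      |w (t, X t α)| * Real.exp (lam u X t α) := by
    rw [w_along h.cs h.fl t α, abs_mul, Real.abs_exp, mul_assoc, ← Real.exp_add]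
    ring_nf
  have e2 : Real.exp (lam u X t α) ≤ Real.exp K :=
    Real.exp_le_exp.2 ((le_abs_self _).trans (hb t α ht).2.2.2.2.2.1)
  have e3 := hw t α c ht h.zc
  rw [abs_of_pos hξ.1] at e3
  rw [e1]
  calc |w (t, X t α)| * Real.exp (lam u X t α) ≤ K1 * (X t α - X t c) * Real.exp K :=
        mul_le_mul e3 e2 (Real.exp_pos _).le (mul_nonneg hK1 hξ.1.le)
    _ = K1 * Real.exp K * (X t α - X t c) := by ring

lemma RIder_bd (h : Dyn w u X e c T) (hq : QF q dq) (N : ℝ) : ∃ K : ℝ, 0 ≤ K ∧ ∀ t α,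
    |t| ≤ N → α ∈ Ioo c (e + 2 * π) →
    ‖|w (0, α)| * (Real.exp (2 * lam u X t α) * Rq (q (el X e c t)) (X t α - X t c))‖ ≤ K ∧
    ‖|w (0, α)| * rd u X q dq e c t α‖ ≤ K := by
  obtain ⟨K, hK, hb⟩ := ubd h.cs h.fl N
  obtain ⟨W, hW, hw⟩ := RIder_w h N
  obtain ⟨Q, hQ, hqq⟩ := RIder_q h hq N
  have hπ := Real.pi_pos
  refine ⟨W * Q + W * (2 * K * Q + K * Q * (π ^ 2 + 1) + 2 * K * Q), by positivity,
    fun t α ht hα => ?_⟩
  have hξ := RIder_xi h t α hα
  have hw1 := hw t α ht hα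
  have hct := RIder_ct_le hξ.1 hξ.2
  obtain ⟨q1, q2⟩ := hqq t ht
  have q0 := hq.nn (el X e c t) (h.el_pos t) (h.el_lt t)
  obtain ⟨r0, r1⟩ := RIder_Rq (ξ := X t α - X t c) q0
  have d1 := RIder_dP (ξ := X t α - X t c) q0
  obtain ⟨b0, b1, _⟩ := RIder_ab (y := ct (X t α - X t c)) q0
  have hux := (hb t (X t α) ht).2.2.2.1
  have huc := (hb t (X t c) ht).2.2.1
  have hue := (hb t (X t e) ht).2.2.1
  have hlip : |u (t, X t α) - u (t, X t c)| ≤ K * (X t α - X t c) := by
    have h1 : ‖u (t, X t α) - u (t, X t c)‖ ≤ K * ‖X t α - X t c‖ :=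
      Convex.norm_image_sub_le_of_norm_hasDerivWithin_le (f := fun y => u (t, y))
        (f' := fun y => px u (t, y)) (s := univ)
        (fun y _ => (hasDerivAt_px u h.cs.vel.sm t y).hasDerivWithinAt)
        (fun y _ => (hb t y ht).2.2.2.1) convex_univ (mem_univ _) (mem_univ _)
    rwa [Real.norm_eq_abs, Real.norm_eq_abs, abs_of_pos hξ.1] at h1
  rw [abs_le] at huc hue
  have hce : |u (t, X t c) - u (t, X t e)| ≤ 2 * K := by
    rw [abs_le]
    constructor <;> linarith [huc.1, huc.2, hue.1, hue.2]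
  unfold rd
  have en : ∀ A B C : ℝ, 0 ≤ A → 0 ≤ B → ‖A * (B * C)‖ = A * B * |C| := by
    intro A B C hA hB
    rw [← mul_assoc, norm_mul, Real.norm_eq_abs, Real.norm_eq_abs, abs_of_nonneg (mul_nonneg hA hB)]
  rw [en _ _ _ (abs_nonneg _) (Real.exp_pos _).le, en _ _ _ (abs_nonneg _) (Real.exp_pos _).le,
    abs_of_nonneg r0]
  generalize X t α - X t c = ξ at *
  generalize q (el X e c t) = s at *
  generalize dq (el X e c t) = d at *
  generalize Rq s ξ = R at *
  generalize dPq 0 ξ - dPq s ξ = D at *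
  generalize px u (t, X t α) = U at *
  generalize u (t, X t α) - u (t, X t c) = V at *
  generalize u (t, X t c) - u (t, X t e) = Z at *
  generalize max (ct ξ - s) 0 = b at *
  generalize max (ct ξ) 0 = a at *
  generalize |w (0, α)| * Real.exp (2 * lam u X t α) = E at *
  have hξ0 := hξ.1
  have hξ1 := hξ.2
  have a0 : 0 ≤ a := b0.trans b1
  have hR : R ≤ Q / ξ := by
    calc R ≤ s * a / 2 := r1
      _ ≤ Q * (2 / ξ) / 2 := by gcongr
      _ = Q / ξ := by ring
  have hD : |D| ≤ Q * (1 + (2 / ξ) ^ 2) / 4 := by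
    calc |D| ≤ s * (1 + a ^ 2) / 4 := d1
      _ ≤ Q * (1 + (2 / ξ) ^ 2) / 4 := by gcongr
  have hB : |b| ≤ 2 / ξ := by
    rw [abs_of_nonneg b0]
    exact b1.trans hct
  have hsum : |2 * U * R + V * D + 1 / 2 * d * Z * b| ≤
      2 * K * (Q / ξ) + K * ξ * (Q * (1 + (2 / ξ) ^ 2) / 4) + 1 / 2 * Q * (2 * K) * (2 / ξ) := by
    refine (abs_add_le _ _).trans (add_le_add ((abs_add_le _ _).trans (add_le_add ?_ ?_)) ?_)
    · rw [abs_mul, abs_mul, abs_two, abs_of_nonneg r0]
      gcongr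
    · rw [abs_mul]
      gcongr
    · rw [abs_mul, abs_mul, abs_mul, abs_of_pos (by norm_num : (0:ℝ) < 1 / 2)]
      gcongr
  constructor
  · calc E * R ≤ W * ξ * (Q / ξ) := by gcongr
      _ = W * Q := by field_simp
      _ ≤ _ := by
        have : 0 ≤ W * (2 * K * Q + K * Q * (π ^ 2 + 1) + 2 * K * Q) := by positivity
        linarith
  · calc E * |2 * U * R + V * D + 1 / 2 * d * Z * b| ≤ W * ξ *
          (2 * K * (Q / ξ) + K * ξ * (Q * (1 + (2 / ξ) ^ 2) / 4) + 1 / 2 * Q * (2 * K) * (2 / ξ)) := by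
          gcongr
      _ = W * (2 * K * Q + K * Q * (ξ ^ 2 / 4 + 1) + 2 * K * Q) := by field_simp; ring
      _ ≤ W * (2 * K * Q + K * Q * (π ^ 2 + 1) + 2 * K * Q) := by
          gcongr
          nlinarith
      _ ≤ _ := by
        have : 0 ≤ W * Q := by positivity
        linarith

lemma RIder_hd (h : Dyn w u X e c T) (hq : QF q dq) (t α : ℝ) (hα : α ∈ Ioo c (e + 2 * π)) :
    HasDerivAt (fun s => Real.exp (2 * lam u X s α) * Rq (q (el X e c s)) (X s α - X s c))
      (rd u X q dq e c t α) t := by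
  have hξ := RIder_xi h t α hα
  have hlam : HasDerivAt (fun s => Real.exp (2 * lam u X s α))
      (Real.exp (2 * lam u X t α) * (2 * px u (t, X t α))) t :=
    ((lam_hasDerivAt_t h.cs.vel h.fl t α).const_mul 2).exp
  have h0 : HasDerivAt (fun s => X s α - X s c) (u (t, X t α) - u (t, X t c)) t :=
    (h.fl.ode t α).sub (h.fl.ode t c)
  have h1 : HasDerivAt (fun s => ct (X s α - X s c))
      (-(1 + ct (X t α - X t c) ^ 2) / 2 * (u (t, X t α) - u (t, X t c))) t :=
    HasDerivAt.comp (h₂ := ct) (h := fun s => X s α - X s c) t (RIder_ct_hd hξ.1 hξ.2) h0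
  have hel : HasDerivAt (el X e c) (u (t, X t c) - u (t, X t e)) t :=
    (h.fl.ode t c).sub (h.fl.ode t e)
  have h2 : HasDerivAt (fun s => q (el X e c s))
      (dq (el X e c t) * (u (t, X t c) - u (t, X t e))) t :=
    HasDerivAt.comp (h₂ := q) (h := el X e c) t
      (hq.der _ (h.el_pos t) (h.el_lt t)) hel
  have h3 := HasDerivAt.comp (h₂ := fun y : ℝ => max y 0 ^ 2)
    (h := fun s => ct (X s α - X s c) - 0) t (RIder_sq_hd _) (h1.sub_const 0)
  have h4 := HasDerivAt.comp (h₂ := fun y : ℝ => max y 0 ^ 2)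
    (h := fun s => ct (X s α - X s c) - q (el X e c s)) t (RIder_sq_hd _) (h1.sub h2)
  have h5 := hlam.mul ((h3.div_const 4).sub (h4.div_const 4))
  refine h5.congr_deriv ?_
  unfold rd Rq Pq dPq
  simp only [Function.comp, Pi.sub_apply]
  ring

lemma RIder_cont (h : Dyn w u X e c T) (t : ℝ) :
    ContinuousOn (fun α => |w (0, α)| * (Real.exp (2 * lam u X t α) *
      Rq (q (el X e c t)) (X t α - X t c))) (Ioo c (e + 2 * π)) ∧
    ContinuousOn (fun α => |w (0, α)| * rd u X q dq e c t α) (Ioo c (e + 2 * π)) := by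
  have hp : Continuous fun α : ℝ => ((t, α) : ℝ × ℝ) := continuous_const.prodMk continuous_id
  have hX : Continuous fun α => X t α := (Flow.cont h.cs.vel h.fl).comp hp
  have hc : ContinuousOn (fun α => ct (X t α - X t c)) (Ioo c (e + 2 * π)) := by
    have h1 : ContinuousOn ct (Ioo 0 (2 * π)) := fun x hx =>
      (RIder_ct_hd hx.1 hx.2).continuousAt.continuousWithinAt
    exact h1.comp (hX.sub continuous_const).continuousOn fun α hα => RIder_xi h t α hα
  have hE : Continuous fun α => Real.exp (2 * lam u X t α) :=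
    Real.continuous_exp.comp (continuous_const.mul ((lam_cont h.cs.vel h.fl).comp hp))
  have hpx : Continuous fun α => px u (t, X t α) :=
    (smooth_px u h.cs.vel.sm).continuous.comp (continuous_const.prodMk hX)
  have hu : Continuous fun α => u (t, X t α) :=
    h.cs.vel.sm.continuous.comp (continuous_const.prodMk hX)
  have hw : Continuous fun α => |w (0, α)| := Gd_w0 h.cs
  have hm : ∀ s : ℝ, ContinuousOn (fun α => max (ct (X t α - X t c) - s) 0)
      (Ioo c (e + 2 * π)) := fun s =>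
    (hc.sub continuousOn_const).sup continuousOn_const
  have hR : ∀ s : ℝ, ContinuousOn (fun α => Rq s (X t α - X t c)) (Ioo c (e + 2 * π)) :=
    fun s => (((hm 0).pow 2).div_const 4).sub (((hm s).pow 2).div_const 4)
  have hd : ∀ s : ℝ, ContinuousOn (fun α => dPq s (X t α - X t c)) (Ioo c (e + 2 * π)) :=
    fun s => (((hm s).mul (continuousOn_const.add (hc.pow 2))).div_const 4).neg
  refine ⟨hw.continuousOn.mul (hE.continuousOn.mul (hR _)), ?_⟩
  refine hw.continuousOn.mul (hE.continuousOn.mul (ContinuousOn.add (ContinuousOn.add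
    ((continuous_const.mul hpx).continuousOn.mul (hR _))
    ((hu.sub continuous_const).continuousOn.mul ((hd 0).sub (hd _)))) ?_))
  exact continuousOn_const.mul (hm _)

theorem RI_hasDerivAt (h : Dyn w u X e c T) (hq : QF q dq) (t : ℝ) :
    HasDerivAt (RI w u X q e c) (RD w u X q dq e c t) t := by
  obtain ⟨K, hK, hb⟩ := RIder_bd h hq (|t| + 1)
  have key := hasDerivAt_integral_of_dominated_loc_of_deriv_le
    (μ := volume.restrict (Ioo c (e + 2 * π)))
    (F := fun s α => |w (0, α)| * (Real.exp (2 * lam u X s α) *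
      Rq (q (el X e c s)) (X s α - X s c)))
    (F' := fun s α => |w (0, α)| * rd u X q dq e c s α) (x₀ := t) (s := Metric.ball t 1)
    (bound := fun _ => K) (Metric.ball_mem_nhds t one_pos)
    (Filter.Eventually.of_forall fun s =>
      ((RIder_cont (q := q) (dq := dq) h s).1).aestronglyMeasurable measurableSet_Ioo)
    (Integrable.mono' (JIder_const K)
      (((RIder_cont (q := q) (dq := dq) h t).1).aestronglyMeasurable measurableSet_Ioo)
      ((ae_restrict_iff' measurableSet_Ioo).2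
        (Filter.Eventually.of_forall fun α hα => (hb t α (by linarith) hα).1)))
    (((RIder_cont (q := q) (dq := dq) h t).2).aestronglyMeasurable measurableSet_Ioo)
    ((ae_restrict_iff' measurableSet_Ioo).2
      (Filter.Eventually.of_forall fun α hα s hs => (hb s α (JIder_ball hs) hα).2))
    (JIder_const K)
    ((ae_restrict_iff' measurableSet_Ioo).2
      (Filter.Eventually.of_forall fun α hα s _ => (RIder_hd h hq s α hα).const_mul _))
  exact key.2

theorem RD_integrable (h : Dyn w u X e c T) (hq : QF q dq) (t : ℝ) :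
    IntegrableOn (fun α => |w (0, α)| * rd u X q dq e c t α) (Ioo c (e + 2 * π)) := by
  obtain ⟨K, hK, hb⟩ := RIder_bd h hq |t|
  exact Integrable.mono' (JIder_const K)
    (((RIder_cont (q := q) (dq := dq) h t).2).aestronglyMeasurable measurableSet_Ioo)
    ((ae_restrict_iff' measurableSet_Ioo).2
      (Filter.Eventually.of_forall fun α hα => (hb t α le_rfl hα).2))

theorem RI_nonneg (h : Dyn w u X e c T) (hq : QF q dq) (t : ℝ) : 0 ≤ RI w u X q e c t := by
  refine setIntegral_nonneg measurableSet_Ioo fun α _ => ?_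
  exact mul_nonneg (abs_nonneg _) (mul_nonneg (Real.exp_pos _).le
    (RIder_Rq (hq.nn _ (h.el_pos t) (h.el_lt t))).1)

/-- at time `0` the functional depends on `w0` only -/
theorem RI_zero (w0 : ℝ → ℝ) (h : Dyn w u X e c T) (hw : ∀ x, w (0, x) = w0 x) :
    RI w u X q e c 0 = ∫ α in Ioo c (e + 2 * π), |w0 α| * Rq (q (c - e)) (α - c) := by
  unfold RI
  refine setIntegral_congr_fun measurableSet_Ioo fun α _ => ?_
  have h1 : lam u X 0 α = 0 := by
    unfold lam
    exact intervalIntegral.integral_same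
  simp only [hw, h1, el, h.fl.init]
  rw [mul_zero, Real.exp_zero, one_mul]

end Pool.Agent.H90.DA
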